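import Pool.Agent.Work.MP_2183d4_pt.Alg

/-!
# MP_2183d4_lc (hyperedges with at most three vertices): the algorithm

Vertices are natural numbers `< n`, a hyperedge is a list of vertices, a graph a list of pairs, the
requirements are given by a matrix (list of rows), half-edges by a list of vertices.
-/

set_option autoImplicit false

namespace Pool.AUGS.Alg

open Pool.Agent.Work.TMLib Pool.AUG.Alg

/-! ### Local edge-connectivity by augmenting paths -/

/-- Membership. -/
def memB (x : ℕ) (S : List ℕ) : Bool := S.any fun u => decide (u = x)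

/-- The arcs of the network (`B` is larger than all vertices): the hyperedge number `i` has two nodes
`B + 2 i` (in) and `B + 2 i + 1` (out), one arc from in to out, and for every vertex `v` of the hyperedge
an arc from `v` to in and an arc from out to `v`. -/
def arcs (B : ℕ) (es : List (List ℕ)) : List (ℕ × ℕ) :=
  (List.range es.length).flatMap fun i =>
    (B + (i + i), B + (i + i) + 1) ::
      (es.getD i []).flatMap fun v => [(v, B + (i + i)), (B + (i + i) + 1, v)]

/-- Add all tails of arcs whose head is in `S`. -/
def layS (A : List (ℕ × ℕ)) (S : List ℕ) : List ℕ :=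
  S ++ (A.filter fun a => memB a.2 S).map Prod.fst

/-- The nodes from which `y` can be reached in at most `k` steps. -/
def lay (A : List (ℕ × ℕ)) (y k : ℕ) : List ℕ := (List.range k).foldl (fun S _ => layS A S) [y]

/-- Reverse the `i`-th arc. -/
def flipAt (A : List (ℕ × ℕ)) (i : ℕ) : List (ℕ × ℕ) :=
  ((List.range i).map fun j => A.getD j (0, 0)) ++
    (((A.getD i (0, 0)).2, (A.getD i (0, 0)).1) :: A.drop (i + 1))

/-- The arcs from `u` to nodes from which `y` can be reached in at most `k` steps. -/
def nxt (A : List (ℕ × ℕ)) (u y k : ℕ) : List ℕ :=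
  (List.range A.length).filter fun i =>
    decide ((A.getD i (0, 0)).1 = u) && memB (A.getD i (0, 0)).2 (lay A y k)

/-- One step of the walk to `y`, `s = (present node, arcs)`: nothing to do if the present node is in
layer `k`, otherwise reverse an arc to layer `k` and go to its head. -/
def wstep (y : ℕ) (s : ℕ × List (ℕ × ℕ)) (k : ℕ) : ℕ × List (ℕ × ℕ) :=
  bif memB s.1 (lay s.2 y k) || (nxt s.2 s.1 y k).isEmpty then s else
    ((s.2.getD ((nxt s.2 s.1 y k).headD 0) (0, 0)).2, flipAt s.2 ((nxt s.2 s.1 y k).headD 0))

/-- Walk from `x` to `y` and reverse the arcs. -/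
def aug (A : List (ℕ × ℕ)) (x y : ℕ) : ℕ × List (ℕ × ℕ) :=
  (List.range A.length).reverse.foldl (wstep y) (x, A)

/-- One round of the flow algorithm, `s = (all rounds successful, arcs)`. -/
def rnd (x y : ℕ) (s : Bool × List (ℕ × ℕ)) : Bool × List (ℕ × ℕ) :=
  bif s.1 && memB x (lay s.2 y s.2.length) then (true, (aug s.2 x y).2) else (false, s.2)

/-- Local edge-connectivity at least `t`. -/
def geB (B : ℕ) (es : List (List ℕ)) (t x y : ℕ) : Bool :=
  ((List.range t).foldl (fun s _ => rnd x y s) (true, arcs B es)).1

/-! ### Checks -/

/-- The distinct entries of a list. -/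
def ddp (e : List ℕ) : List ℕ := e.foldl (fun S v => bif memB v S then S else S ++ [v]) []

/-- The hyperedges with at most three vertices. -/
def sml (es : List (List ℕ)) : List (List ℕ) := es.filter fun e => decide ((ddp e).length ≤ 3)

/-- Connected by the hyperedges with at most three vertices. -/
def conS (es : List (List ℕ)) (x y : ℕ) : Bool := connB (sml es) x y

/-- No component of the hyperedges with at most three vertices has exactly one half-edge. -/
def onesB (es : List (List ℕ)) (L : List ℕ) : Bool :=
  L.all fun v => !(decide ((L.filter fun u => conS es v u).length = 1))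

/-- The half-edges `L` (joined to the new vertex `n`) satisfy all requirements. -/
def feaB (n : ℕ) (es M : List (List ℕ)) (L : List ℕ) : Bool :=
  all2 n fun x y => decide (x = y) || geB (n + 1) (es ++ L.map fun v => [v, n]) (rq M x y) x y

/-! ### Splitting off pairs of half-edges -/

/-- Remove one copy of `u`. -/
def rm (u : ℕ) (L : List ℕ) : List ℕ :=
  (L.filter fun v => !(decide (v = u))) ++ (L.filter fun v => decide (v = u)).drop 1

/-- The half-edges at `p.1` and `p.2` can be split off. -/
def okp (n : ℕ) (es M : List (List ℕ)) (L : List ℕ) (p : ℕ × ℕ) : Bool :=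
  memB p.1 L && (memB p.2 (rm p.1 L) &&
    (feaB n (es ++ [[p.1, p.2]]) M (rm p.2 (rm p.1 L)) &&
      onesB (es ++ [[p.1, p.2]]) (rm p.2 (rm p.1 L))))

/-- The pairs which can be split off. -/
def cnd (n : ℕ) (es M : List (List ℕ)) (s : List (ℕ × ℕ) × List ℕ) : List (ℕ × ℕ) :=
  (prs n).filter fun p => okp n (es ++ edg s.1) M s.2 p

/-- One splitting step, `s = (graph, half-edges)`. -/
def sps (n : ℕ) (es M : List (List ℕ)) (s : List (ℕ × ℕ) × List ℕ) : List (ℕ × ℕ) × List ℕ :=
  bif (cnd n es M s).isEmpty then s else
    (s.1 ++ [(cnd n es M s).headD (0, 0)],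
      rm ((cnd n es M s).headD (0, 0)).2 (rm ((cnd n es M s).headD (0, 0)).1 s.2))

/-- The graph obtained by splitting off all half-edges. -/
def spl (n : ℕ) (es M : List (List ℕ)) (L : List ℕ) : List (ℕ × ℕ) :=
  ((List.range L.length).foldl (fun s _ => sps n es M s) ([], L)).1

/-! ### Half-edges by the greedy algorithm -/

/-- A number which is at least all requirements. -/
def bigN (M : List (List ℕ)) : ℕ := (M.flatMap fun row => row.flatMap fun t => List.range t).length

/-- `bigN M` half-edges at all vertices outside of the components of the vertices in `Z`. -/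
def rst (n : ℕ) (es M : List (List ℕ)) (Z : List ℕ) : List ℕ :=
  (List.range n).flatMap fun v => bif Z.any (fun z => conS es z v) then [] else
    (List.range (bigN M)).map fun _ => v

/-- One step of the greedy algorithm: drop the `j`-th half-edge of `R` if possible. -/
def gs (n : ℕ) (es M : List (List ℕ)) (L0 R kept : List ℕ) (j : ℕ) : List ℕ :=
  bif feaB n es M (L0 ++ (kept ++ R.drop (j + 1))) then kept else kept ++ [R.getD j 0]

/-- The half-edges which cannot be dropped. -/
def kpt (n : ℕ) (es M : List (List ℕ)) (L0 R : List ℕ) : List ℕ :=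
  (List.range R.length).foldl (fun kept j => gs n es M L0 R kept j) []

/-- The half-edges found by the greedy algorithm: `L0` and a minimal set of further ones outside of the
components of the vertices in `Z`. -/
def grd (n : ℕ) (es M : List (List ℕ)) (Z L0 : List ℕ) : List ℕ :=
  L0 ++ kpt n es M L0 (rst n es M Z)

/-- Add a half-edge if the number is odd. -/
def fixp (L : List ℕ) : List ℕ :=
  bif (List.range (L.length + 1)).any (fun t => decide (t + t = L.length)) then L else L.headD 0 :: L

/-! ### The algorithm -/

/-- The graph for the guess `F1` (edges), `Z` (components without half-edges), `L0` (half-edges). -/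
def build (I : Ins) (F1 : List (ℕ × ℕ)) (Z L0 : List ℕ) : List (ℕ × ℕ) :=
  (F1 ++ spl I.1 (I.2.1 ++ edg F1) I.2.2 (fixp (grd I.1 (I.2.1 ++ edg F1) I.2.2 Z L0))).filter
    fun p => !(decide (p.1 = p.2))

/-- `G` satisfies all requirements (its ends are vertices). -/
def goodG (I : Ins) (G : List (ℕ × ℕ)) : Bool :=
  (G.all fun p => decide (p.1 < I.1) && decide (p.2 < I.1)) &&
    feaB I.1 (I.2.1 ++ edg G) I.2.2 []

/-- All candidates. -/
def cands (b : ℕ) (I : Ins) : List (List (ℕ × ℕ)) :=
  (allF b I.1).flatMap fun F1 => (allF b I.1).flatMap fun F2 => (allF b I.1).map fun F3 =>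
    build I F1 (F2.map Prod.fst) (F3.map Prod.fst)

/-- A shortest list. -/
def best (l : List (List (ℕ × ℕ))) : List (ℕ × ℕ) :=
  l.foldl (fun b G => bif decide (G.length < b.length) then G else b) (l.headD [])

/-- A shortest feasible candidate. -/
def solve (b : ℕ) (I : Ins) : List (ℕ × ℕ) := best ((cands b I).filter fun G => goodG I G)

end Pool.AUGS.Alg
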