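import Pool.Agent.Work.MP_2183d4_sm.Alg
import Pool.Agent.Work.MP_2183d4_pt.AlgPoly
import Mathlib

/-!
# MP_2183d4_lc (hyperedges with at most three vertices): the algorithm is polynomial
-/

set_option autoImplicit false

namespace Pool.AUGS.Alg

open Pool.Agent.Work.TMLib Pool.AUG Pool.AUG.Alg Polynomial

section
variable {α β : Type} [DE α] [DE β]

@[fun_prop]
theorem PolyF.memB {x : α → ℕ} {S : α → List ℕ} (hx : PolyF x) (hS : PolyF S) :
    PolyF (fun a => Alg.memB (x a) (S a)) := by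
  unfold Alg.memB
  exact PolyF.any (f := fun a u => decide (u = x a)) hS (by fun_prop)

@[fun_prop]
theorem PolyF.arcs {B : α → ℕ} {es : α → List (List ℕ)} (hB : PolyF B) (hes : PolyF es) :
    PolyF (fun a => Alg.arcs (B a) (es a)) := by
  unfold Alg.arcs
  refine PolyF.flatMap (f := fun a i => (B a + (i + i), B a + (i + i) + 1) ::
      ((es a).getD i []).flatMap fun v => [(v, B a + (i + i)), (B a + (i + i) + 1, v)])
    (by fun_prop) ?_
  refine PolyF.cons (by fun_prop) ?_
  exact PolyF.flatMap (l := fun p : α × ℕ => (es p.1).getD p.2 [])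
    (f := fun p v => [(v, B p.1 + (p.2 + p.2)), (B p.1 + (p.2 + p.2) + 1, v)])
    (by fun_prop) (by fun_prop)

@[fun_prop]
theorem PolyF.layS {A : α → List (ℕ × ℕ)} {S : α → List ℕ} (hA : PolyF A) (hS : PolyF S) :
    PolyF (fun a => Alg.layS (A a) (S a)) := by
  unfold Alg.layS
  refine PolyF.append hS ?_
  refine PolyF.map (l := fun a => (A a).filter fun b => Alg.memB b.2 (S a))
    (f := fun _ (b : ℕ × ℕ) => b.1) ?_ (by fun_prop)
  exact PolyF.filter (f := fun a (b : ℕ × ℕ) => Alg.memB b.2 (S a)) hA (by fun_prop)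

theorem sz_map_fst (L : List (ℕ × ℕ)) : sz (L.map Prod.fst) ≤ sz L := by
  induction L with
  | nil => simp
  | cons b L ih =>
    simp only [List.map_cons, sz_cons, sz_pair]
    omega

theorem sz_layS (A : List (ℕ × ℕ)) (S : List ℕ) : sz (Alg.layS A S) ≤ sz S + sz A := by
  unfold Alg.layS
  have h1 := sz_append S ((A.filter fun a => Alg.memB a.2 S).map Prod.fst)
  have h2 := sz_map_fst (A.filter fun a => Alg.memB a.2 S)
  have h3 := Alg.sz_filter_le A (fun a => Alg.memB a.2 S)
  omega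

@[fun_prop]
theorem PolyF.lay {A : α → List (ℕ × ℕ)} {y k : α → ℕ} (hA : PolyF A) (hy : PolyF y)
    (hk : PolyF k) : PolyF (fun a => Alg.lay (A a) (y a) (k a)) := by
  have h : PolyF (fun p : List (ℕ × ℕ) × ℕ × ℕ => Alg.lay p.1 p.2.1 p.2.2) := by
    unfold Alg.lay
    refine PolyF.foldl_add (l := fun p : List (ℕ × ℕ) × ℕ × ℕ => List.range p.2.2)
      (g := fun p => [p.2.1]) (h := fun p S _ => Alg.layS p.1 S) (by fun_prop) (by fun_prop)
      (by fun_prop) X ?_
    intro p S b _
    have := sz_layS p.1 S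
    simp only [eval_X, sz_pair]
    omega
  exact PolyF.comp (f := fun p : List (ℕ × ℕ) × ℕ × ℕ => Alg.lay p.1 p.2.1 p.2.2)
    (g := fun a => (A a, y a, k a)) h (by fun_prop)

@[fun_prop]
theorem PolyF.flipAt {A : α → List (ℕ × ℕ)} {i : α → ℕ} (hA : PolyF A) (hi : PolyF i) :
    PolyF (fun a => Alg.flipAt (A a) (i a)) := by
  unfold Alg.flipAt
  refine PolyF.append ?_ (by fun_prop)
  exact PolyF.map (f := fun a j => (A a).getD j (0, 0)) (by fun_prop) (by fun_prop)

theorem map_getD_take (A : List (ℕ × ℕ)) (i : ℕ) (hi : i ≤ A.length) :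
    ((List.range i).map fun j => A.getD j (0, 0)) = A.take i := by
  apply List.ext_getElem
  · simp [hi]
  · intro j h1 h2
    simp only [List.length_map, List.length_range] at h1
    have h3 : j < A.length := by omega
    simp [h3]

theorem sz_flipAt (A : List (ℕ × ℕ)) (i : ℕ) (hi : i < A.length) :
    sz (Alg.flipAt A i) = sz A := by
  unfold Alg.flipAt
  rw [map_getD_take A i hi.le]
  have h0 : A.getD i (0, 0) = A[i] := List.getD_eq_getElem _ _ hi
  rw [h0]
  have h1 := sz_append (A.take i) ((A[i].2, A[i].1) :: A.drop (i + 1))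
  have h2 : A = A.take i ++ (A[i] :: A.drop (i + 1)) := by
    rw [List.getElem_cons_drop, List.take_append_drop]
  have h3 := sz_append (A.take i) (A[i] :: A.drop (i + 1))
  rw [← h2] at h3
  simp only [sz_cons, sz_pair] at h1 h3
  omega

@[fun_prop]
theorem PolyF.nxt {A : α → List (ℕ × ℕ)} {u y k : α → ℕ} (hA : PolyF A) (hu : PolyF u)
    (hy : PolyF y) (hk : PolyF k) : PolyF (fun a => Alg.nxt (A a) (u a) (y a) (k a)) := by
  unfold Alg.nxt
  exact PolyF.filter (f := fun a i => decide (((A a).getD i (0, 0)).1 = u a) &&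
    Alg.memB ((A a).getD i (0, 0)).2 (Alg.lay (A a) (y a) (k a))) (by fun_prop) (by fun_prop)

theorem nxt_headD_lt (A : List (ℕ × ℕ)) (u y k : ℕ) (h : (Alg.nxt A u y k).isEmpty = false) :
    (Alg.nxt A u y k).headD 0 < A.length := by
  cases h1 : Alg.nxt A u y k with
  | nil => rw [h1] at h; simp at h
  | cons i l =>
    have h2 : i ∈ Alg.nxt A u y k := by rw [h1]; simp
    unfold Alg.nxt at h2
    have h3 := (List.mem_filter.1 h2).1
    simpa using h3

@[fun_prop]
theorem PolyF.wstep {y k : α → ℕ} {s : α → ℕ × List (ℕ × ℕ)} (hy : PolyF y) (hs : PolyF s)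
    (hk : PolyF k) : PolyF (fun a => Alg.wstep (y a) (s a) (k a)) := by
  unfold Alg.wstep
  fun_prop

theorem sz_wstep (y : ℕ) (s : ℕ × List (ℕ × ℕ)) (k M : ℕ) (h1 : sz s.1 ≤ M) (h2 : sz s.2 ≤ M) :
    sz (Alg.wstep y s k).1 ≤ M ∧ sz (Alg.wstep y s k).2 = sz s.2 := by
  unfold Alg.wstep
  cases h : (Alg.memB s.1 (Alg.lay s.2 y k) || (Alg.nxt s.2 s.1 y k).isEmpty)
  · simp only [cond_false]
    rw [Bool.or_eq_false_iff] at h
    have h3 := nxt_headD_lt s.2 s.1 y k h.2
    refine ⟨?_, sz_flipAt _ _ h3⟩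
    rw [List.getD_eq_getElem _ _ h3]
    have h4 := sz_le_of_mem (List.getElem_mem h3)
    simp only [sz_pair] at h4
    omega
  · exact ⟨h1, rfl⟩

theorem sz_walk (y : ℕ) (l : List ℕ) (s : ℕ × List (ℕ × ℕ)) (M : ℕ) (h1 : sz s.1 ≤ M)
    (h2 : sz s.2 ≤ M) : sz (l.foldl (Alg.wstep y) s).1 ≤ M ∧
      sz (l.foldl (Alg.wstep y) s).2 = sz s.2 := by
  induction l generalizing s with
  | nil => exact ⟨h1, rfl⟩
  | cons k l ih =>
    rw [List.foldl_cons]
    obtain ⟨h3, h4⟩ := sz_wstep y s k M h1 h2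
    obtain ⟨h5, h6⟩ := ih (Alg.wstep y s k) h3 (by omega)
    exact ⟨h5, by rw [h6, h4]⟩

@[fun_prop]
theorem PolyF.aug {A : α → List (ℕ × ℕ)} {x y : α → ℕ} (hA : PolyF A) (hx : PolyF x)
    (hy : PolyF y) : PolyF (fun a => Alg.aug (A a) (x a) (y a)) := by
  have h : PolyF (fun p : List (ℕ × ℕ) × ℕ × ℕ => Alg.aug p.1 p.2.1 p.2.2) := by
    unfold Alg.aug
    refine PolyF.foldl (l := fun p : List (ℕ × ℕ) × ℕ × ℕ => (List.range p.1.length).reverse)
      (g := fun p => (p.2.1, p.1)) (h := fun p s k => Alg.wstep p.2.2 s k) (by fun_prop)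
      (by fun_prop) (by fun_prop) (2 * X + 1) ?_
    intro p j _
    have h1 : sz p.2.1 ≤ sz p := by
      rw [sz_pair, sz_pair]
      omega
    have h2 : sz p.1 ≤ sz p := by
      rw [sz_pair]
      omega
    obtain ⟨h3, h4⟩ := sz_walk p.2.2 ((List.range p.1.length).reverse.take j) (p.2.1, p.1)
      (sz p) h1 h2
    simp only at h4
    change sz (((List.range p.1.length).reverse.take j).foldl (Alg.wstep p.2.2) (p.2.1, p.1)) ≤ _
    rw [sz_pair]
    simp only [eval_add, eval_mul, eval_ofNat, eval_X, eval_one]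
    omega
  exact PolyF.comp (f := fun p : List (ℕ × ℕ) × ℕ × ℕ => Alg.aug p.1 p.2.1 p.2.2)
    (g := fun a => (A a, x a, y a)) h (by fun_prop)

theorem sz_aug (A : List (ℕ × ℕ)) (x y : ℕ) : sz (Alg.aug A x y).2 = sz A := by
  unfold Alg.aug
  exact (sz_walk y _ (x, A) (sz x + sz A) (by simp) (by simp)).2

@[fun_prop]
theorem PolyF.rnd {x y : α → ℕ} {s : α → Bool × List (ℕ × ℕ)} (hx : PolyF x) (hy : PolyF y)
    (hs : PolyF s) : PolyF (fun a => Alg.rnd (x a) (y a) (s a)) := by
  unfold Alg.rnd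
  fun_prop

theorem sz_rnd (x y : ℕ) (s : Bool × List (ℕ × ℕ)) : sz (Alg.rnd x y s) ≤ sz s + 3 := by
  unfold Alg.rnd
  have h0 := sz_pos s.1
  cases s.1 && Alg.memB x (Alg.lay s.2 y s.2.length)
  · simp only [cond_false, sz_pair, sz_false]
    omega
  · have h1 := sz_aug s.2 x y
    simp only [cond_true, sz_pair, sz_true]
    omega

@[fun_prop]
theorem PolyF.geB {B t x y : α → ℕ} {es : α → List (List ℕ)} (hB : PolyF B) (hes : PolyF es)
    (ht : PolyF t) (hx : PolyF x) (hy : PolyF y) :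
    PolyF (fun a => Alg.geB (B a) (es a) (t a) (x a) (y a)) := by
  unfold Alg.geB
  refine PolyF.fst (f := fun a => (List.range (t a)).foldl (fun s _ => Alg.rnd (x a) (y a) s)
    (true, Alg.arcs (B a) (es a))) ?_
  refine PolyF.foldl_add (l := fun a => List.range (t a))
    (g := fun a => (true, Alg.arcs (B a) (es a))) (h := fun a s _ => Alg.rnd (x a) (y a) s)
    (by fun_prop) (by fun_prop) (by fun_prop) 3 ?_
  intro a s b _
  have := sz_rnd (x a) (y a) s
  simp only [eval_ofNat]
  omega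

@[fun_prop]
theorem PolyF.ddp {e : α → List ℕ} (he : PolyF e) : PolyF (fun a => Alg.ddp (e a)) := by
  have h : PolyF (fun e : List ℕ => Alg.ddp e) := by
    unfold Alg.ddp
    refine PolyF.foldl_add (l := fun e : List ℕ => e) (g := fun _ => [])
      (h := fun _ S v => bif Alg.memB v S then S else S ++ [v]) (by fun_prop) (by fun_prop)
      ?_ X ?_
    · refine PolyF.cond (by fun_prop) (by fun_prop) (PolyF.append (by fun_prop) (by fun_prop))
    · intro e S v hv
      have h1 := sz_le_of_mem hv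
      cases Alg.memB v S
      · have h2 := sz_append S [v]
        simp only [cond_false, sz_cons, sz_nil, eval_X] at h2 ⊢
        omega
      · simp
  exact PolyF.comp (f := fun e : List ℕ => Alg.ddp e) (g := e) h he

@[fun_prop]
theorem PolyF.sml {es : α → List (List ℕ)} (hes : PolyF es) : PolyF (fun a => Alg.sml (es a)) := by
  unfold Alg.sml
  exact PolyF.filter (f := fun _ e => decide ((Alg.ddp e).length ≤ 3)) hes (by fun_prop)

@[fun_prop]
theorem PolyF.conS {es : α → List (List ℕ)} {x y : α → ℕ} (hes : PolyF es) (hx : PolyF x)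
    (hy : PolyF y) : PolyF (fun a => Alg.conS (es a) (x a) (y a)) := by
  unfold Alg.conS
  fun_prop

@[fun_prop]
theorem PolyF.onesB {es : α → List (List ℕ)} {L : α → List ℕ} (hes : PolyF es) (hL : PolyF L) :
    PolyF (fun a => Alg.onesB (es a) (L a)) := by
  unfold Alg.onesB
  refine PolyF.all (f := fun a v =>
    !(decide (((L a).filter fun u => Alg.conS (es a) v u).length = 1))) hL ?_
  refine PolyF.not (PolyF.natEq (PolyF.length ?_) (by fun_prop))
  exact PolyF.filter (l := fun p : α × ℕ => L p.1) (f := fun p u => Alg.conS (es p.1) p.2 u)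
    (by fun_prop) (by fun_prop)

@[fun_prop]
theorem PolyF.feaB {n : α → ℕ} {es M : α → List (List ℕ)} {L : α → List ℕ} (hn : PolyF n)
    (hes : PolyF es) (hM : PolyF M) (hL : PolyF L) :
    PolyF (fun a => Alg.feaB (n a) (es a) (M a) (L a)) := by
  unfold Alg.feaB
  refine PolyF.all2 (f := fun a x y => decide (x = y) ||
    Alg.geB (n a + 1) (es a ++ (L a).map fun v => [v, n a]) (Alg.rq (M a) x y) x y)
    (by fun_prop) ?_
  refine PolyF.or (by fun_prop) ?_
  refine PolyF.geB (by fun_prop) (PolyF.append (by fun_prop) ?_) (by fun_prop) (by fun_prop)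
    (by fun_prop)
  exact PolyF.map (l := fun p : α × ℕ × ℕ => L p.1) (f := fun p v => [v, n p.1])
    (by fun_prop) (by fun_prop)

@[fun_prop]
theorem PolyF.rm {u : α → ℕ} {L : α → List ℕ} (hu : PolyF u) (hL : PolyF L) :
    PolyF (fun a => Alg.rm (u a) (L a)) := by
  unfold Alg.rm
  refine PolyF.append ?_ (PolyF.drop (by fun_prop) ?_)
  · exact PolyF.filter (f := fun a v => !(decide (v = u a))) hL (by fun_prop)
  · exact PolyF.filter (f := fun a v => decide (v = u a)) hL (by fun_prop)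

theorem sz_filter_add (L : List ℕ) (f : ℕ → Bool) :
    sz (L.filter fun v => !(f v)) + sz (L.filter f) = sz L + 1 := by
  induction L with
  | nil => simp
  | cons v L ih =>
    rw [List.filter_cons, List.filter_cons]
    cases hf : f v <;> simp at ih ⊢ <;> omega

theorem sz_rm (u : ℕ) (L : List ℕ) : sz (Alg.rm u L) ≤ sz L := by
  unfold Alg.rm
  have h1 := sz_filter_add L (fun v => decide (v = u))
  have h2 := sz_append (L.filter fun v => !(decide (v = u)))
    ((L.filter fun v => decide (v = u)).drop 1)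
  have h3 := sz_drop_le (L.filter fun v => decide (v = u)) 1
  omega

@[fun_prop]
theorem PolyF.okp {n : α → ℕ} {es M : α → List (List ℕ)} {L : α → List ℕ} {p : α → ℕ × ℕ}
    (hn : PolyF n) (hes : PolyF es) (hM : PolyF M) (hL : PolyF L) (hp : PolyF p) :
    PolyF (fun a => Alg.okp (n a) (es a) (M a) (L a) (p a)) := by
  unfold Alg.okp
  have h : PolyF (fun a => es a ++ [[(p a).1, (p a).2]]) := PolyF.append hes (by fun_prop)
  fun_prop

@[fun_prop]
theorem PolyF.cnd {n : α → ℕ} {es M : α → List (List ℕ)} {s : α → List (ℕ × ℕ) × List ℕ}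
    (hn : PolyF n) (hes : PolyF es) (hM : PolyF M) (hs : PolyF s) :
    PolyF (fun a => Alg.cnd (n a) (es a) (M a) (s a)) := by
  unfold Alg.cnd
  refine PolyF.filter (l := fun a => Alg.prs (n a)) (f := fun a (p : ℕ × ℕ) =>
    Alg.okp (n a) (es a ++ Alg.edg (s a).1) (M a) (s a).2 p) (by fun_prop) ?_
  refine PolyF.okp (by fun_prop) (PolyF.append (by fun_prop) (by fun_prop)) (by fun_prop)
    (by fun_prop) (by fun_prop)

@[fun_prop]
theorem PolyF.sps {n : α → ℕ} {es M : α → List (List ℕ)} {s : α → List (ℕ × ℕ) × List ℕ}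
    (hn : PolyF n) (hes : PolyF es) (hM : PolyF M) (hs : PolyF s) :
    PolyF (fun a => Alg.sps (n a) (es a) (M a) (s a)) := by
  unfold Alg.sps
  refine PolyF.cond (by fun_prop) hs (PolyF.pair (PolyF.append (by fun_prop) (by fun_prop))
    (by fun_prop))

@[fun_prop]
theorem PolyF.spl {n : α → ℕ} {es M : α → List (List ℕ)} {L : α → List ℕ}
    (hn : PolyF n) (hes : PolyF es) (hM : PolyF M) (hL : PolyF L) :
    PolyF (fun a => Alg.spl (n a) (es a) (M a) (L a)) := by
  unfold Alg.spl
  refine PolyF.fst (f := fun a => (List.range (L a).length).foldl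
    (fun s _ => Alg.sps (n a) (es a) (M a) s) ([], L a)) ?_
  have h1 : PolyF (fun a => Alg.prs (n a)) := by fun_prop
  obtain ⟨q, hq⟩ := h1.size
  refine PolyF.foldl_add (l := fun a => List.range (L a).length) (g := fun a => ([], L a))
    (h := fun a s _ => Alg.sps (n a) (es a) (M a) s) (by fun_prop) (by fun_prop) (by fun_prop)
    (q + 6) ?_
  intro a s j _
  unfold Alg.sps
  cases (Alg.cnd (n a) (es a) (M a) s).isEmpty
  · simp only [cond_false]
    have h2 := sz_append s.1 [(Alg.cnd (n a) (es a) (M a) s).headD (0, 0)]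
    have h3 := Alg.sz_headD_le (Alg.cnd (n a) (es a) (M a) s) (Alg.prs (n a)) (0, 0)
      (fun x hx => (List.mem_filter.1 hx).1)
    have h4 := hq a
    have h5 := sz_rm ((Alg.cnd (n a) (es a) (M a) s).headD (0, 0)).1 s.2
    have h6 := sz_rm ((Alg.cnd (n a) (es a) (M a) s).headD (0, 0)).2
      (Alg.rm ((Alg.cnd (n a) (es a) (M a) s).headD (0, 0)).1 s.2)
    simp only [sz_cons, sz_nil, sz_pair, sz_nat, eval_add, eval_ofNat] at h2 h3 ⊢
    omega
  · simp only [cond_true]
    omega

@[fun_prop]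
theorem PolyF.bigN {M : α → List (List ℕ)} (hM : PolyF M) : PolyF (fun a => Alg.bigN (M a)) := by
  unfold Alg.bigN
  refine PolyF.length ?_
  refine PolyF.flatMap (f := fun _ row => row.flatMap fun t => List.range t) hM ?_
  exact PolyF.flatMap (l := fun p : α × List ℕ => p.2) (f := fun _ t => List.range t)
    (by fun_prop) (by fun_prop)

@[fun_prop]
theorem PolyF.rst {n : α → ℕ} {es M : α → List (List ℕ)} {Z : α → List ℕ}
    (hn : PolyF n) (hes : PolyF es) (hM : PolyF M) (hZ : PolyF Z) :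
    PolyF (fun a => Alg.rst (n a) (es a) (M a) (Z a)) := by
  unfold Alg.rst
  refine PolyF.flatMap (f := fun a v => bif (Z a).any (fun z => Alg.conS (es a) z v) then [] else
    (List.range (Alg.bigN (M a))).map fun _ => v) (by fun_prop) ?_
  refine PolyF.cond ?_ (by fun_prop) ?_
  · exact PolyF.any (l := fun p : α × ℕ => Z p.1) (f := fun p z => Alg.conS (es p.1) z p.2)
      (by fun_prop) (by fun_prop)
  · exact PolyF.map (l := fun p : α × ℕ => List.range (Alg.bigN (M p.1))) (f := fun p _ => p.2)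
      (by fun_prop) (by fun_prop)

@[fun_prop]
theorem PolyF.gs {n j : α → ℕ} {es M : α → List (List ℕ)} {L0 R kept : α → List ℕ}
    (hn : PolyF n) (hes : PolyF es) (hM : PolyF M) (hL0 : PolyF L0) (hR : PolyF R)
    (hk : PolyF kept) (hj : PolyF j) :
    PolyF (fun a => Alg.gs (n a) (es a) (M a) (L0 a) (R a) (kept a) (j a)) := by
  unfold Alg.gs
  refine PolyF.cond (PolyF.feaB hn hes hM (PolyF.append hL0 (PolyF.append hk (by fun_prop)))) hk
    (PolyF.append hk (by fun_prop))

@[fun_prop]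
theorem PolyF.kpt {n : α → ℕ} {es M : α → List (List ℕ)} {L0 R : α → List ℕ}
    (hn : PolyF n) (hes : PolyF es) (hM : PolyF M) (hL0 : PolyF L0) (hR : PolyF R) :
    PolyF (fun a => Alg.kpt (n a) (es a) (M a) (L0 a) (R a)) := by
  unfold Alg.kpt
  obtain ⟨q, hq⟩ := hR.size
  refine PolyF.foldl_add (l := fun a => List.range (R a).length) (g := fun _ => [])
    (h := fun a kept j => Alg.gs (n a) (es a) (M a) (L0 a) (R a) kept j) (by fun_prop)
    (by fun_prop) (by fun_prop) (q + 2) ?_
  intro a S j _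
  unfold Alg.gs
  cases Alg.feaB (n a) (es a) (M a) (L0 a ++ (S ++ (R a).drop (j + 1)))
  · simp only [cond_false]
    have h2 := sz_append S [(R a).getD j 0]
    have h3 : sz ((R a).getD j 0) ≤ sz (R a) := by
      by_cases hj : j < (R a).length
      · have : (R a).getD j 0 ∈ R a := by
          rw [List.getD_eq_getElem _ _ hj]
          exact List.getElem_mem hj
        exact (sz_le_of_mem this).le
      · rw [List.getD_eq_default _ _ (by omega)]
        have := sz_pos (R a)
        simp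
        omega
    have h4 := hq a
    simp only [sz_cons, sz_nil, eval_add, eval_ofNat] at h2 ⊢
    omega
  · simp only [cond_true]
    omega

@[fun_prop]
theorem PolyF.grd {n : α → ℕ} {es M : α → List (List ℕ)} {Z L0 : α → List ℕ}
    (hn : PolyF n) (hes : PolyF es) (hM : PolyF M) (hZ : PolyF Z) (hL0 : PolyF L0) :
    PolyF (fun a => Alg.grd (n a) (es a) (M a) (Z a) (L0 a)) := by
  unfold Alg.grd
  exact PolyF.append hL0 (by fun_prop)

@[fun_prop]
theorem PolyF.fixp {L : α → List ℕ} (hL : PolyF L) : PolyF (fun a => Alg.fixp (L a)) := by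
  unfold Alg.fixp
  refine PolyF.cond ?_ hL (by fun_prop)
  exact PolyF.any (f := fun a t => decide (t + t = (L a).length)) (by fun_prop) (by fun_prop)

@[fun_prop]
theorem PolyF.build {I : α → Ins} {F1 : α → List (ℕ × ℕ)} {Z L0 : α → List ℕ}
    (hI : PolyF I) (hF : PolyF F1) (hZ : PolyF Z) (hL0 : PolyF L0) :
    PolyF (fun a => Alg.build (I a) (F1 a) (Z a) (L0 a)) := by
  unfold Alg.build
  refine PolyF.filter (l := fun a => F1 a ++ Alg.spl (I a).1 ((I a).2.1 ++ Alg.edg (F1 a))
      (I a).2.2 (Alg.fixp (Alg.grd (I a).1 ((I a).2.1 ++ Alg.edg (F1 a)) (I a).2.2 (Z a) (L0 a))))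
    (f := fun _ (p : ℕ × ℕ) => !(decide (p.1 = p.2))) ?_ (by fun_prop)
  have h : PolyF (fun a => (I a).2.1 ++ Alg.edg (F1 a)) :=
    PolyF.append (by fun_prop) (by fun_prop)
  exact PolyF.append hF (by fun_prop)

@[fun_prop]
theorem PolyF.goodG {I : α → Ins} {G : α → List (ℕ × ℕ)} (hI : PolyF I) (hG : PolyF G) :
    PolyF (fun a => Alg.goodG (I a) (G a)) := by
  unfold Alg.goodG
  refine PolyF.and ?_ ?_
  · exact PolyF.all (f := fun a (p : ℕ × ℕ) => decide (p.1 < (I a).1) && decide (p.2 < (I a).1))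
      hG (by fun_prop)
  · exact PolyF.feaB (by fun_prop) (PolyF.append (by fun_prop) (by fun_prop)) (by fun_prop)
      (by fun_prop)

@[fun_prop]
theorem PolyF.mapFst {F : α → List (ℕ × ℕ)} (hF : PolyF F) :
    PolyF (fun a => (F a).map Prod.fst) :=
  PolyF.map (f := fun _ (b : ℕ × ℕ) => b.1) hF (by fun_prop)

theorem PolyF.cands_aux1 {b : ℕ} {I : α → Ins} (hI : PolyF I) :
    PolyF (fun p : (α × List (ℕ × ℕ)) × List (ℕ × ℕ) => (Alg.allF b (I p.1.1).1).map
      fun F3 => Alg.build (I p.1.1) p.1.2 (p.2.map Prod.fst) (F3.map Prod.fst)) := by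
  have h1 : PolyF (fun p : ((α × List (ℕ × ℕ)) × List (ℕ × ℕ)) × List (ℕ × ℕ) =>
      Alg.build (I p.1.1.1) p.1.1.2 (p.1.2.map Prod.fst) (p.2.map Prod.fst)) :=
    PolyF.build (by fun_prop) (by fun_prop) (PolyF.mapFst (by fun_prop))
      (PolyF.mapFst (by fun_prop))
  have h2 : PolyF (fun p : (α × List (ℕ × ℕ)) × List (ℕ × ℕ) => Alg.allF b (I p.1.1).1) := by
    fun_prop
  have h3 := PolyF.map (l := fun p : (α × List (ℕ × ℕ)) × List (ℕ × ℕ) => Alg.allF b (I p.1.1).1)
    (f := fun p (F3 : List (ℕ × ℕ)) =>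
      Alg.build (I p.1.1) p.1.2 (p.2.map Prod.fst) (F3.map Prod.fst)) h2
  have h4 := h3 h1
  beta_reduce at h4
  exact h4

theorem PolyF.cands_aux2 {b : ℕ} {I : α → Ins} (hI : PolyF I) :
    PolyF (fun p : α × List (ℕ × ℕ) => (Alg.allF b (I p.1).1).flatMap fun F2 =>
      (Alg.allF b (I p.1).1).map fun F3 =>
        Alg.build (I p.1) p.2 (F2.map Prod.fst) (F3.map Prod.fst)) := by
  have h1 : PolyF (fun p : α × List (ℕ × ℕ) => Alg.allF b (I p.1).1) := by fun_prop
  have h2 := PolyF.flatMap (l := fun p : α × List (ℕ × ℕ) => Alg.allF b (I p.1).1)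
    (f := fun p (F2 : List (ℕ × ℕ)) => (Alg.allF b (I p.1).1).map fun F3 =>
      Alg.build (I p.1) p.2 (F2.map Prod.fst) (F3.map Prod.fst)) h1
  have h3 := h2 (PolyF.cands_aux1 hI)
  beta_reduce at h3
  exact h3

@[fun_prop]
theorem PolyF.cands {b : ℕ} {I : α → Ins} (hI : PolyF I) :
    PolyF (fun a => Alg.cands b (I a)) := by
  unfold Alg.cands
  have h1 : PolyF (fun a => Alg.allF b (I a).1) := by fun_prop
  have h2 := PolyF.flatMap (l := fun a => Alg.allF b (I a).1)
    (f := fun a (F1 : List (ℕ × ℕ)) => (Alg.allF b (I a).1).flatMap fun F2 =>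
      (Alg.allF b (I a).1).map fun F3 =>
        Alg.build (I a) F1 (F2.map Prod.fst) (F3.map Prod.fst)) h1
  have h3 := h2 (PolyF.cands_aux2 hI)
  beta_reduce at h3
  exact h3

@[fun_prop]
theorem PolyF.best {l : α → List (List (ℕ × ℕ))} (hl : PolyF l) :
    PolyF (fun a => Alg.best (l a)) := by
  unfold Alg.best
  obtain ⟨q, hq⟩ := hl.size
  refine PolyF.foldl_add (l := l) (g := fun a => (l a).headD [])
    (h := fun _ b G => bif decide (G.length < b.length) then G else b) hl (by fun_prop)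
    (by fun_prop) q ?_
  intro a s b hb
  have h1 := sz_le_of_mem hb
  have h2 := hq a
  cases decide (b.length < s.length)
  · simp
  · simp only [cond_true]
    omega

@[fun_prop]
theorem PolyF.solve {b : ℕ} {I : α → Ins} (hI : PolyF I) :
    PolyF (fun a => Alg.solve b (I a)) := by
  unfold Alg.solve
  refine PolyF.best ?_
  exact PolyF.filter (l := fun a => Alg.cands b (I a)) (f := fun a G => Alg.goodG (I a) G)
    (by fun_prop) (by fun_prop)

end

end Pool.AUGS.Alg
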