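import Pool.Agent.Work.MP_2183d4_sm.Interface

/-!
# MP_2183d4_lc, project SM, block ADT
-/

set_option autoImplicit false

namespace Pool.AUGS

open Finset

namespace ADT

variable {V E : Type} [Fintype V] [DecidableEq V] [Fintype E]

open Classical in
/-- the component of `v`: the intersection of all closed sets containing `v` -/
noncomputable def comp (H : E → Finset V) (v : V) : Finset V :=
  univ.filter fun w => ∀ X : Finset V, Cl3 H X → v ∈ X → w ∈ X

theorem mem_comp {H : E → Finset V} {v w : V} :
    w ∈ comp H v ↔ ∀ X : Finset V, Cl3 H X → v ∈ X → w ∈ X := by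
  simp [comp]

theorem self_mem (H : E → Finset V) (v : V) : v ∈ comp H v := mem_comp.2 fun _ _ h => h

theorem comp_sub {H : E → Finset V} {v : V} {X : Finset V} (hX : Cl3 H X) (hv : v ∈ X) :
    comp H v ⊆ X := fun _ hw => mem_comp.1 hw X hX hv

theorem comp_cl (H : E → Finset V) (v : V) : Cl3 H (comp H v) := by
  rintro e he ⟨u, hue, hu⟩ w hw
  rw [mem_comp]
  intro X hX hv
  exact hX e he ⟨u, hue, mem_comp.1 hu X hX hv⟩ w hw

theorem compl_cl {H : E → Finset V} {X : Finset V} (hX : Cl3 H X) : Cl3 H Xᶜ := by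
  rintro e he ⟨u, hue, hu⟩ w hw
  rw [mem_compl] at hu ⊢
  intro hwX
  exact hu (hX e he ⟨w, hw, hwX⟩ u hue)

theorem comp_min (H : E → Finset V) (v : V) (D : Finset V) (hD : D ⊂ comp H v)
    (hne : D.Nonempty) : ¬ Cl3 H D := by
  intro hcl
  by_cases hv : v ∈ D
  · exact hD.2 (comp_sub hcl hv)
  · obtain ⟨d, hd⟩ := hne
    have h1 := comp_sub (compl_cl hcl) (mem_compl.2 hv) (hD.1 hd)
    exact (mem_compl.1 h1) hd

end ADT

open ADT in
theorem stmt_ADT : Stmt_ADT := by
  classical
  intro V E _ _ _ H m
  set B : Finset V := univ.filter fun v => m v = 1 ∧ ∑ w ∈ comp H v, m w = 1 with hB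
  have hBcard : B.card ≤ ones3 H m := by
    unfold ones3
    refine Finset.card_le_card_of_injOn (fun v => comp H v) ?_ ?_
    · intro v hv
      rw [hB, mem_coe, mem_filter] at hv
      rw [mem_coe, mem_filter]
      exact ⟨mem_univ _, ⟨v, self_mem H v⟩, comp_cl H v, fun D hD hne => comp_min H v D hD hne,
        hv.2.2⟩
    · intro v hv w hw hvw
      rw [hB, mem_coe, mem_filter] at hv hw
      by_contra hne
      have hvw' : comp H v = comp H w := hvw
      have h1 : m v + m w ≤ ∑ x ∈ comp H v, m x := by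
        have h2 : ({v, w} : Finset V) ⊆ comp H v := by
          intro x hx
          rw [mem_insert, mem_singleton] at hx
          rcases hx with rfl | rfl
          · exact self_mem H x
          · rw [hvw']; exact self_mem H x
        calc m v + m w = ∑ x ∈ ({v, w} : Finset V), m x := (Finset.sum_pair hne).symm
          _ ≤ _ := Finset.sum_le_sum_of_subset h2
      rw [hv.2.2, hv.2.1, hw.2.1] at h1
      omega
  set m1 : V → ℕ := fun v => m v + if v ∈ B then 1 else 0 with hm1
  have hm1le : ∀ v, m v ≤ m1 v := fun v => Nat.le_add_right _ _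
  have hm1sum : ∑ v, m1 v = ∑ v, m v + B.card := by
    rw [hm1, Finset.sum_add_distrib]
    congr 1
    rw [Finset.sum_ite_mem, univ_inter, Finset.sum_const, smul_eq_mul, mul_one]
  have hcl : ∀ X, Cl3 H X → ∑ v ∈ X, m1 v ≠ 1 := by
    intro X hX h1
    obtain ⟨v, hv, hv0⟩ : ∃ v ∈ X, m1 v ≠ 0 := by
      by_contra hcon
      push Not at hcon
      rw [Finset.sum_eq_zero hcon] at h1
      exact zero_ne_one h1
    have hv1 : m1 v ≤ 1 := by
      rw [← h1]
      exact Finset.single_le_sum (f := m1) (fun _ _ => Nat.zero_le _) hv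
    have hvB : v ∉ B := by
      intro hvB
      have h2 : m v = 1 := by
        rw [hB, mem_filter] at hvB
        exact hvB.2.1
      have h3 : m1 v = 2 := by
        rw [hm1]
        simp only [if_pos hvB, h2]
      omega
    have hmv : m v = 1 := by
      have h3 : m1 v = m v := by
        rw [hm1]
        simp only [if_neg hvB, add_zero]
      omega
    apply hvB
    rw [hB, mem_filter]
    refine ⟨mem_univ _, hmv, ?_⟩
    have h4 : ∑ w ∈ comp H v, m w ≤ 1 := by
      calc ∑ w ∈ comp H v, m w ≤ ∑ w ∈ comp H v, m1 w := Finset.sum_le_sum fun w _ => hm1le w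
        _ ≤ ∑ w ∈ X, m1 w := Finset.sum_le_sum_of_subset (comp_sub hX hv)
        _ = 1 := h1
    have h5 : m v ≤ ∑ w ∈ comp H v, m w :=
      Finset.single_le_sum (f := m) (fun _ _ => Nat.zero_le _) (self_mem H v)
    omega
  by_cases hev : Even (∑ v, m1 v)
  · exact ⟨m1, hm1le, hev, hcl, by omega⟩
  · rw [Nat.not_even_iff_odd] at hev
    obtain ⟨v0, -, hv0⟩ : ∃ v ∈ (univ : Finset V), m1 v ≠ 0 := by
      by_contra hcon
      push Not at hcon
      rw [Finset.sum_eq_zero hcon] at hev
      exact absurd hev (by decide)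
    set m2 : V → ℕ := fun v => m1 v + if v = v0 then 1 else 0 with hm2
    have hm2le : ∀ v, m1 v ≤ m2 v := fun v => Nat.le_add_right _ _
    have hm2sum : ∑ v, m2 v = ∑ v, m1 v + 1 := by
      rw [hm2, Finset.sum_add_distrib]
      congr 1
      rw [Finset.sum_ite_eq' univ v0, if_pos (mem_univ _)]
    refine ⟨m2, fun v => (hm1le v).trans (hm2le v), ?_, ?_, ?_⟩
    · rw [hm2sum]
      exact hev.add_one
    · intro X hX h1
      have h2 : ∑ v ∈ X, m1 v ≤ 1 := by
        rw [← h1]
        exact Finset.sum_le_sum fun w _ => hm2le w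
      have h3 := hcl X hX
      have h4 : ∑ v ∈ X, m1 v = 0 := by omega
      have h5 : v0 ∉ X := by
        intro hv
        exact hv0 ((Finset.sum_eq_zero_iff.1 h4) v0 hv)
      have h6 : ∑ v ∈ X, m2 v = ∑ v ∈ X, m1 v := by
        refine Finset.sum_congr rfl fun w hw => ?_
        have : w ≠ v0 := by
          rintro rfl
          exact h5 hw
        rw [hm2]
        simp only [if_neg this, add_zero]
      omega
    · omega

end Pool.AUGS
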