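import Pool.Agent.Work.MP_2183d4_sm.Interface2

set_option autoImplicit false

namespace Pool.AUGS

open Finset Pool.AUG Pool.AUG.Alg Pool.AUGS.Alg

namespace X_AUG

/-- The walk from layer `k`. -/
theorem walk (hW : Stmt_WST) (y : ℕ) : ∀ (k : ℕ) (s : ℕ × List (ℕ × ℕ)), s.1 ∈ lay s.2 y k →
    ((List.range k).reverse.foldl (wstep y) s).1 = y ∧
    ((List.range k).reverse.foldl (wstep y) s).2.length = s.2.length ∧
    ∀ t : ℕ → Bool, dout ((List.range k).reverse.foldl (wstep y) s).2 t + (if t s.1 then 1 else 0) =
      dout s.2 t + (if t y then 1 else 0) := by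
  intro k
  induction k with
  | zero =>
    intro s hs
    have h0 : s.1 = y := by simpa [lay] using hs
    refine ⟨by simpa using h0, by simp, fun t => by simp [h0]⟩
  | succ k ih =>
    intro s hs
    obtain ⟨h1, h2, h3⟩ := hW y k s hs
    obtain ⟨i1, i2, i3⟩ := ih (wstep y s k) h1
    have hr : (List.range (k + 1)).reverse.foldl (wstep y) s =
        (List.range k).reverse.foldl (wstep y) (wstep y s k) := by
      rw [List.range_succ, List.reverse_append, List.reverse_singleton, List.singleton_append,
        List.foldl_cons]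
    rw [hr]
    refine ⟨i1, i2.trans h2, fun t => ?_⟩
    have h4 := h3 t
    have h5 := i3 t
    omega

end X_AUG

theorem stmt_AUG : Stmt_WST → Stmt_AUG := by
  intro hWST A x y hx
  obtain ⟨_, h2, h3⟩ := X_AUG.walk hWST y A.length (x, A) hx
  refine ⟨h2, fun t htx hty => ?_⟩
  have h4 := h3 t
  simp only [htx, hty, if_true] at h4
  simpa [aug] using h4

end Pool.AUGS
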