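import Pool.Agent.Work.MP_2183d4_sm.Interface2

/-! Block BLD of MP_2183d4_lc (small hyperedges): `build` for a good guess. -/

set_option autoImplicit false

namespace Pool.AUGS

open Finset Pool.AUG Pool.AUG.Alg Pool.AUGS.Alg

namespace X_BLD

/-- Loops do not count. -/
theorem gl_filter {n : ℕ} (F : List (Fin n × Fin n)) (X : Finset (Fin n)) :
    gl (F.filter fun p => !(decide (p.1.val = p.2.val))) X = gl F X := by
  unfold gl
  rw [List.countP_filter]
  apply List.countP_congr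
  intro e _
  by_cases h : e.1.val = e.2.val
  · have h' : e.1 = e.2 := Fin.ext h
    simp [h']
  · simp [h]

end X_BLD

theorem stmt_BLD (hGRD : Stmt_GRD) (hFXP : Stmt_FXP) (hSPL : Stmt_SPL) (hSMF : Stmt_SMF) :
    Stmt_BLD := by
  intro I F1 Z L0 μ hV hS hL0 hfe hev hle hZ hno
  obtain ⟨-, -, -, hcE, hVs, -⟩ := hSMF
  have hV1 : Vs I.1 (I.2.1 ++ edg (mapF F1)) := hVs I.1 I.2.1 F1 hV
  obtain ⟨hlt, hfeas, hct, hz, hlen⟩ := hGRD I.1 (I.2.1 ++ edg (mapF F1)) I.2.2 Z L0 μ hV1 hS hL0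
    hfe hle hZ
  set g := grd I.1 (I.2.1 ++ edg (mapF F1)) I.2.2 Z L0 with hg
  have hno1 := hno (ct I.1 g) hfeas hct hz
  obtain ⟨heven, hlt', hct', hno', hlen'⟩ := hFXP I.1 (I.2.1 ++ edg (mapF F1)) g hlt hno1
  have hlen2 := hlen' (∑ v, μ v) hlen hev
  have hfeas' : FeasM (cE I.1 (I.2.1 ++ edg (mapF F1))) (rE I.1 I.2.2) (ct I.1 (fixp g)) := by
    intro X x y hx hy
    exact (hfeas X x y hx hy).trans
      (Nat.add_le_add_left (Finset.sum_le_sum fun v _ => hct' v) _)
  obtain ⟨G, hG, hGlen, hOk⟩ := hSPL I.1 (I.2.1 ++ edg (mapF F1)) I.2.2 (fixp g) hV1 hS hlt' hfeas'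
    hno' heven
  refine ⟨(F1 ++ G).filter fun p => !(decide (p.1.val = p.2.val)), ?_, ?_, ?_, ?_⟩
  · unfold build
    rw [← hg, hG]
    unfold mapF
    rw [← List.map_append, List.filter_map]
    rfl
  · intro e he h
    have := (List.mem_filter.1 he).2
    simp [h] at this
  · intro X x y hx hy
    have h1 := hOk X x y hx hy
    rw [hcE] at h1
    rw [X_BLD.gl_filter]
    have h2 : gl (F1 ++ G) X = gl F1 X + gl G X := by
      unfold gl
      rw [List.countP_append]
    omega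
  · have h1 : ((F1 ++ G).filter fun p => !(decide (p.1.val = p.2.val))).length
        ≤ (F1 ++ G).length := List.length_filter_le _ _
    rw [List.length_append] at h1
    omega

end Pool.AUGS
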