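import Pool.Agent.Work.MP_2183d4_sm.Interface2

/-! # Block BST: a shortest list -/

set_option autoImplicit false

namespace Pool.AUGS

open Finset Pool.AUG Pool.AUG.Alg Pool.AUGS.Alg

theorem BST.aux (l : List (List (ℕ × ℕ))) : ∀ b : List (ℕ × ℕ),
    (l.foldl (fun b G => bif decide (G.length < b.length) then G else b) b = b ∨
      l.foldl (fun b G => bif decide (G.length < b.length) then G else b) b ∈ l) ∧
    (l.foldl (fun b G => bif decide (G.length < b.length) then G else b) b).length ≤ b.length ∧
    ∀ G ∈ l, (l.foldl (fun b G => bif decide (G.length < b.length) then G else b) b).length ≤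
      G.length := by
  induction l with
  | nil =>
    intro b
    exact ⟨Or.inl rfl, le_rfl, fun G hG => by simp at hG⟩
  | cons a l ih =>
    intro b
    rw [List.foldl_cons]
    by_cases h : a.length < b.length
    · have h1 : (bif decide (a.length < b.length) then a else b) = a := by simp [h]
      rw [h1]
      obtain ⟨i1, i2, i3⟩ := ih a
      refine ⟨Or.inr ?_, i2.trans h.le, ?_⟩
      · rcases i1 with i1 | i1
        · rw [i1]
          exact List.mem_cons_self
        · exact List.mem_cons_of_mem _ i1
      · intro G hG
        rcases List.mem_cons.1 hG with rfl | hG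
        · exact i2
        · exact i3 G hG
    · have h1 : (bif decide (a.length < b.length) then a else b) = b := by simp [h]
      rw [h1]
      obtain ⟨i1, i2, i3⟩ := ih b
      refine ⟨?_, i2, ?_⟩
      · rcases i1 with i1 | i1
        · exact Or.inl i1
        · exact Or.inr (List.mem_cons_of_mem _ i1)
      · intro G hG
        rcases List.mem_cons.1 hG with rfl | hG
        · exact i2.trans (not_lt.1 h)
        · exact i3 G hG

theorem stmt_BST : Stmt_BST := by
  intro l hl
  obtain ⟨a, l, rfl⟩ := List.exists_cons_of_ne_nil hl
  obtain ⟨h1, -, h3⟩ := BST.aux (a :: l) a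
  refine ⟨?_, h3⟩
  have h4 : best (a :: l) =
    (a :: l).foldl (fun b G => bif decide (G.length < b.length) then G else b) a := rfl
  rw [h4]
  rcases h1 with h1 | h1
  · rw [h1]
    exact List.mem_cons_self
  · exact h1

end Pool.AUGS
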