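import Pool.Agent.Work.MP_2183d4_sm.Interface2
import Pool.Agent.Work.MP_2183d4_pt.B_SCF
import Pool.Agent.Work.MP_2183d4_pt.B_SCO

/-! # Block CNS (helper72): the relation of being connected by small hyperedges -/

set_option autoImplicit false

namespace Pool.AUGS

open Finset Pool.AUG Pool.AUG.Alg Pool.AUGS.Alg

theorem stmt_CNS (hSMF : Stmt_SMF) : Stmt_CNS := by
  intro n es x y hV
  have hV' : Vs n (sml es) := hSMF.2.2.1 n es hV
  have hc : IsCut (cE n (sml es)) := hSMF.2.2.2.2.2 n (sml es) hV'
  unfold conS
  rw [Pool.AUG.stmt_SCO (sml es) x y]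
  constructor
  · intro h
    have key : ∀ X : Finset (Fin n), cE n (sml es) X = 0 → x ∈ X → y ∈ X := by
      intro X hX hx
      have h1 := h (sF n X) hX (by rw [Pool.AUG.SCF.sF_val]; exact decide_eq_true hx)
      rw [Pool.AUG.SCF.sF_val] at h1
      exact of_decide_eq_true h1
    intro X hX
    refine ⟨key X hX, fun hy => ?_⟩
    by_contra hx
    have := key Xᶜ (by rw [hc.compl, hX]) (by simpa using hx)
    simp [hy] at this
  · intro h s hs hx
    have h0 : cE n (sml es) (univ.filter fun v : Fin n => s v.val = true) = 0 := by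
      rw [← hs]
      exact Pool.AUG.SCF.cutB_congr fun e he v hv => by
        rw [Pool.AUG.SCF.sF_lt _ (hV' e he v hv)]
        simp
    have h1 := (h _ h0).1 (by simp [hx])
    simpa using h1

end Pool.AUGS
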