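import Pool.Agent.Work.MP_2183d4_sm.Interface2

set_option autoImplicit false

/-! # CNT: the guess from an optimal graph -/

namespace Pool.AUGS

open Finset Pool.AUG Pool.AUG.Alg Pool.AUGS.Alg

namespace CNT

/-- A smaller function with prescribed sum. -/
theorem exists_sub {V : Type} [DecidableEq V] (K : Finset V) (μ : V → ℕ) (t : ℕ)
    (ht : t ≤ ∑ v ∈ K, μ v) : ∃ f : V → ℕ, (∀ v, f v ≤ μ v) ∧ ∑ v ∈ K, f v = t := by
  induction t with
  | zero => exact ⟨fun _ => 0, fun _ => Nat.zero_le _, by simp⟩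
  | succ t ih =>
    obtain ⟨f, hf, hs⟩ := ih (by omega)
    have h1 : ∑ v ∈ K, f v < ∑ v ∈ K, μ v := by omega
    obtain ⟨v, hv, hlt⟩ := Finset.exists_lt_of_sum_lt h1
    refine ⟨fun w => f w + if w = v then 1 else 0, ?_, ?_⟩
    · intro w
      by_cases h : w = v
      · subst h
        simp
        omega
      · simp [h, hf w]
    · rw [Finset.sum_add_distrib, hs, Finset.sum_ite_eq' K v]
      simp [hv]

/-- A list with given counts. -/
theorem exists_list (n : ℕ) (l : Fin n → ℕ) :
    ∃ L : List ℕ, (∀ v ∈ L, v < n) ∧ (∀ v, ct n L v = l v) ∧ L.length = ∑ v, l v := by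
  refine ⟨(List.finRange n).flatMap fun v => List.replicate (l v) v.val, ?_, ?_, ?_⟩
  · intro v hv
    rw [List.mem_flatMap] at hv
    obtain ⟨w, _, hw⟩ := hv
    rw [List.mem_replicate] at hw
    rw [hw.2]
    exact w.2
  · intro v
    unfold ct
    rw [List.count_flatMap]
    have h1 : (List.count v.val ∘ fun w : Fin n => List.replicate (l w) w.val) =
        fun w : Fin n => if w = v then l w else 0 := by
      funext w
      simp only [Function.comp]
      rw [List.count_replicate]
      by_cases h : w = v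
      · simp [h]
      · have h' : ¬ (w.val = v.val) := fun h2 => h (Fin.ext h2)
        simp [h, h']
    rw [h1]
    have h2 : (List.map (fun w : Fin n => if w = v then l w else 0) (List.finRange n)).sum =
        ∑ w : Fin n, if w = v then l w else 0 := by
      rw [← List.ofFn_eq_map, List.sum_ofFn]
    rw [h2]
    simp
  · rw [List.length_flatMap]
    have h2 : (List.map (fun w : Fin n => (List.replicate (l w) w.val).length)
        (List.finRange n)).sum = ∑ w : Fin n, l w := by
      rw [← List.ofFn_eq_map, List.sum_ofFn]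
      simp
    exact h2

theorem comp_sub {V : Type} [Fintype V] [DecidableEq V] {c : Finset V → ℕ} {X : Finset V} {v : V}
    (hX : c X = 0) (hv : v ∈ X) : comp c v ⊆ X := by
  intro y hy
  rw [mem_comp] at hy
  exact (hy X hX).1 hv

end CNT

theorem stmt_CNT (hPOT : Stmt_POT) (hHDS : Stmt_HDS) (hSMF : Stmt_SMF) (hCNS : Stmt_CNS) :
    Stmt_CNT := by
  classical
  rintro ⟨n, es, M⟩ c N hV hS ⟨P, hPc, hPd, hPx⟩ ⟨⟨G, hG, hGN⟩, hmin⟩
  dsimp only at hV hS G hG hPd hPx P hmin ⊢
  obtain ⟨-, s2, s3, s4, s5, s6⟩ := hSMF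
  have hV3 : Vs n (sml es) := s3 n es hV
  have hc3 : IsCut (cE n (sml es)) := s6 n _ hV3
  -- half-edges of `G`
  obtain ⟨g1, g2, g3, g4⟩ := hHDS n es M G
  have hfe : FeasM (cE n es) (rE n M) fun v => hd G {v} := by
    intro X x y hx hy
    have h1 := hG X x y hx hy
    have h2 := g2 X
    rw [g1 X] at h2
    show _ ≤ _ + ∑ v ∈ X, hd G {v}
    omega
  obtain ⟨G0, G1, hp, hlen, hone⟩ := hPOT (Fin n) (cE n (sml es)) hc3 G P hPd (by
    intro v hv
    by_contra hno
    push Not at hno
    obtain ⟨𝓕, f1, f2, f3⟩ := hPx v hno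
    have h1 := g4 (comp (cE n (sml es)) v) 𝓕 _ hfe f1 f2
    rw [← g1] at h1
    omega)
  obtain ⟨a1, a2, a3, -⟩ := hHDS n es M G1
  have hlenG : G0.length + G1.length = N := by
    have := hp.length_eq
    rw [List.length_append] at this
    omega
  have hV' : Vs n (es ++ edg (mapF G0)) := s5 n es G0 hV
  have hc' : ∀ X, cE n (sml (es ++ edg (mapF G0))) X = cE n (sml es) X + gl G0 X := by
    intro X
    rw [s2, s4]
  have hIc' : IsCut (cE n (sml (es ++ edg (mapF G0)))) := s6 n _ (s3 n _ hV')
  set c' : Finset (Fin n) → ℕ := cE n (sml (es ++ edg (mapF G0))) with hc'def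
  set μ : Fin n → ℕ := fun v => hd G1 {v} with hμ
  -- the special vertices
  set Q : Finset (Fin n) := P ∪ ((G0.map Prod.fst).toFinset ∪ (G0.map Prod.snd).toFinset) with hQ
  have hQc : Q.card ≤ 5 * c := by
    have h1 : ((G0.map Prod.fst).toFinset).card ≤ G0.length := by
      have := List.toFinset_card_le (G0.map Prod.fst)
      rwa [List.length_map] at this
    have h2 : ((G0.map Prod.snd).toFinset).card ≤ G0.length := by
      have := List.toFinset_card_le (G0.map Prod.snd)
      rwa [List.length_map] at this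
    have h3 := Finset.card_union_le P
      ((G0.map Prod.fst).toFinset ∪ (G0.map Prod.snd).toFinset)
    have h4 := Finset.card_union_le (G0.map Prod.fst).toFinset (G0.map Prod.snd).toFinset
    rw [hQ]
    omega
  have hQend : ∀ v, End G0 v → v ∈ Q := by
    rintro v ⟨e, he, rfl | rfl⟩
    · rw [hQ]
      refine mem_union_right _ (mem_union_left _ ?_)
      rw [List.mem_toFinset, List.mem_map]
      exact ⟨e, he, rfl⟩
    · rw [hQ]
      refine mem_union_right _ (mem_union_right _ ?_)
      rw [List.mem_toFinset, List.mem_map]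
      exact ⟨e, he, rfl⟩
  have hQP : P ⊆ Q := subset_union_left
  -- the half-edges `l`
  have hf : ∀ K : Finset (Fin n), ∃ f : Fin n → ℕ, (∀ v, f v ≤ μ v) ∧
      ∑ v ∈ K, f v = min 2 (∑ v ∈ K, μ v) :=
    fun K => CNT.exists_sub K μ _ (min_le_right _ _)
  choose f hf1 hf2 using hf
  set 𝒦 : Finset (Finset (Fin n)) := Q.image (comp c') with h𝒦
  set l : Fin n → ℕ := fun v => if comp c' v ∈ 𝒦 then f (comp c' v) v else 0 with hl
  have hlμ : ∀ v, l v ≤ μ v := by
    intro v
    rw [hl]
    dsimp only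
    split_ifs
    · exact hf1 _ _
    · exact Nat.zero_le _
  have hlK : ∀ q ∈ Q, ∑ v ∈ comp c' q, l v = min 2 (∑ v ∈ comp c' q, μ v) := by
    intro q hq
    rw [← hf2]
    refine Finset.sum_congr rfl fun v hv => ?_
    have h1 : comp c' v = comp c' q := (comp_eq (mem_comp.1 hv)).symm
    rw [hl]
    dsimp only
    rw [h1, if_pos]
    rw [h𝒦]
    exact mem_image_of_mem _ hq
  have hlsum : ∑ v, l v ≤ 10 * c := by
    have h1 : ∑ v, l v = ∑ v ∈ univ.filter (fun v => comp c' v ∈ 𝒦), l v := by
      symm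
      refine Finset.sum_subset (Finset.filter_subset _ _) ?_
      intro v _ hv
      rw [mem_filter] at hv
      rw [hl]
      dsimp only
      rw [if_neg]
      intro h
      exact hv ⟨mem_univ _, h⟩
    have h2 : ∑ v ∈ univ.filter (fun v => comp c' v ∈ 𝒦), l v =
        ∑ K ∈ 𝒦, ∑ v ∈ (univ.filter (fun v => comp c' v ∈ 𝒦)).filter
          (fun v => comp c' v = K), l v := by
      symm
      exact Finset.sum_fiberwise_of_maps_to (fun v hv => (mem_filter.1 hv).2) _
    rw [h1, h2]
    have h3 : ∀ K ∈ 𝒦, ∑ v ∈ (univ.filter (fun v => comp c' v ∈ 𝒦)).filter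
          (fun v => comp c' v = K), l v ≤ 2 := by
      intro K hK
      rw [h𝒦, mem_image] at hK
      obtain ⟨q, hq, rfl⟩ := hK
      refine le_trans (Finset.sum_le_sum_of_subset (t := comp c' q) ?_) ?_
      · intro v hv
        rw [mem_filter] at hv
        rw [← hv.2]
        exact self_mem_comp v
      · rw [hlK q hq]
        exact min_le_left _ _
    refine le_trans (Finset.sum_le_card_nsmul _ _ _ h3) ?_
    have h4 : 𝒦.card ≤ Q.card := by
      rw [h𝒦]
      exact Finset.card_image_le
    rw [smul_eq_mul]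
    omega
  obtain ⟨L0, l1, l2, l3⟩ := CNT.exists_list n l
  set Z0 : Finset (Fin n) := Q.filter fun q => ∑ v ∈ comp c' q, μ v = 0 with hZ0
  have hZc : ∀ v : Fin n, (∃ z ∈ Z0.toList.map Fin.val,
      conS (es ++ edg (mapF G0)) z v = true) ↔ ∃ q ∈ Z0, Same c' q v := by
    intro v
    constructor
    · rintro ⟨z, hz, hcon⟩
      rw [List.mem_map] at hz
      obtain ⟨q, hq, rfl⟩ := hz
      rw [Finset.mem_toList] at hq
      exact ⟨q, hq, (hCNS n _ q v hV').1 hcon⟩
    · rintro ⟨q, hq, hcon⟩
      refine ⟨q.val, ?_, (hCNS n _ q v hV').2 hcon⟩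
      rw [List.mem_map]
      exact ⟨q, Finset.mem_toList.2 hq, rfl⟩
  refine ⟨G0, Z0.toList.map Fin.val, L0, μ, ?_, ?_, ?_, ?_, l1, ?_, ?_, ?_, ?_, ?_, ?_⟩
  · omega
  · rw [List.length_map, Finset.length_toList]
    have : Z0.card ≤ Q.card := Finset.card_filter_le _ _
    omega
  · rw [l3]
    exact hlsum
  · intro v hv
    rw [List.mem_map] at hv
    obtain ⟨q, _, rfl⟩ := hv
    exact q.2
  · rw [hμ]
    dsimp only
    rw [a3]
    omega
  · intro X x y hx hy
    have h1 := hG X x y hx hy
    rw [gl_perm hp, gl_append] at h1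
    have h2 : gl G1 X ≤ ∑ v ∈ X, μ v := by
      have := a2 X
      rw [a1 X] at this
      exact this
    rw [s4]
    omega
  · rw [hμ]
    dsimp only
    rw [a3]
    exact even_two_mul _
  · intro v
    show ct n L0 v ≤ μ v
    rw [l2]
    exact hlμ v
  · intro v hv
    obtain ⟨q, hq, hs⟩ := (hZc v).1 hv
    rw [hZ0, mem_filter] at hq
    exact Finset.sum_eq_zero_iff.1 hq.2 v (mem_comp.2 hs)
  · intro m hm1 hm2 hm3 X hX hX1
    change c' X = 0 at hX
    have hpos : 0 < ∑ v ∈ X, m v := by omega
    obtain ⟨v, hvX, hv⟩ : ∃ v ∈ X, 0 < m v := by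
      by_contra hno
      push Not at hno
      have : ∑ v ∈ X, m v = 0 := Finset.sum_eq_zero fun v hv => by
        have := hno v hv
        omega
      omega
    have hKX : comp c' v ⊆ X := CNT.comp_sub hX hvX
    have hK1 : ∑ w ∈ comp c' v, m w ≤ 1 := by
      rw [← hX1]
      exact Finset.sum_le_sum_of_subset hKX
    by_cases hq : ∃ q ∈ Q, Same c' v q
    · obtain ⟨q, hqQ, hsq⟩ := hq
      have hK : comp c' v = comp c' q := comp_eq hsq
      by_cases h0 : ∑ w ∈ comp c' q, μ w = 0
      · have h1 : m v = 0 := hm3 v ((hZc v).2 ⟨q, by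
          rw [hZ0, mem_filter]
          exact ⟨hqQ, h0⟩, hsq.symm⟩)
        omega
      · have hKc : cE n (sml es) (comp c' q) + gl G0 (comp c' q) = 0 := by
          rw [← hc']
          exact hIc'.comp q
        have h1 := hone _ hKc
        rw [a1] at h1
        have h1' : ∑ w ∈ comp c' q, μ w ≠ 1 := h1
        have h2 := hlK q hqQ
        have h3 : min 2 (∑ w ∈ comp c' q, μ w) = 2 := by omega
        rw [h3] at h2
        have h4 : ∑ w ∈ comp c' q, l w ≤ ∑ w ∈ comp c' q, m w := by
          refine Finset.sum_le_sum fun w _ => ?_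
          have h5 := hm2 w
          change ct n L0 w ≤ m w at h5
          rwa [l2] at h5
        rw [hK] at hK1
        omega
    · push Not at hq
      have hKc0 : c' (comp c' v) = 0 := hIc'.comp v
      have hKc : cE n (sml es) (comp c' v) = 0 := by
        have := hc' (comp c' v)
        omega
      have hsub : comp (cE n (sml es)) v ⊆ comp c' v := CNT.comp_sub hKc (self_mem_comp v)
      obtain ⟨𝓕, f1, f2, f3⟩ := hPx v (by
        intro p hp hsame
        exact hq p (hQP hp) (mem_comp.1 (hsub (mem_comp.2 hsame))))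
      obtain ⟨-, -, -, b4⟩ := hHDS n (es ++ edg (mapF G0)) M G
      have h1 := b4 (comp c' v) 𝓕 m hm1 (fun A hA => (f1 A hA).trans hsub) f2
      have h2 : ∑ A ∈ 𝓕, (RE n M A - cE n (es ++ edg (mapF G0)) A) =
          ∑ A ∈ 𝓕, (RE n M A - cE n es A) := by
        refine Finset.sum_congr rfl fun A hA => ?_
        rw [s4]
        have h3 : gl G0 A = 0 := by
          refine gl_eq_zero G0 fun w hw hwA => ?_
          exact hq w (hQend w hw) (mem_comp.1 (hsub (f1 A hA hwA)))
        rw [h3, Nat.add_zero]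
      rw [h2] at h1
      omega

end Pool.AUGS
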