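import Pool.Agent.Work.MP_2183d4_sm.Interface

/-! # Block CTR: contraction of tight sets -/

set_option autoImplicit false

namespace Pool.AUGS

open Finset Pool.Agent.Work.MP_2183d4_lc_66 Pool.Agent.Work.MP_2183d4_add

section
variable {V E : Type} [Fintype V] [DecidableEq V] [Fintype E]
variable {H : E → Finset V} {m : V → ℕ} {R : Finset V → ℕ}

/-- A dangerous set containing half-edges can be made not to cross a tight set. -/
theorem CTR_saturate (hrq : Rq R) (hfe : ∀ X, R X ≤ F H m X) {T X : Finset V}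
    (hT : F H m T ≤ R T) (hX : F H m X ≤ R X + 1) :
    ∃ Y, F H m Y ≤ R Y + 1 ∧ (∀ v ∈ X, 0 < m v → v ∈ Y) ∧ (T ⊆ Y ∨ Disjoint T Y) := by
  rcases hrq.skew X T with hs | hs
  · refine ⟨X ∪ T, ?_, fun v hv _ => mem_union_left _ hv, Or.inl subset_union_right⟩
    have h1 := F_sub H m X T
    have h2 := hfe (X ∩ T)
    omega
  · have h1 := F_posi H m X T
    have h2 := hfe (X \ T)
    have h3 := hfe (T \ X)
    refine ⟨X \ T, by omega, fun v hv hm => ?_, Or.inr disjoint_sdiff⟩
    rw [mem_sdiff]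
    refine ⟨hv, fun hvT => ?_⟩
    have h4 : m v ≤ ∑ w ∈ X ∩ T, m w := le_mt (mem_inter.2 ⟨hv, hvT⟩)
    omega

end

theorem stmt_CTR : Stmt_CTR := by
  classical
  intro V E _ _ _ H m R T h A hA hAn
  have tok : ∀ w, 0 < ∑ v ∈ univ.filter (fun v => ctr A v = w), m v →
      ∃ v, ctr A v = w ∧ 0 < m v := by
    intro w hw
    obtain ⟨v, hv, hmv⟩ := exists_pos hw
    exact ⟨v, (mem_filter.1 hv).2, hmv⟩
  have hun : pre (ctr A) univ = univ := by
    ext v
    simp [mem_pre]
  refine ⟨fun X' => ∃ X, T X ∧ ∀ v, 0 < m v →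
    (ctr A v ∈ X' ↔ ∀ w, 0 < m w → ctr A w = ctr A v → w ∈ X), ?_⟩
  refine ⟨h.rq.image _, ?_, ?_, ?_, ?_, ?_, ?_⟩
  · intro X
    rw [F_image]
    exact h.feas _
  · intro X hX
    rw [sum_fib]
    refine h.ones _ ?_
    rintro e he ⟨v, hv, hvX⟩ w hw
    rw [mem_pre] at hvX ⊢
    exact hX e (card_image_le.trans he) ⟨ctr A v, mem_image_of_mem _ hv, hvX⟩ _
      (mem_image_of_mem _ hw)
  · rw [sum_fib, hun]
    exact h.big
  · rintro X' ⟨X, hTX, hX⟩
    have h1 := h.t1 X hTX
    rw [sum_fib, sum_fib, hun]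
    refine ⟨le_trans ?_ h1.1, h1.2⟩
    refine Finset.sum_le_sum_of_ne_zero ?_
    intro v hv hne
    have hmv : 0 < m v := Nat.pos_of_ne_zero hne
    exact (hX v hmv).1 ((mem_pre _ _ _).1 hv) v hmv rfl
  · rintro X' Y' ⟨X, hTX, hX⟩ ⟨Y, hTY, hY⟩ ⟨w, hwX, hwY, hw⟩
    obtain ⟨v, hv, hmv⟩ := tok w hw
    have h1 : v ∈ X := (hX v hmv).1 (by rw [hv]; exact hwX) v hmv rfl
    have h2 : v ∈ Y := (hY v hmv).1 (by rw [hv]; exact hwY) v hmv rfl
    have h3 := h.t2 X Y hTX hTY ⟨v, h1, h2, hmv⟩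
    intro w' hw'
    obtain ⟨v', hv', hmv'⟩ := tok w' hw'
    rw [← hv', hX v' hmv', hY v' hmv']
    exact ⟨fun k u hu hu' => (h3 u hu).1 (k u hu hu'), fun k u hu hu' => (h3 u hu).2 (k u hu hu')⟩
  · intro u' v' hu' hv' huv
    by_cases hc : ∃ u v, ctr A u = u' ∧ ctr A v = v' ∧ 0 < m u ∧ 0 < m v ∧
        ∃ X : Finset V, u ∈ X ∧ v ∈ X ∧ F H m X ≤ R X + 1
    · obtain ⟨u, v, hu, hv, hmu, hmv, X, h1, h2, h3⟩ := hc
      obtain ⟨Y, hY, hYX, hYT⟩ := CTR_saturate h.rq h.feas hA h3
      refine Or.inl ⟨Y.image (ctr A), ?_, ?_, ?_⟩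
      · rw [← hu]
        exact mem_image_of_mem _ (hYX u h1 hmu)
      · rw [← hv]
        exact mem_image_of_mem _ (hYX v h2 hmv)
      · rw [F_image, pre_image hYT]
        exact hY
    · by_cases hn : u' = none ∧ v' = none
      · obtain ⟨hu, hv⟩ := hn
        obtain ⟨a, ha⟩ := hAn
        have h1 : (none : Option {v : V // v ∉ A}) ∈ A.image (ctr A) := by
          rw [← ctr_mem ha]
          exact mem_image_of_mem _ ha
        refine Or.inl ⟨A.image (ctr A), ?_, ?_, ?_⟩
        · rw [hu]; exact h1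
        · rw [hv]; exact h1
        · rw [F_image, pre_image (Or.inl (subset_refl A))]
          omega
      · have key : ∀ u v, ctr A u = u' → ctr A v = v' → 0 < m u → 0 < m v →
            ∃ X, T X ∧ u ∈ X ∧ v ∈ X := by
          intro u v hu hv hmu hmv
          have h1 : u = v → 2 ≤ m u := by
            rintro rfl
            have e : u' = v' := hu.symm.trans hv
            have huA : u ∉ A := by
              intro huA
              apply hn
              rw [ctr_mem huA] at hu hv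
              exact ⟨hu.symm, hv.symm⟩
            have h2 : univ.filter (fun v => ctr A v = u') = {u} := by
              ext v
              rw [mem_filter, mem_singleton]
              constructor
              · rintro ⟨_, hv2⟩
                exact ctr_inj huA (hv2.trans hu.symm)
              · rintro rfl
                exact ⟨mem_univ _, hu⟩
            have h3 := huv e
            rw [h2, Finset.sum_singleton] at h3
            exact h3
          rcases h.pair u v hmu hmv h1 with ⟨X, k1, k2, k3⟩ | ⟨X, k1, k2, k3⟩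
          · exact absurd ⟨u, v, hu, hv, hmu, hmv, X, k1, k2, k3⟩ hc
          · exact ⟨X, k1, k2, k3⟩
        obtain ⟨u0, hu0, hmu0⟩ := tok u' hu'
        obtain ⟨v0, hv0, hmv0⟩ := tok v' hv'
        obtain ⟨X0, hT0, hu0X, hv0X⟩ := key u0 v0 hu0 hv0 hmu0 hmv0
        refine Or.inr ⟨univ.filter (fun w' => ∀ w, 0 < m w → ctr A w = w' → w ∈ X0),
          ⟨X0, hT0, ?_⟩, ?_, ?_⟩
        · intro v _
          rw [mem_filter]
          exact ⟨fun k => k.2, fun k => ⟨mem_univ _, k⟩⟩
        · rw [mem_filter]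
          refine ⟨mem_univ _, fun w hw hwu => ?_⟩
          obtain ⟨X1, hT1, hwX, hvX⟩ := key w v0 hwu hv0 hw hmv0
          exact (h.t2 X1 X0 hT1 hT0 ⟨v0, hvX, hv0X, hmv0⟩ w hw).1 hwX
        · rw [mem_filter]
          refine ⟨mem_univ _, fun w hw hwv => ?_⟩
          obtain ⟨X1, hT1, huX, hwX⟩ := key u0 w hu0 hwv hmu0 hw
          exact (h.t2 X1 X0 hT1 hT0 ⟨u0, huX, hu0X, hmu0⟩ w hw).1 hwX

end Pool.AUGS
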