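import Pool.Agent.Work.MP_2183d4_sm.Interface2
import Pool.Agent.Work.MP_2183d4_pt.B_SCF
import Pool.Agent.Work.MP_2183d4_pt.B_SFM

/-! # Block FEA (helper72): the feasibility check for half-edges -/

set_option autoImplicit false

namespace Pool.AUGS

open Finset Pool.AUG Pool.AUG.Alg Pool.AUGS.Alg

theorem stmt_FEA (hGEB : Stmt_GEB) : Stmt_FEA := by
  intro n es M L hV hS hL
  have hconv : ∀ s : ℕ → Bool,
      cutB es s = cE n es (univ.filter fun v : Fin n => s v.val = true) := by
    intro s
    exact Pool.AUG.SCF.cutB_congr fun e he v hv => by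
      rw [Pool.AUG.SCF.sF_lt _ (hV e he v hv)]
      simp
  have hcompl : ∀ X : Finset (Fin n), cE n es Xᶜ = cE n es X := by
    intro X
    show cutB es (sF n Xᶜ) = cutB es (sF n X)
    rw [← Pool.AUG.SCF.cutB_compl (sF n X)]
    exact Pool.AUG.SCF.cutB_congr fun e he v hv => by
      rw [Pool.AUG.SCF.sF_lt _ (hV e he v hv), Pool.AUG.SCF.sF_lt _ (hV e he v hv)]
      simp
  have hall : ∀ e ∈ es ++ L.map (fun v => [v, n]), ∀ v ∈ e, v < n + 1 := by
    intro e he v hv
    rw [List.mem_append, List.mem_map] at he
    rcases he with he | ⟨w, hw, rfl⟩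
    · exact (hV e he v hv).trans (Nat.lt_succ_self n)
    · simp only [List.mem_cons, List.not_mem_nil, or_false] at hv
      rcases hv with rfl | rfl
      · exact (hL _ hw).trans (Nat.lt_succ_self n)
      · exact Nat.lt_succ_self _
  unfold feaB
  rw [SFM.all2_iff]
  constructor
  · intro h X x y hx hy
    have hxy : x ≠ y := fun h' => hy (h' ▸ hx)
    have h0 := h x y
    rw [Bool.or_eq_true, decide_eq_true_iff] at h0
    have h1 := (hGEB (n + 1) _ (rq M x y) x y hall (x.2.trans (Nat.lt_succ_self n))
      (y.2.trans (Nat.lt_succ_self n))).1 (h0.resolve_left fun h' => hxy (Fin.ext h'))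
      (sF n X) ((SFM.sF_val _ X x).2 hx)
      (by
        by_contra h2
        exact hy ((SFM.sF_val _ X y).1 (by simpa using h2)))
    rw [SFM.cutB_append, SFM.cutB_half, SFM.sF_n,
      SFM.countP_sum n L hL (fun v => decide (sF n X v ≠ false)) X ?_] at h1
    · exact h1
    · intro v
      rw [← SFM.sF_val]
      simp
  · intro h x y
    rw [Bool.or_eq_true, decide_eq_true_iff]
    right
    rw [hGEB (n + 1) _ (rq M x y) x y hall (x.2.trans (Nat.lt_succ_self n))
      (y.2.trans (Nat.lt_succ_self n))]
    intro s hx hy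
    rw [SFM.cutB_append, SFM.cutB_half, hconv s]
    cases hn : s n
    · have h1 := h (univ.filter fun v : Fin n => s v.val = true) x y (by simp [hx]) (by simp [hy])
      rw [SFM.countP_sum n L hL (fun v => decide (s v ≠ false))
        (univ.filter fun v : Fin n => s v.val = true) (by intro v; simp)]
      exact h1
    · have h1 := h (univ.filter fun v : Fin n => s v.val = true)ᶜ y x (by simp [hy]) (by simp [hx])
      rw [SFM.countP_sum n L hL (fun v => decide (s v ≠ true))
        (univ.filter fun v : Fin n => s v.val = true)ᶜ (by intro v; simp)]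
      rw [hcompl, ← hS] at h1
      exact h1

end Pool.AUGS
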