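import Pool.Agent.Work.MP_2183d4_sm.Interface2

/-! # Block FLO: the rounds of the flow algorithm -/

set_option autoImplicit false

namespace Pool.AUGS

open Finset Pool.AUG Pool.AUG.Alg Pool.AUGS.Alg

namespace FLO

/-- The state after `j` rounds. -/
def st (A : List (ℕ × ℕ)) (x y j : ℕ) : Bool × List (ℕ × ℕ) :=
  (List.range j).foldl (fun s _ => rnd x y s) (true, A)

theorem st_succ (A : List (ℕ × ℕ)) (x y j : ℕ) : st A x y (j + 1) = rnd x y (st A x y j) := by
  unfold st
  rw [List.range_succ, List.foldl_append]
  rfl

theorem rnd_true {x y : ℕ} {s : Bool × List (ℕ × ℕ)} (h : s.1 = true)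
    (h2 : memB x (lay s.2 y s.2.length) = true) : rnd x y s = (true, (aug s.2 x y).2) := by
  unfold rnd
  rw [h, h2]
  rfl

theorem rnd_false {x y : ℕ} {s : Bool × List (ℕ × ℕ)}
    (h : s.1 = false ∨ memB x (lay s.2 y s.2.length) = false) : (rnd x y s).1 = false := by
  unfold rnd
  rcases h with h | h
  · rw [h]
    rfl
  · rw [h, Bool.and_false]
    rfl

theorem inv (hLAY : Stmt_LAY) (hAUG : Stmt_AUG) (A : List (ℕ × ℕ)) (x y : ℕ) : ∀ j,
    (st A x y j).1 = true → ∀ t : ℕ → Bool, t x = true → t y = false →
      dout (st A x y j).2 t + j = dout A t := by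
  intro j
  induction j with
  | zero => intro _ t _ _; rfl
  | succ j ih =>
    intro h t hx hy
    rw [st_succ] at h ⊢
    by_cases h1 : (st A x y j).1 = true
    · by_cases h2 : memB x (lay (st A x y j).2 y (st A x y j).2.length) = true
      · rw [rnd_true h1 h2]
        have h3 := ((hLAY (st A x y j).2 y).2.2.1 x _).1 h2
        have h4 := (hAUG (st A x y j).2 x y h3).2 t hx hy
        have h5 := ih h1 t hx hy
        show dout (aug (st A x y j).2 x y).2 t + (j + 1) = dout A t
        omega
      · rw [Bool.not_eq_true] at h2
        rw [rnd_false (Or.inr h2)] at h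
        exact absurd h (by decide)
    · rw [Bool.not_eq_true] at h1
      rw [rnd_false (Or.inl h1)] at h
      exact absurd h (by decide)

theorem fin (hLAY : Stmt_LAY) (hAUG : Stmt_AUG) (A : List (ℕ × ℕ)) (x y : ℕ) : ∀ j,
    (st A x y j).1 = true ∨ ∃ t : ℕ → Bool, t x = true ∧ t y = false ∧ dout A t < j := by
  intro j
  induction j with
  | zero => exact Or.inl rfl
  | succ j ih =>
    rcases ih with h1 | ⟨t, h1, h2, h3⟩
    · by_cases h2 : memB x (lay (st A x y j).2 y (st A x y j).2.length) = true
      · left
        rw [st_succ, rnd_true h1 h2]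
      · right
        rw [Bool.not_eq_true] at h2
        obtain ⟨l0, l1, l2, l3⟩ := hLAY (st A x y j).2 y
        have hyl : ∀ k, y ∈ lay (st A x y j).2 y k := by
          intro k
          induction k with
          | zero => exact (l0 y).2 rfl
          | succ k ihk => exact (l1 y k).2 (Or.inl ihk)
        refine ⟨fun z => !(memB z (lay (st A x y j).2 y (st A x y j).2.length)), ?_, ?_, ?_⟩
        · show (!(memB x (lay (st A x y j).2 y (st A x y j).2.length))) = true
          rw [h2]
          rfl
        · show (!(memB y (lay (st A x y j).2 y (st A x y j).2.length))) = false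
          rw [(l2 y _).2 (hyl _)]
          rfl
        · have h5 := inv hLAY hAUG A x y j h1
            (fun z => !(memB z (lay (st A x y j).2 y (st A x y j).2.length)))
            (by
              show (!(memB x (lay (st A x y j).2 y (st A x y j).2.length))) = true
              rw [h2]
              rfl)
            (by
              show (!(memB y (lay (st A x y j).2 y (st A x y j).2.length))) = false
              rw [(l2 y _).2 (hyl _)]
              rfl)
          have h6 : dout (st A x y j).2
              (fun z => !(memB z (lay (st A x y j).2 y (st A x y j).2.length))) = 0 := by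
            unfold dout
            rw [List.countP_eq_zero]
            rintro ⟨a, b⟩ hab
            rw [Bool.and_eq_true, not_and]
            intro ha hb
            rw [Bool.not_not] at hb
            have h7 := l3 a b hab ((l2 b _).1 hb)
            rw [← l2 a] at h7
            change (!(memB a (lay (st A x y j).2 y (st A x y j).2.length))) = true at ha
            rw [h7] at ha
            exact absurd ha (by decide)
          omega
    · exact Or.inr ⟨t, h1, h2, by omega⟩

end FLO

theorem stmt_FLO : Stmt_LAY → Stmt_AUG → Stmt_FLO := by
  intro hLAY hAUG A T x y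
  constructor
  · intro h t hx hy
    have h1 := FLO.inv hLAY hAUG A x y T h t hx hy
    omega
  · intro h
    rcases FLO.fin hLAY hAUG A x y T with h1 | ⟨t, h1, h2, h3⟩
    · exact h1
    · have := h t h1 h2
      omega

end Pool.AUGS
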