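import Pool.Agent.Work.MP_2183d4_sm.Interface3

/-!
# Block FNA: the structural theorem
-/

set_option autoImplicit false
set_option linter.unusedSectionVars false

namespace Pool.AUGS

open Finset Pool.Agent.Work.MP_2183d4_lc_66 Pool.Agent.Work.MP_2183d4_add

namespace FNA

section
variable {V E : Type} [Fintype V] [DecidableEq V] [Fintype E]

theorem defic_univ (H : E → Finset V) (r : V → V → ℕ) : St.defic H r univ = alpha H r := by
  unfold St.defic alpha
  apply le_antisymm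
  · apply Finset.sup_le
    intro 𝓕 hF
    rw [mem_filter] at hF
    exact Finset.le_sup (f := fun 𝓕 : Finset (Finset V) => ∑ X ∈ 𝓕, (req r X - cut H X))
      (mem_filter.2 ⟨mem_univ _, hF.2.2⟩)
  · apply Finset.sup_le
    intro 𝓕 hF
    rw [mem_filter] at hF
    exact Finset.le_sup (f := fun 𝓕 : Finset (Finset V) => ∑ X ∈ 𝓕, (St.req r X - St.cut H X))
      (mem_filter.2 ⟨mem_univ _, fun A _ => subset_univ A, hF.2⟩)

theorem sc_iff (H : E → Finset V) (C : Finset V) : St.SmallComp H C ↔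
    C.Nonempty ∧ Cl3 H C ∧ ∀ D : Finset V, D ⊂ C → D.Nonempty → ¬ Cl3 H D := by
  constructor
  · rintro ⟨h1, h2, h3⟩
    refine ⟨h1, fun e he hv v hv' => h2 e he hv hv', fun D hD hne hcl => ?_⟩
    obtain ⟨e, he, hv, hn⟩ := h3 D hD hne
    exact hn (fun v hv' => hcl e he hv v hv')
  · rintro ⟨h1, h2, h3⟩
    refine ⟨h1, fun e he hv v hv' => h2 e he hv v hv', fun D hD hne => ?_⟩
    by_contra hc
    apply h3 D hD hne
    intro e he hv v hv'
    by_contra hv''
    exact hc ⟨e, he, hv, fun hs => hv'' (hs hv')⟩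

theorem ones_eq (H : E → Finset V) (m : V → ℕ) : ones3 H m = St.ones H m := by
  classical
  unfold ones3 St.ones
  apply congrArg Finset.card
  ext C
  rw [mem_filter, mem_filter, sc_iff]
  tauto

theorem defic_le (H : E → Finset V) (r : V → V → ℕ) (m : V → ℕ) (hm : St.Enough H r m)
    (C : Finset V) : St.defic H r C ≤ ∑ v ∈ C, m v := by
  unfold St.defic
  apply Finset.sup_le
  intro 𝓕 hF
  rw [mem_filter] at hF
  obtain ⟨-, h1, h2⟩ := hF
  have hsum : ∑ v ∈ 𝓕.biUnion id, m v = ∑ X ∈ 𝓕, ∑ v ∈ X, m v := by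
    rw [Finset.sum_biUnion]
    · rfl
    · intro A hA B hB hAB
      exact h2 A (by simpa using hA) B (by simpa using hB) hAB
  calc ∑ X ∈ 𝓕, (St.req r X - St.cut H X) ≤ ∑ X ∈ 𝓕, ∑ v ∈ X, m v := by
        apply Finset.sum_le_sum
        intro X _
        have := hm X
        omega
    _ = ∑ v ∈ 𝓕.biUnion id, m v := hsum.symm
    _ ≤ ∑ v ∈ C, m v := by
        apply Finset.sum_le_sum_of_subset
        intro v hv
        rw [mem_biUnion] at hv
        obtain ⟨A, hA, hv⟩ := hv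
        exact h1 A hA hv

theorem upper (hGRE : Stmt_GRE) (hADT : Stmt_ADT) (H : E → Finset V) (r : V → V → ℕ)
    (hs : ∀ x y, r x y = r y x) (m : V → ℕ) (hm : St.Enough H r m) :
    ∃ n ∈ Sizes H r, n ≤ (∑ v, m v + St.ones H m + 1) / 2 := by
  obtain ⟨m', h1, h2, h3, h4⟩ := hADT V E H m
  have hR : Rq (req r) := ⟨REQ.req_empty r, REQ.req_compl r hs, REQ.req_union r⟩
  have hfe : ∀ X, req r X ≤ F H m' X := by
    intro X
    have h5 : req r X ≤ cut H X + ∑ v ∈ X, m v := hm X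
    have h6 : ∑ v ∈ X, m v ≤ ∑ v ∈ X, m' v := Finset.sum_le_sum fun v _ => h1 v
    unfold F
    omega
  obtain ⟨n, g, hn, hg⟩ := hGRE V E H m' (req r) hR hfe h3 h2
  obtain ⟨n', hn', h7⟩ := mem_sizes_of H r g hg
  refine ⟨n', h7, ?_⟩
  rw [ones_eq] at h4
  omega

end

end FNA

theorem p_FNA (hGRE : Stmt_GRE) (hADT : Stmt_ADT) : Stmt_FNA := by
  classical
  intro V E _ _ _ H r hs
  obtain ⟨m0, hm0, hsum0, -⟩ := stmt_DEG V E H r hs
  obtain ⟨n0, hn0, -⟩ := FNA.upper hGRE hADT H r hs m0 hm0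
  have hne : (Sizes H r).Nonempty := ⟨n0, hn0⟩
  have hd := FNA.defic_univ H r
  have hup : ∀ m, St.Enough H r m →
      sInf (Sizes H r) ≤ (∑ v, m v + St.ones H m + 1) / 2 := by
    intro m hm
    obtain ⟨n, hn, hle⟩ := FNA.upper hGRE hADT H r hs m hm
    exact le_trans (Nat.sInf_le hn) hle
  have hlb : (St.defic H r univ + 1) / 2 ≤ sInf (Sizes H r) := by
    have := lb H r (Nat.sInf_mem hne)
    omega
  refine ⟨sInf (Sizes H r), ⟨Nat.sInf_mem hne, fun n hn => Nat.sInf_le hn⟩, hlb, hup,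
    ⟨m0, hm0, by rw [hsum0, hd]⟩, ?_⟩
  intro hC
  have h0 : St.ones H m0 = 0 := by
    unfold St.ones
    rw [Finset.card_eq_zero, Finset.filter_eq_empty_iff]
    rintro C - ⟨h1, h2⟩
    have h3 := hC C h1
    have h4 := FNA.defic_le H r m0 hm0 C
    omega
  have h1 := hup m0 hm0
  rw [h0, hsum0] at h1
  omega

end Pool.AUGS
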