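import Pool.Agent.Work.MP_2183d4_sm.Interface2
import Pool.Agent.Work.MP_2183d4_pt.B_SGR

/-!
# Block FXP
-/

set_option autoImplicit false

namespace Pool.AUGS

open Finset Pool.AUG Pool.AUG.Alg Pool.AUGS.Alg

namespace FXP

theorem any_iff (k : ℕ) :
    (List.range (k + 1)).any (fun t => decide (t + t = k)) = true ↔ Even k := by
  rw [List.any_eq_true]
  constructor
  · rintro ⟨t, _, ht⟩
    exact ⟨t, (of_decide_eq_true ht).symm⟩
  · rintro ⟨t, ht⟩
    exact ⟨t, List.mem_range.2 (by omega), decide_eq_true ht.symm⟩

theorem fixp_even {L : List ℕ} (h : Even L.length) : fixp L = L := by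
  unfold fixp
  rw [(any_iff L.length).2 h]
  rfl

theorem fixp_odd {L : List ℕ} (h : ¬ Even L.length) : fixp L = L.headD 0 :: L := by
  unfold fixp
  have h1 : (List.range (L.length + 1)).any (fun t => decide (t + t = L.length)) = false := by
    by_contra hc
    exact h ((any_iff L.length).1 (by simpa using hc))
  rw [h1]
  rfl

end FXP

theorem p_FXP : Stmt_FXP := by
  intro n es L hL hno
  by_cases he : Even L.length
  · rw [FXP.fixp_even he]
    exact ⟨he, hL, fun v => le_rfl, hno, fun t ht _ => ht⟩
  · rw [FXP.fixp_odd he]
    cases L with
    | nil => exact absurd (by simp) he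
    | cons a L' =>
      simp only [List.headD_cons]
      have ha : a < n := hL a (by simp)
      have hct : ∀ v : Fin n, ct n (a :: a :: L') v =
          ct n (a :: L') v + if v = (⟨a, ha⟩ : Fin n) then 1 else 0 := by
        intro v
        unfold ct
        rw [List.count_cons (a := v.val) (b := a) (l := a :: L')]
        congr 1
        by_cases h : v = ⟨a, ha⟩
        · subst h; simp
        · have h' : ¬ (a = v.val) := fun h' => h (Fin.ext h'.symm)
          simp [h, h']
      refine ⟨?_, ?_, ?_, ?_, ?_⟩
      · rw [List.length_cons]
        exact (Nat.not_even_iff_odd.1 he).add_one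
      · intro v hv
        rcases List.mem_cons.1 hv with rfl | hv
        · exact ha
        · exact hL v hv
      · intro v
        rw [hct]
        exact Nat.le_add_right _ _
      · intro X hX
        have h1 := hno X hX
        simp only [hct]
        rw [Finset.sum_add_distrib, Finset.sum_ite_eq']
        by_cases hmem : (⟨a, ha⟩ : Fin n) ∈ X
        · rw [if_pos hmem]
          have h2 : 1 ≤ ct n (a :: L') ⟨a, ha⟩ := by
            unfold ct
            simp
          have h3 : ct n (a :: L') ⟨a, ha⟩ ≤ ∑ v ∈ X, ct n (a :: L') v :=
            Finset.single_le_sum (f := fun v => ct n (a :: L') v) (fun v _ => Nat.zero_le _) hmem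
          omega
        · rw [if_neg hmem]
          simpa using h1
      · intro t ht hev
        rw [List.length_cons]
        rcases Nat.lt_or_ge (a :: L').length t with h | h
        · exact h
        · have : t = (a :: L').length := le_antisymm h ht
          rw [this] at hev
          exact absurd hev he

end Pool.AUGS
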