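import Pool.Agent.Work.MP_2183d4_sm.Interface2
import Pool.Agent.Work.MP_2183d4_pt.B_SCF

/-! # Block GEB (helper72): local edge-connectivity by flows -/

set_option autoImplicit false

namespace Pool.AUGS

open Finset Pool.AUG Pool.AUG.Alg Pool.AUGS.Alg

theorem stmt_GEB (hFLO : Stmt_FLO) (hNET : Stmt_NET) : Stmt_GEB := by
  intro B es T x y hB hx hy
  obtain ⟨h1, h2⟩ := hNET B es hB
  unfold geB
  rw [hFLO (arcs B es) T x y]
  constructor
  · intro h s hsx hsy
    obtain ⟨t, ht, hle⟩ := h2 s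
    exact (h t (by rw [ht x hx]; exact hsx) (by rw [ht y hy]; exact hsy)).trans hle
  · intro h s hsx hsy
    exact (h s hsx hsy).trans (h1 s)

end Pool.AUGS
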