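import Pool.Agent.Work.MP_2183d4_sm.Interface2
import Pool.Agent.Work.MP_2183d4_pt.B_STR

set_option autoImplicit false

/-! # Block GOD: the test `goodG` -/

namespace Pool.AUGS

open Finset Pool.AUG Pool.AUG.Alg Pool.AUGS.Alg

theorem stmt_GOD (hFEA : Stmt_FEA) (hSMF : Stmt_SMF) : Stmt_GOD := by
  obtain ⟨-, -, -, h4, h5, -⟩ := hSMF
  intro I hV hSy
  refine ⟨fun G => ?_, fun G hG => ?_⟩
  · have hall : ((mapF G).all fun p => decide (p.1 < I.1) && decide (p.2 < I.1)) = true := by
      rw [List.all_eq_true]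
      intro p hp
      unfold mapF at hp
      rw [List.mem_map] at hp
      obtain ⟨e, -, rfl⟩ := hp
      simp
    unfold goodG
    rw [hall, Bool.true_and, hFEA I.1 _ I.2.2 [] (h5 I.1 I.2.1 G hV) hSy (by simp)]
    unfold FeasM Ok
    refine forall_congr' fun X => forall_congr' fun x => forall_congr' fun y =>
      forall_congr' fun _ => forall_congr' fun _ => ?_
    rw [h4 I.1 I.2.1 G X]
    have h0 : ∑ v ∈ X, ct I.1 [] v = 0 := Finset.sum_eq_zero fun v _ => by simp [ct]
    rw [h0, Nat.add_zero]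
  · unfold goodG at hG
    rw [Bool.and_eq_true, List.all_eq_true] at hG
    obtain ⟨F, hF⟩ := STR.exists_mapF (n := I.1) G fun e he => by
      have h1 := hG.1 e he
      rw [Bool.and_eq_true, decide_eq_true_eq, decide_eq_true_eq] at h1
      exact h1
    exact ⟨F, hF.symm⟩

end Pool.AUGS
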