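import Pool.Agent.Work.MP_2183d4_sm.Interface2
import Pool.Agent.Work.MP_2183d4_pt.B_SGR

/-!
# Block GRD: the greedy half-edges
-/

set_option autoImplicit false

namespace Pool.AUGS

open Finset Pool.AUG Pool.AUG.Alg Pool.AUGS.Alg
open Pool.Agent.Work.MP_2183d4_lc_66 (req REQ.req_empty REQ.req_compl REQ.req_union REQ.req_le
  REQ.le_req)
open Pool.Agent.Work.MP_2183d4_add (F Rq)

namespace GRD

theorem ct_append (n : ℕ) (L L' : List ℕ) (v : Fin n) :
    ct n (L ++ L') v = ct n L v + ct n L' v := by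
  unfold ct
  rw [List.count_append]

theorem feas_set {V E : Type} [Fintype V] [DecidableEq V] [Fintype E] {H : E → Finset V}
    {c : Finset V → ℕ} (hH : ∀ X, Pool.Agent.Work.MP_2183d4_lc_66.cut H X = c X)
    {r : V → V → ℕ} {m : V → ℕ} (hm : FeasM c r m) (X : Finset V) : req r X ≤ F H m X := by
  apply REQ.req_le
  intro x hx y hy
  unfold F
  rw [hH]
  exact hm X x y hx hy

end GRD

theorem p_GRD (hRST : Stmt_RST) (hKPT : Stmt_KPT) (hMIN : Stmt_MIN) (hHFM : Stmt_HFM) :
    Stmt_GRD := by
  intro n es M Z L0 μ hVs hSy hL0 hμ hle hZ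
  obtain ⟨hR1, hR2⟩ := hRST n es M Z
  have hRn : ∀ v ∈ rst n es M Z, v < n := fun v hv => (hR1 v hv).1
  have hstart : FeasM (cE n es) (rE n M) (ct n (L0 ++ rst n es M Z)) := by
    intro X x y hx hy
    by_cases hex : ∃ v ∈ X, ¬ ∃ z ∈ Z, conS es z v = true
    · obtain ⟨v, hvX, hv⟩ := hex
      have h1 : rE n M x y ≤ ct n (rst n es M Z) v := hR2 v hv x y
      have h2 : ct n (L0 ++ rst n es M Z) v ≤ ∑ w ∈ X, ct n (L0 ++ rst n es M Z) w :=
        Finset.single_le_sum (f := fun w => ct n (L0 ++ rst n es M Z) w)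
          (fun _ _ => Nat.zero_le _) hvX
      have h3 := GRD.ct_append n L0 (rst n es M Z) v
      omega
    · have h1 := hμ X x y hx hy
      have h2 : ∑ v ∈ X, μ v = 0 := Finset.sum_eq_zero fun v hv =>
        hZ v (by by_contra hc; exact hex ⟨v, hv, hc⟩)
      omega
  obtain ⟨k1, k2, k3⟩ := hKPT n es M L0 (rst n es M Z) hVs hSy hL0 hRn hstart
  have hgrd : grd n es M Z L0 = L0 ++ kpt n es M L0 (rst n es M Z) := rfl
  rw [hgrd]
  generalize hK : kpt n es M L0 (rst n es M Z) = K at k1 k2 k3
  have hall : ∀ v ∈ L0 ++ K, v < n := by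
    intro v hv
    rcases List.mem_append.1 hv with hv | hv
    · exact hL0 v hv
    · exact hRn v (k1 v hv)
  refine ⟨hall, k2, fun v => by rw [GRD.ct_append]; exact Nat.le_add_right _ _, ?_, ?_⟩
  · intro v hv
    have h1 : ct n L0 v = 0 := by
      have h3 := hle v
      have h4 := hZ v hv
      omega
    have h2 : ct n K v = 0 := by
      unfold ct
      rw [List.count_eq_zero]
      intro hmem
      exact (hR1 _ (k1 _ hmem)).2 hv
    rw [GRD.ct_append, h1, h2]
  · obtain ⟨H, hH1, -⟩ := hHFM n es hVs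
    have hRq : Rq (req (rE n M)) :=
      ⟨REQ.req_empty _, REQ.req_compl _ hSy, REQ.req_union _⟩
    have hlk : (fun v => ct n L0 v + ct n K v) = ct n (L0 ++ K) := by
      funext v
      exact (GRD.ct_append n L0 K v).symm
    have hlen : (L0 ++ K).length = ∑ v, (ct n L0 v + ct n K v) := by
      rw [hlk]
      exact (Pool.AUG.SGR.sum_count n (L0 ++ K) hall).symm
    rw [hlen]
    apply hMIN (Fin n) (Fin es.length) H (req (rE n M)) (ct n L0) (ct n K) μ hRq
    · rw [hlk]
      exact GRD.feas_set hH1 k2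
    · rw [hlk]
      intro v hv
      have hvK : v.val ∈ K := by
        unfold ct at hv
        exact List.count_pos_iff.1 hv
      have h3 := k3 v hvK
      unfold FeasM at h3
      push Not at h3
      obtain ⟨X, x, y, hx, hy, hlt⟩ := h3
      have h4 : rE n M x y ≤ cE n es X + ∑ w ∈ X, ct n (L0 ++ K) w := k2 X x y hx hy
      have h5 : rE n M x y ≤ req (rE n M) X := REQ.le_req _ hx hy
      have h6 : ∀ w : Fin n, ct n (L0 ++ K) w ≤
          (ct n (L0 ++ K) w - (if w = v then 1 else 0)) + (if w = v then 1 else 0) := by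
        intro w
        omega
      have h7 : ∑ w ∈ X, ct n (L0 ++ K) w ≤
          ∑ w ∈ X, (ct n (L0 ++ K) w - (if w = v then 1 else 0)) +
            (if v ∈ X then 1 else 0) := by
        refine le_trans (Finset.sum_le_sum fun w _ => h6 w) ?_
        rw [Finset.sum_add_distrib, Finset.sum_ite_eq']
      by_cases hvX : v ∈ X
      · refine ⟨X, hvX, ?_⟩
        rw [if_pos hvX] at h7
        unfold F
        rw [hH1]
        omega
      · rw [if_neg hvX] at h7
        omega
    · exact GRD.feas_set hH1 hμ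
    · exact hle

end Pool.AUGS
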