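import Pool.Agent.Work.MP_2183d4_sm.Interface

/-! # MP_2183d4_lc (small hyperedges), block GRE -/

set_option autoImplicit false

namespace Pool.AUGS

open Finset Pool.Agent.Work.MP_2183d4_lc_66 Pool.Agent.Work.MP_2183d4_add

namespace X_GRE

variable {V : Type} [Fintype V] [DecidableEq V]

omit [Fintype V] in
theorem cl3_addG {E : Type} [Fintype E] (H : E → Finset V) (u v : V) (X : Finset V)
    (hX : Cl3 (addG H (fun _ : Fin 1 => (u, v))) X) : Cl3 H X ∧ (u ∈ X ↔ v ∈ X) := by
  constructor
  · intro e he h
    exact hX (Sum.inl e) he h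
  · have h1 := hX (Sum.inr 0) (by
      have : ({u, v} : Finset V).card ≤ 2 := Finset.card_le_two
      change ({u, v} : Finset V).card ≤ 3
      omega)
    have h2 : addG H (fun _ : Fin 1 => (u, v)) (Sum.inr 0) = {u, v} := rfl
    rw [h2] at h1
    constructor
    · intro hu
      exact h1 ⟨u, by simp, hu⟩ v (by simp)
    · intro hv
      exact h1 ⟨v, by simp, hv⟩ u (by simp)

theorem main (hSTP : Stmt_STP) (R : Finset V → ℕ) (hR : Rq R) (t : ℕ) :
    ∀ (E : Type) [Fintype E] (H : E → Finset V) (m : V → ℕ),
      (∀ X, R X ≤ F H m X) → (∀ X, Cl3 H X → ∑ v ∈ X, m v ≠ 1) → Even (∑ v, m v) →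
      ∑ v, m v = t →
      ∃ (n : ℕ) (g : Fin n → V × V), 2 * n ≤ ∑ v, m v ∧
        ∀ X : Finset V, R X ≤ cut H X + gcut g X := by
  induction t using Nat.strong_induction_on with
  | _ t ih =>
    intro E _ H m hF hW hev ht
    rcases Nat.eq_zero_or_pos (∑ v, m v) with h0 | h0
    · refine ⟨0, fun i => i.elim0, by omega, ?_⟩
      intro X
      have h1 := hF X
      have h2 : ∑ v ∈ X, m v ≤ ∑ v, m v := Finset.sum_le_sum_of_subset (subset_univ X)
      unfold F at h1
      omega
    · obtain ⟨u, v, hu, hv, huv, hd, h3⟩ := hSTP V E H m R hR hF hW hev h0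
      obtain ⟨m', hm1, hm2, hm3⟩ := split H m R hF u v hu hv huv hd
      have hun := hm2 univ
      simp only [mem_univ, if_true] at hun
      obtain ⟨n, g, hn, hg⟩ := ih (∑ w, m' w) (by omega) (E ⊕ Fin 1)
        (addG H (fun _ : Fin 1 => (u, v))) m' hm3 (by
          intro X hX
          obtain ⟨hX1, hX2⟩ := cl3_addG H u v X hX
          have h7 := hW X hX1
          have h8 := hm2 X
          by_cases hux : u ∈ X
          · have hvx := hX2.1 hux
            have h10 := h3 X hX1 hux hvx
            rw [if_pos hux, if_pos hvx] at h8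
            omega
          · have hvx : v ∉ X := fun h => hux (hX2.2 h)
            rw [if_neg hux, if_neg hvx] at h8
            omega) (by
          rw [Nat.even_iff] at hev ⊢
          omega) rfl
      refine ⟨n + 1, Fin.append g (fun _ : Fin 1 => (u, v)), by omega, ?_⟩
      intro X
      have := hg X
      rw [cut_addG] at this
      rw [gcut_append]
      omega

end X_GRE

theorem stmt_GRE (hSTP : Stmt_STP) : Stmt_GRE := by
  intro V E _ _ _ H m R hR hF hW hev
  exact X_GRE.main hSTP R hR _ E H m hF hW hev rfl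

end Pool.AUGS
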