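import Pool.Agent.Work.MP_2183d4_sm.Interface2

/-! # Block HDS: degrees -/

set_option autoImplicit false

namespace Pool.AUGS

open Finset Pool.AUG Pool.AUG.Alg Pool.AUGS.Alg

namespace HDS

variable {V : Type} [Fintype V] [DecidableEq V]

theorem hd_cons (e : V × V) (G : List (V × V)) (C : Finset V) :
    hd (e :: G) C = ((if e.1 ∈ C then 1 else 0) + (if e.2 ∈ C then 1 else 0)) + hd G C := by
  unfold hd
  rw [List.map_cons, List.sum_cons]

theorem hd_sum (G : List (V × V)) (C : Finset V) : hd G C = ∑ v ∈ C, hd G {v} := by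
  induction G with
  | nil => simp [hd]
  | cons e G ih =>
    have h1 : ∀ v ∈ C, hd (e :: G) {v} =
        ((if e.1 = v then 1 else 0) + (if e.2 = v then 1 else 0)) + hd G {v} := by
      intro v _
      rw [hd_cons]
      simp only [Finset.mem_singleton]
    rw [Finset.sum_congr rfl h1, Finset.sum_add_distrib, Finset.sum_add_distrib, hd_cons, ih,
      Finset.sum_ite_eq, Finset.sum_ite_eq]

theorem hd_univ (G : List (V × V)) : hd G univ = 2 * G.length := by
  induction G with
  | nil => simp [hd]
  | cons e G ih =>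
    rw [hd_cons, ih, List.length_cons]
    simp only [Finset.mem_univ, if_true]
    ring

theorem gl_le_hd (G : List (V × V)) (X : Finset V) : gl G X ≤ hd G X := by
  induction G with
  | nil => simp [hd]
  | cons e G ih =>
    rw [hd_cons, gl_cons]
    have h : cr e X ≤ (if e.1 ∈ X then 1 else 0) + (if e.2 ∈ X then 1 else 0) := by
      unfold cr
      by_cases h1 : e.1 ∈ X <;> by_cases h2 : e.2 ∈ X <;> simp [h1, h2]
    omega

end HDS

open HDS in
theorem stmt_HDS : Stmt_HDS := by
  intro n es M G
  refine ⟨hd_sum G, gl_le_hd G, ?_, ?_⟩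
  · rw [← hd_sum, hd_univ]
  · intro C 𝓕 m hm hsub hdis
    have h1 : ∀ A ∈ 𝓕, RE n M A - cE n es A ≤ ∑ v ∈ A, m v := by
      intro A _
      have h2 : RE n M A ≤ cE n es A + ∑ v ∈ A, m v := by
        unfold RE
        refine Finset.sup_le fun z hz => ?_
        rw [Finset.mem_product, Finset.mem_compl] at hz
        exact hm A z.1 z.2 hz.1 hz.2
      omega
    refine (Finset.sum_le_sum h1).trans ?_
    rw [← Finset.sum_biUnion (s := 𝓕) (t := fun A => A) (fun A hA B hB hAB => hdis A hA B hB hAB)]
    refine Finset.sum_le_sum_of_subset ?_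
    intro v hv
    obtain ⟨A, hA, hvA⟩ := Finset.mem_biUnion.1 hv
    exact hsub A hA hvA

end Pool.AUGS
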