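import Pool.Agent.Work.MP_2183d4_sm.Interface2
import Pool.Agent.Work.MP_2183d4_pt.B_SHF

/-!
# MP_2183d4_lc (small hyperedges): block HFM
-/

set_option autoImplicit false

namespace Pool.AUGS

open Finset Pool.AUG Pool.AUG.Alg Pool.AUGS.Alg

namespace HFM

theorem cross {n : ℕ} {e : List ℕ} (he : ∀ v ∈ e, v < n) (X : Finset (Fin n)) :
    (e.any (sF n X) && e.any fun v => !(sF n X v)) = true ↔
      (∃ v : Fin n, v.val ∈ e ∧ v ∈ X) ∧ ∃ v : Fin n, v.val ∈ e ∧ v ∉ X := by
  simp only [Bool.and_eq_true, List.any_eq_true]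
  constructor
  · rintro ⟨⟨v, hv, hvX⟩, ⟨w, hw, hwX⟩⟩
    have hvn := he v hv
    have hwn := he w hw
    refine ⟨⟨⟨v, hvn⟩, hv, ?_⟩, ⟨⟨w, hwn⟩, hw, ?_⟩⟩
    · simpa [sF, hvn] using hvX
    · simpa [sF, hwn] using hwX
  · rintro ⟨⟨v, hv, hvX⟩, ⟨w, hw, hwX⟩⟩
    refine ⟨⟨v.val, hv, ?_⟩, ⟨w.val, hw, ?_⟩⟩
    · simp [sF, hvX]
    · simp [sF, hwX]

theorem card {n : ℕ} {e : List ℕ} (he : ∀ v ∈ e, v < n) :
    (univ.filter fun v : Fin n => v.val ∈ e).card = e.toFinset.card := by
  rw [← Finset.card_map Fin.valEmbedding]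
  congr 1
  ext v
  simp only [mem_map, mem_filter, mem_univ, true_and, Fin.valEmbedding_apply, List.mem_toFinset]
  constructor
  · rintro ⟨w, hw, rfl⟩
    exact hw
  · intro hv
    exact ⟨⟨v, he v hv⟩, hv, rfl⟩

end HFM

theorem stmt_HFM : Stmt_SMF → Stmt_HFM := by
  classical
  intro hS n es hV
  refine ⟨fun i => univ.filter fun v : Fin n => v.val ∈ es.get i, ?_, ?_⟩
  · intro X
    unfold Pool.Agent.Work.MP_2183d4_lc_66.cut cE cutB
    rw [← SHF.card_eq]
    apply congrArg
    ext i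
    simp only [mem_filter, mem_univ, true_and]
    rw [HFM.cross (fun v hv => hV _ (List.get_mem _ _) v hv) X]
  · intro X
    have key : ∀ i : Fin es.length,
        (univ.filter fun v : Fin n => v.val ∈ es.get i).card = (ddp (es.get i)).length := by
      intro i
      rw [HFM.card (fun v hv => hV _ (List.get_mem _ _) v hv), hS.1]
    unfold cE cutB
    rw [List.countP_eq_zero]
    constructor
    · intro h e he
      unfold sml at he
      rw [List.mem_filter] at he
      obtain ⟨he1, he2⟩ := he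
      have he3 : (ddp e).length ≤ 3 := by simpa using he2
      obtain ⟨i, hi⟩ := List.get_of_mem he1
      rw [HFM.cross (fun v hv => hV e he1 v hv) X]
      rintro ⟨⟨v, hv, hvX⟩, ⟨w, hw, hwX⟩⟩
      apply hwX
      refine h i ?_ ⟨v, ?_, hvX⟩ w ?_
      · rw [key i, hi]; exact he3
      · simp only [mem_filter, mem_univ, true_and]; rw [hi]; exact hv
      · simp only [mem_filter, mem_univ, true_and]; rw [hi]; exact hw
    · intro h i hi
      rintro ⟨v, hv, hvX⟩ w hw
      simp only [mem_filter, mem_univ, true_and] at hv hw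
      by_contra hwX
      have hi' : (ddp (es.get i)).length ≤ 3 := by rw [← key i]; exact hi
      have hm : es.get i ∈ sml es := by
        unfold sml
        rw [List.mem_filter]
        exact ⟨List.get_mem _ _, by simpa using hi'⟩
      apply h _ hm
      rw [HFM.cross (fun v hv => hV _ (List.get_mem _ _) v hv) X]
      exact ⟨⟨v, hv, hvX⟩, ⟨w, hw, hwX⟩⟩

end Pool.AUGS
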