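import Pool.Agent.Work.MP_2183d4_sm.Interface2

/-!
# Block KPT: the greedy algorithm gives a minimal set of further half-edges
-/

set_option autoImplicit false

namespace Pool.AUGS.KPT

open Finset Pool.AUG Pool.AUG.Alg Pool.AUGS.Alg

theorem feas_mono {V : Type} [Fintype V] [DecidableEq V] {c : Finset V → ℕ} {r : V → V → ℕ}
    {m m' : V → ℕ} (h : ∀ v, m v ≤ m' v) (hm : FeasM c r m) : FeasM c r m' := by
  intro X x y hx hy
  exact le_trans (hm X x y hx hy)
    (Nat.add_le_add_left (Finset.sum_le_sum fun v _ => h v) _)

/-- The list of half-edges kept after `j` steps. -/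
def kp (n : ℕ) (es M : List (List ℕ)) (L0 R : List ℕ) (j : ℕ) : List ℕ :=
  (List.range j).foldl (fun kept j => gs n es M L0 R kept j) []

theorem kp_succ (n : ℕ) (es M : List (List ℕ)) (L0 R : List ℕ) (j : ℕ) :
    kp n es M L0 R (j + 1) = gs n es M L0 R (kp n es M L0 R j) j := by
  unfold kp
  rw [List.range_succ, List.foldl_append]
  rfl

theorem getD_eq (S : List ℕ) (j : ℕ) (h : j < S.length) :
    [S.getD j 0] ++ S.drop (j + 1) = S.drop j := by
  rw [List.getD_eq_getElem S 0 h, List.drop_eq_getElem_cons h]
  rfl

theorem inv (hFEA : Stmt_FEA) (n : ℕ) (es M : List (List ℕ)) (L0 R : List ℕ) (hV : Vs n es)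
    (hS : Sy n M) (hL0 : ∀ v ∈ L0, v < n) (hR : ∀ v ∈ R, v < n)
    (hF : FeasM (cE n es) (rE n M) (ct n (L0 ++ R))) (j : ℕ) (hj : j ≤ R.length) :
    (∀ v ∈ kp n es M L0 R j, v ∈ R) ∧
    FeasM (cE n es) (rE n M) (ct n (L0 ++ (kp n es M L0 R j ++ R.drop j))) ∧
    ∀ v : Fin n, v.val ∈ kp n es M L0 R j →
      ¬ FeasM (cE n es) (rE n M) fun w =>
        ct n (L0 ++ (kp n es M L0 R j ++ R.drop j)) w - (if w = v then 1 else 0) := by
  induction j with
  | zero =>
    refine ⟨by simp [kp], ?_, by simp [kp]⟩
    simpa [kp] using hF
  | succ j ih =>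
    have hj' : j < R.length := hj
    obtain ⟨h1, h2, h3⟩ := ih (le_of_lt hj')
    have hlt : ∀ v ∈ L0 ++ (kp n es M L0 R j ++ R.drop (j + 1)), v < n := by
      intro v hv
      rcases List.mem_append.1 hv with hv | hv
      · exact hL0 v hv
      · rcases List.mem_append.1 hv with hv | hv
        · exact hR v (h1 v hv)
        · exact hR v (List.mem_of_mem_drop hv)
    have hfe := hFEA n es M (L0 ++ (kp n es M L0 R j ++ R.drop (j + 1))) hV hS hlt
    have hget := getD_eq R j hj'
    rw [kp_succ]
    unfold gs
    cases hf : feaB n es M (L0 ++ (kp n es M L0 R j ++ R.drop (j + 1))) with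
    | true =>
      simp only [cond_true]
      refine ⟨h1, hfe.1 hf, ?_⟩
      intro v hv hcon
      refine h3 v hv (feas_mono ?_ hcon)
      intro u
      have hle : ct n (L0 ++ (kp n es M L0 R j ++ R.drop (j + 1))) u ≤
          ct n (L0 ++ (kp n es M L0 R j ++ R.drop j)) u := by
        unfold ct
        rw [← hget]
        simp only [List.count_append]
        omega
      exact Nat.sub_le_sub_right hle _
    | false =>
      simp only [cond_false]
      have heq : kp n es M L0 R j ++ [R.getD j 0] ++ R.drop (j + 1) =
          kp n es M L0 R j ++ R.drop j := by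
        rw [List.append_assoc, hget]
      rw [heq]
      refine ⟨?_, h2, ?_⟩
      · intro v hv
        rcases List.mem_append.1 hv with hv | hv
        · exact h1 v hv
        · rw [List.mem_singleton] at hv
          rw [hv, List.getD_eq_getElem _ 0 hj']
          exact List.getElem_mem hj'
      · intro v hv hcon
        rcases List.mem_append.1 hv with hv | hv
        · exact h3 v hv hcon
        · rw [List.mem_singleton] at hv
          have hno : ¬ FeasM (cE n es) (rE n M)
              (ct n (L0 ++ (kp n es M L0 R j ++ R.drop (j + 1)))) := by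
            intro hh
            have := hfe.2 hh
            rw [hf] at this
            exact absurd this (by simp)
          apply hno
          refine feas_mono ?_ hcon
          intro u
          show ct n (L0 ++ (kp n es M L0 R j ++ R.drop j)) u - (if u = v then 1 else 0) ≤
            ct n (L0 ++ (kp n es M L0 R j ++ R.drop (j + 1))) u
          by_cases huv : u = v
          · subst huv
            rw [if_pos rfl]
            unfold ct
            rw [← hget, ← hv]
            simp only [List.count_append, List.count_singleton_self]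
            omega
          · rw [if_neg huv]
            unfold ct
            have h0 : [v.val].count u.val = 0 := by
              rw [List.count_eq_zero, List.mem_singleton]
              exact fun h => huv (Fin.ext h)
            rw [← hget, ← hv]
            simp only [List.count_append]
            omega

end Pool.AUGS.KPT

namespace Pool.AUGS

open Finset Pool.AUG Pool.AUG.Alg Pool.AUGS.Alg

theorem stmt_KPT : Stmt_FEA → Stmt_KPT := by
  intro hFEA n es M L0 R hV hS hL0 hR hF
  obtain ⟨h1, h2, h3⟩ := KPT.inv hFEA n es M L0 R hV hS hL0 hR hF R.length le_rfl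
  have e : KPT.kp n es M L0 R R.length ++ R.drop R.length = kpt n es M L0 R := by
    rw [List.drop_length, List.append_nil]
    rfl
  rw [e] at h2 h3
  exact ⟨h1, h2, h3⟩

end Pool.AUGS
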