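import Pool.Agent.Work.MP_2183d4_sm.Interface2

set_option autoImplicit false

/-! # Block LAY: layers of the network -/

namespace Pool.AUGS

open Finset Pool.AUG Pool.AUG.Alg Pool.AUGS.Alg

theorem LAY_memB (x : ℕ) (S : List ℕ) : memB x S = true ↔ x ∈ S := by
  unfold memB
  rw [List.any_eq_true]
  constructor
  · rintro ⟨u, hu, h⟩
    rw [← of_decide_eq_true h]
    exact hu
  · intro h
    exact ⟨x, h, decide_eq_true rfl⟩

theorem LAY_succ (A : List (ℕ × ℕ)) (y k : ℕ) : lay A y (k + 1) = layS A (lay A y k) := by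
  unfold lay
  rw [List.range_succ, List.foldl_append]
  rfl

theorem LAY_mem_succ (A : List (ℕ × ℕ)) (y x k : ℕ) :
    x ∈ lay A y (k + 1) ↔ x ∈ lay A y k ∨ ∃ w, (x, w) ∈ A ∧ w ∈ lay A y k := by
  rw [LAY_succ]
  unfold layS
  rw [List.mem_append, List.mem_map]
  refine or_congr Iff.rfl ⟨?_, ?_⟩
  · rintro ⟨⟨a, b⟩, h, rfl⟩
    rw [List.mem_filter] at h
    exact ⟨b, h.1, (LAY_memB _ _).1 h.2⟩
  · rintro ⟨w, h1, h2⟩
    exact ⟨(x, w), List.mem_filter.2 ⟨h1, (LAY_memB _ _).2 h2⟩, rfl⟩

theorem LAY_sub (A : List (ℕ × ℕ)) (y k : ℕ) : ∀ x, x ∈ lay A y k → x ∈ lay A y (k + 1) :=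
  fun x hx => (LAY_mem_succ A y x k).2 (Or.inl hx)

/-- closed layers stay closed -/
theorem LAY_stab (A : List (ℕ × ℕ)) (y k : ℕ)
    (h : ∀ x, x ∈ lay A y (k + 1) → x ∈ lay A y k) :
    ∀ m, k ≤ m → ∀ x, x ∈ lay A y (m + 1) → x ∈ lay A y m := by
  intro m hm
  induction m, hm using Nat.le_induction with
  | base => exact h
  | succ m _ ih =>
    intro x hx
    rcases (LAY_mem_succ A y x (m + 1)).1 hx with h1 | ⟨w, h1, h2⟩
    · exact h1
    · exact (LAY_mem_succ A y x m).2 (Or.inr ⟨w, h1, ih w h2⟩)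

theorem LAY_bound (A : List (ℕ × ℕ)) (y : ℕ) :
    ∀ k x, x ∈ lay A y k → x ∈ insert y (A.map Prod.fst).toFinset := by
  intro k
  induction k with
  | zero =>
    intro x hx
    have h1 : x = y := by simpa [lay] using hx
    rw [h1]
    exact Finset.mem_insert_self _ _
  | succ k ih =>
    intro x hx
    rcases (LAY_mem_succ A y x k).1 hx with h1 | ⟨w, h1, h2⟩
    · exact ih x h1
    · refine Finset.mem_insert_of_mem ?_
      rw [List.mem_toFinset, List.mem_map]
      exact ⟨(x, w), h1, rfl⟩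

theorem LAY_closed (A : List (ℕ × ℕ)) (y : ℕ) :
    ∀ x, x ∈ lay A y (A.length + 1) → x ∈ lay A y A.length := by
  classical
  by_contra hcon
  have hne : ∀ k, k ≤ A.length → ¬ ∀ x, x ∈ lay A y (k + 1) → x ∈ lay A y k :=
    fun k hk h => hcon (LAY_stab A y k h A.length hk)
  have hcard : ∀ k, k ≤ A.length + 1 → k + 1 ≤ (lay A y k).toFinset.card := by
    intro k
    induction k with
    | zero =>
      intro _
      have : y ∈ (lay A y 0).toFinset := by simp [lay]
      exact Finset.card_pos.2 ⟨y, this⟩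
    | succ k ih =>
      intro hk
      have h1 := ih (by omega)
      have h2 : (lay A y k).toFinset ⊂ (lay A y (k + 1)).toFinset := by
        refine ⟨fun x hx => ?_, fun h => hne k (by omega) fun x hx => ?_⟩
        · exact List.mem_toFinset.2 (LAY_sub A y k x (List.mem_toFinset.1 hx))
        · have h3 := h (List.mem_toFinset.2 hx)
          exact List.mem_toFinset.1 h3
      have h4 := Finset.card_lt_card h2
      omega
  have h1 := hcard (A.length + 1) le_rfl
  have h2 : (lay A y (A.length + 1)).toFinset ⊆ insert y (A.map Prod.fst).toFinset :=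
    fun x hx => LAY_bound A y _ x (List.mem_toFinset.1 hx)
  have h3 := Finset.card_le_card h2
  have h4 : (insert y (A.map Prod.fst).toFinset).card ≤ A.length + 1 := by
    refine (Finset.card_insert_le _ _).trans (Nat.succ_le_succ ?_)
    refine (List.toFinset_card_le _).trans ?_
    rw [List.length_map]
  omega

theorem stmt_LAY : Stmt_LAY := by
  intro A y
  refine ⟨fun x => by simp [lay], fun x k => LAY_mem_succ A y x k,
    fun x k => LAY_memB x _, ?_⟩
  intro a b hab hb
  exact LAY_closed A y a ((LAY_mem_succ A y a _).2 (Or.inr ⟨b, hab, hb⟩))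

end Pool.AUGS
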