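import Pool.Agent.Work.MP_2183d4_sm.Interface

/-! # Block MIN: minimal numbers of half-edges by disjoint tight sets -/

set_option autoImplicit false

namespace Pool.AUGS

open Finset Pool.Agent.Work.MP_2183d4_lc_66 Pool.Agent.Work.MP_2183d4_add

namespace X_MIN

variable {V E : Type} [Fintype V] [DecidableEq V] [Fintype E]

/-- a family of tight sets which covers all the vertices with `0 < k v` -/
def Cov (H : E → Finset V) (R : Finset V → ℕ) (k m : V → ℕ) (Φ : Finset (Finset V)) : Prop :=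
  (∀ X ∈ Φ, F H m X ≤ R X) ∧ ∀ v, 0 < k v → ∃ X ∈ Φ, v ∈ X

/-- replacing two members of a family -/
theorem swap (Φ Ψ : Finset (Finset V)) {X Y : Finset V} (hX : X ∈ Φ) (hY : Y ∈ Φ) (hXY : X ≠ Y)
    (h : ∑ Z ∈ Ψ, (Z.card + 1) < X.card + 1 + (Y.card + 1)) :
    ∑ Z ∈ (Φ.erase X).erase Y ∪ Ψ, (Z.card + 1) < ∑ Z ∈ Φ, (Z.card + 1) := by
  have h1 := Finset.sum_union_inter (s₁ := (Φ.erase X).erase Y) (s₂ := Ψ)
    (f := fun Z : Finset V => Z.card + 1)
  have h2 := Finset.add_sum_erase Φ (fun Z : Finset V => Z.card + 1) hX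
  have h3 := Finset.add_sum_erase (Φ.erase X) (fun Z : Finset V => Z.card + 1)
    (mem_erase.2 ⟨hXY.symm, hY⟩)
  omega

end X_MIN

open X_MIN in
theorem blk_MIN : Stmt_MIN := by
  classical
  intro V E _ _ _ H R l k μ hR hm htight hμ hl
  obtain ⟨m, hmdef⟩ : ∃ m : V → ℕ, m = fun v => l v + k v := ⟨_, rfl⟩
  rw [← hmdef] at hm htight
  have hgoal : ∑ v, (l v + k v) = ∑ v, m v := by rw [hmdef]
  rw [hgoal]
  -- a minimal family
  obtain ⟨Φ, hΦ, hmin⟩ : ∃ Φ : Finset (Finset V), Cov H R k m Φ ∧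
      ∀ Ψ : Finset (Finset V), Cov H R k m Ψ →
        ∑ Z ∈ Φ, (Z.card + 1) ≤ ∑ Z ∈ Ψ, (Z.card + 1) := by
    have hne : ((univ : Finset (Finset (Finset V))).filter fun Φ => Cov H R k m Φ).Nonempty := by
      refine ⟨univ.filter fun X => F H m X ≤ R X, mem_filter.2 ⟨mem_univ _, ?_, ?_⟩⟩
      · intro X hX
        exact (mem_filter.1 hX).2
      · intro v hv
        obtain ⟨X, hvX, hX⟩ := htight v hv
        exact ⟨X, mem_filter.2 ⟨mem_univ _, hX⟩, hvX⟩
    obtain ⟨Φ, hΦ, hmin⟩ := Finset.exists_min_image _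
      (fun Φ : Finset (Finset V) => ∑ Z ∈ Φ, (Z.card + 1)) hne
    exact ⟨Φ, (mem_filter.1 hΦ).2, fun Ψ hΨ => hmin Ψ (mem_filter.2 ⟨mem_univ _, hΨ⟩)⟩
  -- its members are disjoint
  have hdisj : ∀ X ∈ Φ, ∀ Y ∈ Φ, X ≠ Y → Disjoint X Y := by
    intro X hX Y hY hXY
    by_contra hnd
    have hcard : 1 ≤ (X ∩ Y).card := by
      rw [Finset.one_le_card]
      exact Finset.not_disjoint_iff_nonempty_inter.1 hnd
    have hcu := Finset.card_union_add_card_inter X Y
    have hc1 := Finset.card_sdiff_add_card_inter X Y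
    have hc2 := Finset.card_sdiff_add_card_inter Y X
    rw [inter_comm Y X] at hc2
    have hXt := hΦ.1 X hX
    have hYt := hΦ.1 Y hY
    rcases hR.skew X Y with hs | hs
    · -- the union is tight
      have h1 := F_sub H m X Y
      have h2 := hm (X ∩ Y)
      have h3 := hm (X ∪ Y)
      have hcov : Cov H R k m ((Φ.erase X).erase Y ∪ {X ∪ Y}) := by
        refine ⟨?_, ?_⟩
        · intro Z hZ
          rcases mem_union.1 hZ with hZ | hZ
          · exact hΦ.1 Z (mem_of_mem_erase (mem_of_mem_erase hZ))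
          · rw [mem_singleton.1 hZ]
            omega
        · intro v hv
          obtain ⟨Z, hZ, hvZ⟩ := hΦ.2 v hv
          by_cases hZX : Z = X
          · exact ⟨X ∪ Y, mem_union_right _ (mem_singleton_self _),
              mem_union_left _ (hZX ▸ hvZ)⟩
          by_cases hZY : Z = Y
          · exact ⟨X ∪ Y, mem_union_right _ (mem_singleton_self _),
              mem_union_right _ (hZY ▸ hvZ)⟩
          · exact ⟨Z, mem_union_left _ (mem_erase.2 ⟨hZY, mem_erase.2 ⟨hZX, hZ⟩⟩), hvZ⟩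
      have h4 := hmin _ hcov
      have h5 := swap Φ {X ∪ Y} hX hY hXY (by
        rw [sum_singleton]
        omega)
      omega
    · -- the differences are tight
      have h1 := F_posi H m X Y
      have h2 := hm (X \ Y)
      have h3 := hm (Y \ X)
      have h0 : ∑ v ∈ X ∩ Y, m v = 0 := by omega
      have hout : ∀ v, 0 < k v → v ∉ X ∩ Y := by
        intro v hv hvXY
        have h6 := (Finset.sum_eq_zero_iff.1 h0) v hvXY
        rw [hmdef] at h6
        simp only at h6
        omega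
      have hcov : Cov H R k m ((Φ.erase X).erase Y ∪ {X \ Y, Y \ X}) := by
        refine ⟨?_, ?_⟩
        · intro Z hZ
          rcases mem_union.1 hZ with hZ | hZ
          · exact hΦ.1 Z (mem_of_mem_erase (mem_of_mem_erase hZ))
          · rcases mem_insert.1 hZ with hZ | hZ
            · rw [hZ]
              omega
            · rw [mem_singleton.1 hZ]
              omega
        · intro v hv
          obtain ⟨Z, hZ, hvZ⟩ := hΦ.2 v hv
          have h6 := hout v hv
          by_cases hZX : Z = X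
          · refine ⟨X \ Y, mem_union_right _ (mem_insert_self _ _), ?_⟩
            rw [hZX] at hvZ
            exact mem_sdiff.2 ⟨hvZ, fun h => h6 (mem_inter.2 ⟨hvZ, h⟩)⟩
          by_cases hZY : Z = Y
          · refine ⟨Y \ X, mem_union_right _ (mem_insert_of_mem (mem_singleton_self _)), ?_⟩
            rw [hZY] at hvZ
            exact mem_sdiff.2 ⟨hvZ, fun h => h6 (mem_inter.2 ⟨h, hvZ⟩)⟩
          · exact ⟨Z, mem_union_left _ (mem_erase.2 ⟨hZY, mem_erase.2 ⟨hZX, hZ⟩⟩), hvZ⟩
      have h4 := hmin _ hcov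
      have h5 := swap Φ {X \ Y, Y \ X} hX hY hXY (by
        have h7 := Finset.sum_union_inter (s₁ := ({X \ Y} : Finset (Finset V)))
          (s₂ := ({Y \ X} : Finset (Finset V))) (f := fun Z : Finset V => Z.card + 1)
        rw [sum_singleton, sum_singleton] at h7
        have h8 : ({X \ Y} : Finset (Finset V)) ∪ {Y \ X} = {X \ Y, Y \ X} := rfl
        rw [h8] at h7
        omega)
      omega
  -- counting
  obtain ⟨U, hU⟩ : ∃ U : Finset V, U = Φ.biUnion id := ⟨_, rfl⟩
  have h1 : ∑ v ∈ U, m v ≤ ∑ v ∈ U, μ v := by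
    rw [hU, Finset.sum_biUnion, Finset.sum_biUnion]
    · refine Finset.sum_le_sum fun X hX => ?_
      have h2 := hΦ.1 X hX
      have h3 := hμ X
      unfold F at h2 h3
      simp only [id]
      omega
    · intro X hX Y hY hXY
      exact hdisj X hX Y hY hXY
    · intro X hX Y hY hXY
      exact hdisj X hX Y hY hXY
  have h2 : ∑ v ∈ Uᶜ, m v ≤ ∑ v ∈ Uᶜ, μ v := by
    refine Finset.sum_le_sum fun v hv => ?_
    have h3 : k v = 0 := by
      by_contra hk
      obtain ⟨X, hX, hvX⟩ := hΦ.2 v (Nat.pos_of_ne_zero hk)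
      apply (mem_compl.1 hv)
      rw [hU]
      exact mem_biUnion.2 ⟨X, hX, hvX⟩
    have h4 := hl v
    rw [hmdef]
    simp only
    omega
  have h3 := Finset.sum_add_sum_compl U m
  have h4 := Finset.sum_add_sum_compl U μ
  omega

end Pool.AUGS
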