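import Pool.Agent.Work.MP_2183d4_sm.Interface

/-! # Block MIX: the mixed case for a given hyperedge (copy of `mixed` in Min.lean) -/

set_option autoImplicit false

namespace Pool.AUGS

open Finset Pool.Agent.Work.MP_2183d4_lc_66 Pool.Agent.Work.MP_2183d4_add

theorem stmt_MIX : Stmt_MIX := by
  classical
  intro V E _ _ _ H L T j hjT hj hx hne hpm hdi hle hex1 hex2 e hje hedge
  -- mates have the same core
  have core : ∀ x ∈ T, ∀ y ∈ T, x ≠ y → L x ∩ L y ≠ {j} → L x = insert x (L x ∩ L y) := by
    intro x hxT y hyT hxy hn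
    obtain ⟨h1, h2⟩ := (hdi x hxT y hyT hxy).resolve_left hn
    ext w
    rw [mem_insert, mem_inter]
    constructor
    · intro hw
      by_cases hwy : w ∈ L y
      · exact Or.inr ⟨hw, hwy⟩
      · left
        have : w ∈ L x \ L y := mem_sdiff.2 ⟨hw, hwy⟩
        rwa [h1, mem_singleton] at this
    · rintro (rfl | hw)
      · exact hx w hxT
      · exact hw.1
  have trans : ∀ x ∈ T, ∀ y ∈ T, ∀ z ∈ T, x ≠ y → x ≠ z → y ≠ z → L x ∩ L y ≠ {j} →
      L x ∩ L z ≠ {j} → L y ∩ L z ≠ {j} := by
    intro x hxT y hyT z hzT hxy hxz hyz h1 h2 h3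
    have c1 := core x hxT y hyT hxy h1
    have c2 := core x hxT z hzT hxz h2
    have nx1 : x ∉ L x ∩ L y := fun h => hne y hyT x hxT (Ne.symm hxy) (mem_inter.1 h).2
    have nx2 : x ∉ L x ∩ L z := fun h => hne z hzT x hxT (Ne.symm hxz) (mem_inter.1 h).2
    have c3 : L x ∩ L y = L x ∩ L z := by
      have : (insert x (L x ∩ L y)).erase x = (insert x (L x ∩ L z)).erase x := by
        rw [← c1, ← c2]
      rwa [Finset.erase_insert nx1, Finset.erase_insert nx2] at this
    apply h1
    apply Finset.Subset.antisymm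
    · intro w hw
      rw [← h3]
      refine mem_inter.2 ⟨(mem_inter.1 hw).2, ?_⟩
      rw [c3] at hw
      exact (mem_inter.1 hw).2
    · intro w hw
      rw [mem_singleton] at hw
      subst hw
      exact mem_inter.2 ⟨hj x hxT, hj y hyT⟩
  -- symmetric form
  have comm : ∀ x y, L x ∩ L y = {j} → L y ∩ L x = {j} := by
    intro x y h
    rwa [inter_comm]
  -- a token w that is a non-mate of two mates: all hyperedges at j meet its petal and contain
  -- the mates
  have B : ∀ w ∈ T, ∀ z ∈ T, ∀ z' ∈ T, w ≠ z → w ≠ z' → z ≠ z' → L z ∩ L z' ≠ {j} →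
      L w ∩ L z = {j} → L w ∩ L z' = {j} →
      ∀ f, j ∈ H f → (∃ c ∈ H f, c ≠ j) → (∃ v ∈ H f, v ∈ L w \ {j}) ∧ z ∈ H f := by
    intro w hwT z hzT z' hz'T hwz hwz' hzz' hm hn1 hn2
    obtain ⟨d1, d2⟩ := (hdi z hzT z' hz'T hzz').resolve_left hm
    -- a hyperedge at j meeting the petal of w contains z
    have P1 : ∀ f, j ∈ H f → (∃ v ∈ H f, v ∈ L w \ {j}) → z ∈ H f := by
      rintro f hf ⟨v, hv, hvw⟩
      rw [mem_sdiff, mem_singleton] at hvw
      obtain ⟨⟨u, hu, hu2⟩, _⟩ := hpm z hzT z' hz'T hzz' f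
        ⟨j, hf, mem_inter.2 ⟨hj z hzT, hj z' hz'T⟩⟩ ⟨v, hv, by
          rw [mem_union, not_or]
          constructor
          · intro h
            have : v ∈ L w ∩ L z := mem_inter.2 ⟨hvw.1, h⟩
            rw [hn1, mem_singleton] at this
            exact hvw.2 this
          · intro h
            have : v ∈ L w ∩ L z' := mem_inter.2 ⟨hvw.1, h⟩
            rw [hn2, mem_singleton] at this
            exact hvw.2 this⟩
      rw [d1, mem_singleton] at hu2
      rwa [hu2] at hu
    -- the hyperedges at j inside L w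
    have P2 : ∀ f, j ∈ H f → (∃ c ∈ H f, c ≠ j) → ¬ H f ⊆ L w := by
      rintro f hf ⟨c, hc, hcj⟩ hsub
      have h1 := P1 f hf ⟨c, hc, mem_sdiff.2 ⟨hsub hc, by simpa using hcj⟩⟩
      exact hne w hwT z hzT hwz (hsub h1)
    have P3 : ∀ f, j ∈ H f → (∃ c ∈ H f, c ≠ j) → ∃ v ∈ H f, v ∈ L w \ {j} := by
      by_contra hcon
      push Not at hcon
      obtain ⟨f, hf, ⟨c, hc, hcj⟩, hfn⟩ := hcon
      have h1 := hle w hwT
      have h2 : cut H (L w \ {j}) < cut H (L w) := by
        unfold cut
        apply Finset.card_lt_card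
        rw [Finset.ssubset_iff_of_subset]
        · refine ⟨f, ?_, ?_⟩
          · rw [mem_filter]
            refine ⟨mem_univ _, ⟨j, hf, hj w hwT⟩, c, hc, fun h => ?_⟩
            exact hfn c hc (mem_sdiff.2 ⟨h, by simpa using hcj⟩)
          · rw [mem_filter]
            rintro ⟨_, ⟨v, hv, hv2⟩, _⟩
            exact hfn v hv hv2
        · intro g hg
          rw [mem_filter] at hg ⊢
          obtain ⟨_, ⟨v, hv, hv2⟩, u, hu, hu2⟩ := hg
          refine ⟨mem_univ _, ⟨v, hv, (mem_sdiff.1 hv2).1⟩, ?_⟩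
          by_cases hug : u ∈ L w
          · have huj : u = j := by
              by_contra h
              exact hu2 (mem_sdiff.2 ⟨hug, by simpa using h⟩)
            subst huj
            have h3 := P2 g hu ⟨v, hv, by
              have := (mem_sdiff.1 hv2).2
              simpa using this⟩
            rw [Finset.not_subset] at h3
            exact h3
          · exact ⟨u, hu, hug⟩
      omega
    intro f hf hc
    exact ⟨P3 f hf hc, P1 f hf (P3 f hf hc)⟩
  -- every token with a mate lies in e
  have C1 : ∀ z ∈ T, (∃ z' ∈ T, z ≠ z' ∧ L z ∩ L z' ≠ {j}) → z ∈ H e := by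
    rintro z hz ⟨z', hz', hzz', hm⟩
    -- a non-mate
    obtain ⟨w, hw, hwz, hn⟩ : ∃ w ∈ T, w ≠ z ∧ L w ∩ L z = {j} := by
      by_contra hcon
      push Not at hcon
      obtain ⟨x, hxT, y, hyT, hxy, hxyj⟩ := hex1
      by_cases h1 : x = z
      · subst h1
        exact hcon y hyT (Ne.symm hxy) (comm _ _ hxyj)
      · by_cases h2 : y = z
        · subst h2
          exact hcon x hxT hxy hxyj
        · exact trans z hz x hxT y hyT (Ne.symm h1) (Ne.symm h2) hxy
            (fun h => hcon x hxT h1 (comm _ _ h)) (fun h => hcon y hyT h2 (comm _ _ h)) hxyj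
    have hwz' : w ≠ z' := by
      rintro rfl
      exact hm (comm _ _ hn)
    have hn' : L w ∩ L z' = {j} := by
      by_contra h
      exact trans z' hz' w hw z hz (Ne.symm hwz') (Ne.symm hzz') hwz
        (fun h' => h (comm _ _ h')) (fun h' => hm (comm _ _ h')) hn
    exact (B w hw z hz z' hz' hwz hwz' hzz' hm hn hn' e hje hedge).2
  have C2 : ∀ w ∈ T, (∀ z' ∈ T, w ≠ z' → L w ∩ L z' = {j}) → ∃ v ∈ H e, v ∈ L w \ {j} := by
    intro w hw hall
    obtain ⟨z, hz, z', hz', hzz', hm⟩ := hex2
    have hwz : w ≠ z := by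
      rintro rfl
      exact hm (hall z' hz' hzz')
    have hwz' : w ≠ z' := by
      rintro rfl
      exact hm (comm _ _ (hall z hz (Ne.symm hzz')))
    exact (B w hw z hz z' hz' hwz hwz' hzz' hm (hall z hz hwz) (hall z' hz' hwz') e hje hedge).1
  have C3 : ∀ w ∈ T, w ∉ H e → (∀ z' ∈ T, w ≠ z' → L w ∩ L z' = {j}) := by
    intro w hw hwe z' hz' hne'
    by_contra h
    exact hwe (C1 w hw ⟨z', hz', hne', h⟩)
  refine count T (H e) (fun x => if hx : x ∈ T ∧ x ∉ H e then
    (C2 x hx.1 (C3 x hx.1 hx.2)).choose else x) j hje ?_ ?_ ?_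
  · intro x hxT
    by_cases hxe : x ∈ H e
    · simp only [hxe, not_true_eq_false, and_false, dif_neg, not_false_iff]
    · simp only [hxT, hxe, not_false_iff, and_self, dif_pos]
      exact (C2 x hxT (C3 x hxT hxe)).choose_spec.1
  · intro x hxT
    by_cases hxe : x ∈ H e
    · simp only [hxe, not_true_eq_false, and_false, dif_neg, not_false_iff]
      rintro rfl
      exact hjT hxT
    · simp only [hxT, hxe, not_false_iff, and_self, dif_pos]
      intro h
      have := (mem_sdiff.1 (C2 x hxT (C3 x hxT hxe)).choose_spec.2).2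
      rw [h] at this
      simp at this
  · intro x hxT y hyT hxy
    by_cases hxe : x ∈ H e
    · by_cases hye : y ∈ H e
      · simp only [hxe, hye, not_true_eq_false, and_false, dif_neg, not_false_iff] at hxy
        exact hxy
      · simp only [hxe, hyT, hye, not_true_eq_false, and_false, dif_neg, not_false_iff,
          and_self, dif_pos] at hxy
        by_contra hne'
        have h1 := mem_sdiff.1 (C2 y hyT (C3 y hyT hye)).choose_spec.2
        rw [← hxy] at h1
        exact hne y hyT x hxT (Ne.symm hne') h1.1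
    · by_cases hye : y ∈ H e
      · simp only [hxe, hxT, hye, not_true_eq_false, and_false, dif_neg, not_false_iff,
          and_self, dif_pos] at hxy
        by_contra hne'
        have h1 := mem_sdiff.1 (C2 x hxT (C3 x hxT hxe)).choose_spec.2
        rw [hxy] at h1
        exact hne x hxT y hyT hne' h1.1
      · simp only [hxe, hye, hxT, hyT, not_false_iff, and_self, dif_pos] at hxy
        by_contra hne'
        have h1 := mem_sdiff.1 (C2 x hxT (C3 x hxT hxe)).choose_spec.2
        have h2 := mem_sdiff.1 (C2 y hyT (C3 y hyT hye)).choose_spec.2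
        rw [← hxy] at h2
        have h3 := C3 x hxT hxe y hyT hne'
        have h4 : (C2 x hxT (C3 x hxT hxe)).choose ∈ L x ∩ L y := mem_inter.2 ⟨h1.1, h2.1⟩
        rw [h3] at h4
        exact h1.2 h4

end Pool.AUGS
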