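import Pool.Agent.Work.MP_2183d4_sm.Interface2

/-!
# MP_2183d4_lc, project SM, block NET (helper22)
-/

set_option autoImplicit false

namespace Pool.AUGS

open Finset Pool.AUG Pool.AUG.Alg Pool.AUGS.Alg

namespace NETaux

theorem range_map (es : List (List ℕ)) :
    (List.range es.length).map (fun i => es.getD i []) = es := by
  apply List.ext_getElem
  · simp
  · intro i h1 h2
    rw [List.getElem_map, List.getElem_range, List.getD_eq_getElem _ _ h2]

theorem countP_sum {α : Type} (p : α → Bool) (l : List α) :
    l.countP p = (l.map fun a => if p a then 1 else 0).sum := by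
  induction l with
  | nil => rfl
  | cons a l ih => rw [List.countP_cons, List.map_cons, List.sum_cons, ih, Nat.add_comm]

/-- The condition that `e` crosses `s`. -/
def crs (s : ℕ → Bool) (e : List ℕ) : Bool := e.any s && e.any fun v => !(s v)

theorem cut_eq (es : List (List ℕ)) (s : ℕ → Bool) :
    cutB es s = ((List.range es.length).map fun i =>
      if crs s (es.getD i []) then 1 else 0).sum := by
  have h : cutB es s = es.countP (crs s) := rfl
  rw [h]
  conv_lhs => rw [← range_map es]
  rw [List.countP_map, countP_sum]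
  rfl

/-- The arcs of the hyperedge number `i`. -/
def blk (B : ℕ) (es : List (List ℕ)) (i : ℕ) : List (ℕ × ℕ) :=
  (B + (i + i), B + (i + i) + 1) ::
    (es.getD i []).flatMap fun v => [(v, B + (i + i)), (B + (i + i) + 1, v)]

theorem dout_eq (B : ℕ) (es : List (List ℕ)) (s : ℕ → Bool) :
    dout (arcs B es) s = ((List.range es.length).map fun i =>
      (blk B es i).countP fun a => s a.1 && !(s a.2)).sum := by
  have h : arcs B es = (List.range es.length).flatMap (blk B es) := rfl
  rw [h, dout, List.countP_flatMap]
  rfl

theorem mem1 (B : ℕ) (es : List (List ℕ)) (i v : ℕ) (hv : v ∈ es.getD i []) :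
    (v, B + (i + i)) ∈ blk B es i ∧ (B + (i + i) + 1, v) ∈ blk B es i := by
  unfold blk
  constructor
  · apply List.mem_cons_of_mem
    rw [List.mem_flatMap]
    exact ⟨v, hv, by simp⟩
  · apply List.mem_cons_of_mem
    rw [List.mem_flatMap]
    exact ⟨v, hv, by simp⟩

theorem low (B : ℕ) (es : List (List ℕ)) (s : ℕ → Bool) (i : ℕ) :
    (if crs s (es.getD i []) then 1 else 0) ≤
      (blk B es i).countP fun a => s a.1 && !(s a.2) := by
  split_ifs with h
  · have hpos : 0 < (blk B es i).countP fun a => s a.1 && !(s a.2) := by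
      rw [List.countP_pos_iff]
      unfold crs at h
      rw [Bool.and_eq_true, List.any_eq_true, List.any_eq_true] at h
      obtain ⟨⟨v, hv, hsv⟩, w, hw, hsw⟩ := h
      by_cases h1 : s (B + (i + i)) = true
      · by_cases h2 : s (B + (i + i) + 1) = true
        · exact ⟨_, (mem1 B es i w hw).2, by simp only [h2, hsw, Bool.and_self]⟩
        · exact ⟨_, List.mem_cons_self, by simp only [h1, h2, Bool.not_false, Bool.and_self]⟩
      · exact ⟨_, (mem1 B es i v hv).1, by simp only [h1, hsv, Bool.not_false, Bool.and_self]⟩
    omega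
  · exact Nat.zero_le _

theorem sum_le {l : List ℕ} {f g : ℕ → ℕ} (h : ∀ i ∈ l, f i ≤ g i) :
    (l.map f).sum ≤ (l.map g).sum := by
  induction l with
  | nil => simp
  | cons a l ih =>
    rw [List.map_cons, List.map_cons, List.sum_cons, List.sum_cons]
    have h1 := h a List.mem_cons_self
    have h2 := ih fun i hi => h i (List.mem_cons_of_mem _ hi)
    omega

/-- The extension of `s` to the nodes of the hyperedges. -/
def ext (B : ℕ) (es : List (List ℕ)) (s : ℕ → Bool) (x : ℕ) : Bool :=
  if x < B then s x else
    if (x - B) % 2 = 0 then (es.getD ((x - B) / 2) []).any s else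
      (es.getD ((x - B) / 2) []).any s && (es.getD ((x - B) / 2) []).all s

theorem ext_low (B : ℕ) (es : List (List ℕ)) (s : ℕ → Bool) (x : ℕ) (hx : x < B) :
    ext B es s x = s x := by
  unfold ext
  rw [if_pos hx]

theorem ext_in (B : ℕ) (es : List (List ℕ)) (s : ℕ → Bool) (i : ℕ) :
    ext B es s (B + (i + i)) = (es.getD i []).any s := by
  unfold ext
  have h1 : ¬ B + (i + i) < B := by omega
  have h2 : (B + (i + i) - B) % 2 = 0 := by omega
  have h3 : (B + (i + i) - B) / 2 = i := by omega
  rw [if_neg h1, if_pos h2, h3]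

theorem ext_out (B : ℕ) (es : List (List ℕ)) (s : ℕ → Bool) (i : ℕ) :
    ext B es s (B + (i + i) + 1) = ((es.getD i []).any s && (es.getD i []).all s) := by
  unfold ext
  have h1 : ¬ B + (i + i) + 1 < B := by omega
  have h2 : ¬ (B + (i + i) + 1 - B) % 2 = 0 := by omega
  have h3 : (B + (i + i) + 1 - B) / 2 = i := by omega
  rw [if_neg h1, if_neg h2, h3]

theorem up (B : ℕ) (es : List (List ℕ)) (s : ℕ → Bool) (i : ℕ)
    (hB : ∀ v ∈ es.getD i [], v < B) :
    (blk B es i).countP (fun a => ext B es s a.1 && !(ext B es s a.2)) ≤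
      (if crs s (es.getD i []) then 1 else 0) := by
  unfold blk
  rw [List.countP_cons]
  have h0 : ((es.getD i []).flatMap fun v => [(v, B + (i + i)), (B + (i + i) + 1, v)]).countP
      (fun a => ext B es s a.1 && !(ext B es s a.2)) = 0 := by
    rw [List.countP_eq_zero]
    intro a ha
    rw [List.mem_flatMap] at ha
    obtain ⟨v, hv, hav⟩ := ha
    have hvB := ext_low B es s v (hB v hv)
    simp only [List.mem_cons, List.not_mem_nil, or_false] at hav
    rcases hav with rfl | rfl
    · simp only
      rw [hvB, ext_in]
      intro h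
      rw [Bool.and_eq_true] at h
      have : (es.getD i []).any s = true := List.any_eq_true.mpr ⟨v, hv, h.1⟩
      rw [this] at h
      simp at h
    · simp only
      rw [hvB, ext_out]
      intro h
      rw [Bool.and_eq_true, Bool.and_eq_true, List.all_eq_true] at h
      have := h.1.2 v hv
      rw [this] at h
      simp at h
  rw [h0, Nat.zero_add]
  simp only
  rw [ext_in, ext_out]
  by_cases hc : ((es.getD i []).any s && !((es.getD i []).any s && (es.getD i []).all s)) = true
  · rw [if_pos hc]
    have hcr : crs s (es.getD i []) = true := by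
      unfold crs
      rw [Bool.and_eq_true] at hc ⊢
      refine ⟨hc.1, ?_⟩
      have h1 := hc.2
      rw [hc.1, Bool.true_and, Bool.not_eq_true', List.all_eq_false] at h1
      obtain ⟨v, hv, hsv⟩ := h1
      rw [List.any_eq_true]
      exact ⟨v, hv, by simpa using hsv⟩
    rw [if_pos hcr]
  · rw [if_neg hc]
    exact Nat.zero_le _

end NETaux

open NETaux in
theorem stmt_NET : Stmt_NET := by
  intro B es hB
  refine ⟨fun s => ?_, fun s => ⟨ext B es s, fun v hv => ext_low B es s v hv, ?_⟩⟩
  · rw [cut_eq, dout_eq]
    exact sum_le fun i _ => low B es s i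
  · rw [cut_eq, dout_eq]
    refine sum_le fun i hi => up B es s i ?_
    intro v hv
    have hi' : i < es.length := List.mem_range.mp hi
    rw [List.getD_eq_getElem _ _ hi'] at hv
    exact hB _ (List.getElem_mem hi') v hv

end Pool.AUGS
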