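import Pool.Agent.Work.MP_2183d4_sm.Interface2

/-!
# MP_2183d4_lc (hyperedges with at most three vertices), block ONB: the test `onesB`
-/

set_option autoImplicit false

namespace Pool.AUGS

open Finset Pool.AUG Pool.AUG.Alg Pool.AUGS.Alg

namespace ONB

/-- The number of entries with a property as a sum over the vertices. -/
theorem countP_eq (n : ℕ) (p : ℕ → Bool) (L : List ℕ) (hL : ∀ v ∈ L, v < n) :
    L.countP p = ∑ w : Fin n, if p w = true then ct n L w else 0 := by
  induction L with
  | nil => simp [ct]
  | cons a L ih =>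
    have h1 := ih fun v hv => hL v (List.mem_cons_of_mem _ hv)
    have ha : a < n := hL a List.mem_cons_self
    rw [List.countP_cons, h1]
    have h2 : ∀ w : Fin n, (if p w = true then ct n (a :: L) w else 0) =
        (if p w = true then ct n L w else 0) + (if w = ⟨a, ha⟩ then (if p a = true then 1 else 0) else 0) := by
      intro w
      have h3 : ct n (a :: L) w = ct n L w + if w = ⟨a, ha⟩ then 1 else 0 := by
        unfold ct
        rw [List.count_cons]
        congr 1
        by_cases hw : w = ⟨a, ha⟩
        · rw [if_pos hw, hw]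
          simp
        · rw [if_neg hw]
          have h4 : ¬ a = w.val := fun h => hw (Fin.ext h.symm)
          simp [h4]
      rw [h3]
      by_cases hw : w = ⟨a, ha⟩
      · subst hw
        by_cases hp : p a = true
        · simp [hp]
        · simp [hp]
      · by_cases hp : p w = true
        · simp [hp, hw]
        · simp [hp, hw]
    rw [Finset.sum_congr rfl fun w _ => h2 w, Finset.sum_add_distrib]
    congr 1
    rw [Finset.sum_ite_eq' univ (⟨a, ha⟩ : Fin n)]
    simp

theorem len_eq (hCNS : Stmt_CNS) (n : ℕ) (es : List (List ℕ)) (L : List ℕ) (hVs : Vs n es)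
    (hL : ∀ v ∈ L, v < n) (v : Fin n) :
    (L.filter fun u => conS es v u).length = ∑ w ∈ comp (cE n (sml es)) v, ct n L w := by
  rw [← List.countP_eq_length_filter, countP_eq n _ L hL, ← Finset.sum_filter]
  refine Finset.sum_congr ?_ fun _ _ => rfl
  ext w
  rw [mem_filter, mem_comp]
  constructor
  · rintro ⟨-, h⟩
    exact (hCNS n es v w hVs).1 h
  · intro h
    exact ⟨mem_univ _, (hCNS n es v w hVs).2 h⟩

end ONB

theorem stmt_ONB (hCNS : Stmt_CNS) (hSMF : Stmt_SMF) : Stmt_ONB := by
  intro n es L hVs hL
  have hcut : IsCut (cE n (sml es)) := hSMF.2.2.2.2.2 n (sml es) (hSMF.2.2.1 n es hVs)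
  have key : onesB es L = true ↔ ∀ v : Fin n, v.val ∈ L →
      ∑ w ∈ comp (cE n (sml es)) v, ct n L w ≠ 1 := by
    unfold onesB
    rw [List.all_eq_true]
    constructor
    · intro h v hv h1
      have h2 := h v.val hv
      rw [ONB.len_eq hCNS n es L hVs hL v, h1] at h2
      simp at h2
    · intro h v hv
      have h2 := h ⟨v, hL v hv⟩ hv
      rw [← ONB.len_eq hCNS n es L hVs hL ⟨v, hL v hv⟩] at h2
      simpa using h2
  rw [key]
  constructor
  · intro h X hX h1
    have h2 : ∃ v ∈ X, ct n L v ≠ 0 := by
      by_contra hne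
      push Not at hne
      rw [Finset.sum_eq_zero hne] at h1
      exact absurd h1 (by norm_num)
    obtain ⟨v, hvX, hv⟩ := h2
    have hvL : v.val ∈ L := by
      by_contra hv2
      exact hv (List.count_eq_zero_of_not_mem hv2)
    have hsub : comp (cE n (sml es)) v ⊆ X := by
      intro y hy
      exact (mem_comp.1 hy X hX).1 hvX
    have h3 : ∑ w ∈ comp (cE n (sml es)) v, ct n L w ≤ ∑ w ∈ X, ct n L w :=
      Finset.sum_le_sum_of_subset hsub
    have h4 : ct n L v ≤ ∑ w ∈ comp (cE n (sml es)) v, ct n L w :=
      Finset.single_le_sum (f := fun w => ct n L w) (fun _ _ => Nat.zero_le _) (self_mem_comp v)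
    exact h v hvL (by omega)
  · intro h v _
    exact h _ (hcut.comp v)

end Pool.AUGS
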