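import Pool.Agent.Work.MP_2183d4_sm.Interface2

/-!
# Block POT (helper9)
-/

set_option autoImplicit false
set_option linter.unusedSectionVars false

namespace Pool.AUGS

open Finset Pool.AUG

namespace X_POT

variable {V : Type} [Fintype V] [DecidableEq V]

theorem hd_cons (e : V × V) (F : List (V × V)) (C : Finset V) :
    hd (e :: F) C = ((if e.1 ∈ C then 1 else 0) + (if e.2 ∈ C then 1 else 0)) + hd F C := by
  unfold hd
  rw [List.map_cons, List.sum_cons]

theorem hd_perm {F G : List (V × V)} (h : F.Perm G) (C : Finset V) : hd F C = hd G C := by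
  unfold hd
  exact (h.map _).sum_eq

theorem hd_mono (F : List (V × V)) {A B : Finset V} (h : A ⊆ B) : hd F A ≤ hd F B := by
  induction F with
  | nil => exact le_refl _
  | cons e F ih =>
    rw [hd_cons, hd_cons]
    have h1 : ∀ v : V, (if v ∈ A then 1 else 0) ≤ (if v ∈ B then 1 else 0) := by
      intro v
      by_cases ha : v ∈ A
      · simp [ha, h ha]
      · simp [ha]
    have h2 := h1 e.1
    have h3 := h1 e.2
    omega

theorem exists_mem {F : List (V × V)} {C : Finset V} (h : 1 ≤ hd F C) :
    ∃ e ∈ F, e.1 ∈ C ∨ e.2 ∈ C := by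
  induction F with
  | nil => exact absurd h (by simp [hd])
  | cons e F ih =>
    by_cases he : e.1 ∈ C ∨ e.2 ∈ C
    · exact ⟨e, by simp, he⟩
    · rw [hd_cons] at h
      have h1 : e.1 ∉ C := fun h' => he (Or.inl h')
      have h2 : e.2 ∉ C := fun h' => he (Or.inr h')
      simp only [h1, h2, if_false] at h
      obtain ⟨e', he', h'⟩ := ih (by omega)
      exact ⟨e', by simp [he'], h'⟩

theorem pos_of_mem {F : List (V × V)} {C : Finset V} {e : V × V} (he : e ∈ F)
    (h : e.1 ∈ C ∨ e.2 ∈ C) : 1 ≤ hd F C := by
  obtain ⟨G, hG⟩ : ∃ G, F.Perm (e :: G) := ⟨F.erase e, List.perm_cons_erase he⟩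
  rw [hd_perm hG, hd_cons]
  rcases h with h | h <;> simp [h] <;> omega

/-- Closed sets contain the components of their members. -/
theorem comp_sub {c : Finset V → ℕ} {X : Finset V} (hX : c X = 0) {v : V} (hv : v ∈ X) :
    comp c v ⊆ X := fun w hw => ((mem_comp.1 hw) X hX).1 hv

/-- The cut function with one more edge. -/
def cc (c : Finset V → ℕ) (e : V × V) : Finset V → ℕ := fun X => c X + gl [e] X

theorem gl_one (e : V × V) (X : Finset V) : gl [e] X = cr e X := by
  rw [gl_cons, gl_nil]; omega

theorem cut_cc {c : Finset V → ℕ} (hc : IsCut c) (e : V × V) : IsCut (cc c e) := hc.add [e]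

theorem cc_zero {c : Finset V → ℕ} {e : V × V} {X : Finset V} :
    cc c e X = 0 ↔ c X = 0 ∧ (e.1 ∈ X ↔ e.2 ∈ X) := by
  unfold cc
  rw [gl_one]
  unfold cr
  by_cases h : (e.1 ∈ X ↔ e.2 ∈ X)
  · simp [h]
  · simp [h]

theorem same_up {c : Finset V → ℕ} {e : V × V} {x y : V} (h : Same c x y) :
    Same (cc c e) x y := fun X hX => h X (cc_zero.1 hX).1

theorem same_e {c : Finset V → ℕ} {e : V × V} : Same (cc c e) e.1 e.2 :=
  fun _ hX => (cc_zero.1 hX).2

theorem same_down {c : Finset V → ℕ} (hc : IsCut c) {e : V × V} {x y : V}
    (h : Same (cc c e) x y) :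
    Same c x y ∨ (Same c x e.1 ∧ Same c y e.2) ∨ (Same c x e.2 ∧ Same c y e.1) := by
  by_cases hs : Same c x y
  · exact Or.inl hs
  right
  have key : ∀ x y : V, Same (cc c e) x y → ¬ Same c x y →
      ¬ (e.1 ∈ comp c x ↔ e.2 ∈ comp c x) := by
    intro x y h hs h'
    have h1 : cc c e (comp c x) = 0 := cc_zero.2 ⟨hc.comp x, h'⟩
    exact hs (mem_comp.1 ((h _ h1).1 (self_mem_comp x)))
  have k1 := key x y h hs
  have k2 := key y x h.symm (fun h' => hs h'.symm)
  simp only [mem_comp] at k1 k2
  by_cases a1 : Same c x e.1
  · by_cases b1 : Same c y e.1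
    · exact absurd (a1.trans b1.symm) hs
    · have b2 : Same c y e.2 := by
        by_contra h2
        exact k2 ⟨fun h' => absurd h' b1, fun h' => absurd h' h2⟩
      exact Or.inl ⟨a1, b2⟩
  · have a2 : Same c x e.2 := by
      by_contra h2
      exact k1 ⟨fun h' => absurd h' a1, fun h' => absurd h' h2⟩
    by_cases b1 : Same c y e.1
    · exact Or.inr ⟨a2, b1⟩
    · have b2 : Same c y e.2 := by
        by_contra h2
        exact k2 ⟨fun h' => absurd h' b1, fun h' => absurd h' h2⟩
      exact absurd (a2.trans b2.symm) hs

/-- Components without an end of `e` do not change. -/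
theorem comp_same {c : Finset V → ℕ} (hc : IsCut c) {e : V × V} {v : V}
    (h1 : ¬ Same c v e.1) (h2 : ¬ Same c v e.2) : comp (cc c e) v = comp c v := by
  ext w
  rw [mem_comp, mem_comp]
  constructor
  · intro h
    rcases same_down hc h with h | ⟨h, -⟩ | ⟨h, -⟩
    · exact h
    · exact absurd h h1
    · exact absurd h h2
  · exact same_up

open Classical in
/-- The members of `P` whose components have exactly one half-edge. -/
noncomputable def ones (c : Finset V → ℕ) (G : List (V × V)) (P : Finset V) : Finset V :=
  P.filter fun p => hd G (comp c p) = 1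

theorem main : ∀ (n : ℕ) (c : Finset V → ℕ), IsCut c →
    ∀ (G : List (V × V)) (P : Finset V), (∀ p ∈ P, ∀ q ∈ P, Same c p q → p = q) →
    (∀ v, hd G (comp c v) ≤ 2 → ∃ p ∈ P, Same c v p) →
    P.card + (ones c G P).card ≤ n →
    ∃ G0 G1 : List (V × V), G.Perm (G0 ++ G1) ∧ G0.length ≤ n ∧
      ∀ X, c X + gl G0 X = 0 → hd G1 X ≠ 1 := by
  classical
  intro n
  induction n with
  | zero =>
    intro c hc G P hP hG hn
    refine ⟨[], G, List.Perm.refl _, by simp, fun X hX h1 => ?_⟩
    obtain ⟨e, he, hv⟩ := exists_mem (F := G) (C := X) (by omega)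
    have hP0 : P.card = 0 := by omega
    have hcX : c X = 0 := by omega
    obtain ⟨v, hv, hve⟩ : ∃ v ∈ X, v = e.1 ∨ v = e.2 := by
      rcases hv with hv | hv
      · exact ⟨_, hv, Or.inl rfl⟩
      · exact ⟨_, hv, Or.inr rfl⟩
    have h2 := hd_mono G (comp_sub hcX hv)
    obtain ⟨p, hp, -⟩ := hG v (by omega)
    rw [card_eq_zero] at hP0
    simp [hP0] at hp
  | succ n ih =>
    intro c hc G P hP hG hn
    by_cases hone : ∃ p ∈ P, hd G (comp c p) = 1
    swap
    · refine ⟨[], G, List.Perm.refl _, by simp, fun X hX h1 => ?_⟩
      obtain ⟨e, he, hv⟩ := exists_mem (F := G) (C := X) (by omega)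
      have hcX : c X = 0 := by omega
      obtain ⟨v, hv, hve⟩ : ∃ v ∈ X, e.1 = v ∨ e.2 = v := by
        rcases hv with hv | hv
        · exact ⟨_, hv, Or.inl rfl⟩
        · exact ⟨_, hv, Or.inr rfl⟩
      have h2 := hd_mono G (comp_sub hcX hv)
      have h3 : 1 ≤ hd G (comp c v) := by
        refine pos_of_mem he ?_
        rcases hve with h | h
        · left; rw [h]; exact self_mem_comp v
        · right; rw [h]; exact self_mem_comp v
      obtain ⟨p, hp, hsp⟩ := hG v (by omega)
      refine hone ⟨p, hp, ?_⟩
      rw [← comp_eq hsp]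
      omega
    · obtain ⟨p, hp, hp1⟩ := hone
      obtain ⟨e, he, hek⟩ := exists_mem (F := G) (C := comp c p) (by omega)
      set G' := G.erase e with hG'
      have hperm : G.Perm (e :: G') := List.perm_cons_erase he
      have hsum : ∀ C, hd G C = ((if e.1 ∈ C then 1 else 0) + (if e.2 ∈ C then 1 else 0)) +
          hd G' C := fun C => by rw [hd_perm hperm, hd_cons]
      -- the end `a` in the component of `p`, the end `b` outside
      obtain ⟨a, b, hab, hpa, hpb⟩ : ∃ a b, (e = (a, b) ∨ e = (b, a)) ∧ Same c p a ∧
          ¬ Same c p b := by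
        have h1 := hsum (comp c p)
        simp only [mem_comp] at h1 hek
        rcases hek with h | h
        · refine ⟨e.1, e.2, Or.inl rfl, h, fun h' => ?_⟩
          simp only [h, h', if_true] at h1
          omega
        · refine ⟨e.2, e.1, Or.inr rfl, h, fun h' => ?_⟩
          simp only [h, h', if_true] at h1
          omega
      have hsab : Same (cc c e) a b := by
        rcases hab with h | h
        · have := same_e (c := c) (e := e); rw [h] at this ⊢; exact this
        · have := (same_e (c := c) (e := e)).symm; rw [h] at this ⊢; exact this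
      have hdown : ∀ x y, Same (cc c e) x y →
          Same c x y ∨ (Same c x a ∧ Same c y b) ∨ (Same c x b ∧ Same c y a) := by
        intro x y hxy
        have := same_down hc hxy
        rcases hab with h | h
        · rw [h] at this; exact this
        · rw [h] at this
          rcases this with h1 | h1 | h1
          · exact Or.inl h1
          · exact Or.inr (Or.inr h1)
          · exact Or.inr (Or.inl h1)
      have hcomp : ∀ v, ¬ Same c v a → ¬ Same c v b →
          comp (cc c e) v = comp c v ∧ hd G (comp c v) = hd G' (comp c v) := by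
        intro v h1 h2
        have h3 : ¬ Same c v e.1 ∧ ¬ Same c v e.2 := by
          rcases hab with h | h
          · rw [h]; exact ⟨h1, h2⟩
          · rw [h]; exact ⟨h2, h1⟩
        refine ⟨comp_same hc h3.1 h3.2, ?_⟩
        rw [hsum]
        simp only [mem_comp, h3.1, h3.2, if_false]
        omega
      have hsub : ∀ v, comp c v ⊆ comp (cc c e) v := fun v w hw =>
        mem_comp.2 (same_up (mem_comp.1 hw))
      by_cases hq : ∃ q ∈ P, Same c q b
      · obtain ⟨q, hqP, hqb⟩ := hq
        have hqp : q ≠ p := fun h => hpb (h ▸ hqb)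
        have hP' : ∀ x ∈ P.erase p, ∀ y ∈ P.erase p, Same (cc c e) x y → x = y := by
          intro x hx y hy hxy
          rw [mem_erase] at hx hy
          rcases hdown x y hxy with h | ⟨h, -⟩ | ⟨-, h⟩
          · exact hP x hx.2 y hy.2 h
          · exact absurd (hP x hx.2 p hp (h.trans hpa.symm)) hx.1
          · exact absurd (hP y hy.2 p hp (h.trans hpa.symm)) hy.1
        have hG2 : ∀ v, hd G' (comp (cc c e) v) ≤ 2 → ∃ x ∈ P.erase p, Same (cc c e) v x := by
          intro v hv
          by_cases h1 : Same c v a
          · exact ⟨q, mem_erase.2 ⟨hqp, hqP⟩,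
              ((same_up h1).trans hsab).trans (same_up hqb.symm)⟩
          by_cases h2 : Same c v b
          · exact ⟨q, mem_erase.2 ⟨hqp, hqP⟩, same_up (h2.trans hqb.symm)⟩
          obtain ⟨h3, h4⟩ := hcomp v h1 h2
          rw [h3] at hv
          obtain ⟨x, hx, hvx⟩ := hG v (by omega)
          refine ⟨x, mem_erase.2 ⟨?_, hx⟩, same_up hvx⟩
          rintro rfl
          exact h1 (hvx.trans hpa)
        have hcard : (P.erase p).card + (ones (cc c e) G' (P.erase p)).card ≤ n := by
          have h1 : (P.erase p).card + 1 = P.card := card_erase_add_one hp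
          have h2 : ones (cc c e) G' (P.erase p) ⊆ insert q ((ones c G P).erase p) := by
            intro x hx
            unfold ones at hx ⊢
            rw [mem_filter, mem_erase] at hx
            obtain ⟨⟨hx1, hx2⟩, hx3⟩ := hx
            by_cases hxb : Same c x b
            · rw [hP x hx2 q hqP (hxb.trans hqb.symm)]
              exact mem_insert_self _ _
            · have hxa : ¬ Same c x a := fun h => hx1 (hP x hx2 p hp (h.trans hpa.symm))
              obtain ⟨h3, h4⟩ := hcomp x hxa hxb
              rw [h3] at hx3
              refine mem_insert_of_mem (mem_erase.2 ⟨hx1, mem_filter.2 ⟨hx2, ?_⟩⟩)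
              omega
          have h3 : p ∈ ones c G P := by
            unfold ones
            exact mem_filter.2 ⟨hp, hp1⟩
          have h4 := card_le_card h2
          have h5 := card_insert_le q ((ones c G P).erase p)
          have h6 := card_erase_add_one h3
          omega
        obtain ⟨G0, G1, hp3, hl, hX⟩ := ih (cc c e) (cut_cc hc e) G' (P.erase p) hP' hG2 hcard
        refine ⟨e :: G0, G1, hperm.trans (by simpa using hp3.cons e), by simpa using hl, ?_⟩
        intro X h
        refine hX X ?_
        unfold cc
        rw [gl_one]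
        rw [gl_cons] at h
        omega
      · have hP' : ∀ x ∈ P, ∀ y ∈ P, Same (cc c e) x y → x = y := by
          intro x hx y hy hxy
          rcases hdown x y hxy with h | ⟨-, h⟩ | ⟨h, -⟩
          · exact hP x hx y hy h
          · exact absurd ⟨y, hy, h⟩ hq
          · exact absurd ⟨x, hx, h⟩ hq
        have hG2 : ∀ v, hd G' (comp (cc c e) v) ≤ 2 → ∃ x ∈ P, Same (cc c e) v x := by
          intro v hv
          by_cases h1 : Same c v a
          · exact ⟨p, hp, same_up (h1.trans hpa.symm)⟩
          by_cases h2 : Same c v b
          · exact ⟨p, hp, ((same_up h2).trans hsab.symm).trans (same_up hpa.symm)⟩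
          obtain ⟨h3, h4⟩ := hcomp v h1 h2
          rw [h3] at hv
          obtain ⟨x, hx, hvx⟩ := hG v (by omega)
          exact ⟨x, hx, same_up hvx⟩
        have hcard : P.card + (ones (cc c e) G' P).card ≤ n := by
          have h2 : ones (cc c e) G' P ⊆ (ones c G P).erase p := by
            intro x hx
            unfold ones at hx ⊢
            rw [mem_filter] at hx
            obtain ⟨hx2, hx3⟩ := hx
            have hxb : ¬ Same c x b := fun h => hq ⟨x, hx2, h⟩
            by_cases hxp : x = p
            · exfalso
              subst hxp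
              have h3 : 3 ≤ hd G (comp c b) := by
                by_contra h4
                obtain ⟨y, hy, hby⟩ := hG b (by omega)
                exact hq ⟨y, hy, hby.symm⟩
              have h4 : hd G (comp c b) ≤ 1 + hd G' (comp c b) := by
                have hna : ¬ Same c b a := fun h => hpb (hpa.trans h.symm)
                rw [hsum]
                simp only [mem_comp]
                rcases hab with h | h
                · rw [h]
                  simp only [hna, if_false]
                  split_ifs <;> omega
                · rw [h]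
                  simp only [hna, if_false]
                  split_ifs <;> omega
              have h5 : comp c b ⊆ comp (cc c e) x := by
                intro w hw
                exact mem_comp.2 (((same_up hpa).trans hsab).trans (same_up (mem_comp.1 hw)))
              have h6 := hd_mono G' h5
              omega
            · have hxa : ¬ Same c x a := fun h => hxp (hP x hx2 p hp (h.trans hpa.symm))
              obtain ⟨h3, h4⟩ := hcomp x hxa hxb
              rw [h3] at hx3
              refine mem_erase.2 ⟨hxp, mem_filter.2 ⟨hx2, ?_⟩⟩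
              omega
          have h3 : p ∈ ones c G P := by
            unfold ones
            exact mem_filter.2 ⟨hp, hp1⟩
          have h4 := card_le_card h2
          have h6 := card_erase_add_one h3
          omega
        obtain ⟨G0, G1, hp3, hl, hX⟩ := ih (cc c e) (cut_cc hc e) G' P hP' hG2 hcard
        refine ⟨e :: G0, G1, hperm.trans (by simpa using hp3.cons e), by simpa using hl, ?_⟩
        intro X h
        refine hX X ?_
        unfold cc
        rw [gl_one]
        rw [gl_cons] at h
        omega

end X_POT

/-- Block POT. -/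
theorem stmt_POT : Stmt_POT := by
  intro V _ _ c hc G P hP hG
  refine X_POT.main (2 * P.card) c hc G P hP hG ?_
  have : (X_POT.ones c G P).card ≤ P.card := by
    unfold X_POT.ones
    exact card_filter_le _ _
  omega

end Pool.AUGS
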