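import Pool.Agent.Work.MP_2183d4_sm.Interface2

/-!
# Block RMC: removing one copy
-/

set_option autoImplicit false

namespace Pool.AUGS.RMC

theorem split_len (u : ℕ) (L : List ℕ) :
    (L.filter fun v => !(decide (v = u))).length + (L.filter fun v => decide (v = u)).length =
      L.length := by
  induction L with
  | nil => rfl
  | cons a L ih =>
    by_cases h : a = u
    · simp [h] at ih ⊢
      omega
    · simp [h] at ih ⊢
      omega

end Pool.AUGS.RMC

namespace Pool.AUGS

open Pool.AUGS.Alg

theorem stmt_RMC : Stmt_RMC := by
  intro u L hu
  have h1 := RMC.split_len u L
  have h2 : 0 < (L.filter fun v => decide (v = u)).length :=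
    List.length_pos_of_mem (List.mem_filter.2 ⟨hu, by simp⟩)
  refine ⟨?_, ?_, ?_⟩
  · unfold rm
    rw [List.length_append, List.length_drop]
    omega
  · intro v hv
    unfold rm at hv
    rcases List.mem_append.1 hv with h | h
    · exact (List.mem_filter.1 h).1
    · exact (List.mem_filter.1 (List.mem_of_mem_drop h)).1
  · intro w
    have hrep : (L.filter fun v => decide (v = u)) = List.replicate (L.count u) u := by
      have h3 : (L.filter fun v => decide (v = u)) = L.filter (· == u) := by
        apply List.filter_congr
        intro x _
        rfl
      rw [h3, List.filter_beq]
    unfold rm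
    rw [List.count_append, hrep, List.drop_replicate, List.count_replicate]
    by_cases hw : w = u
    · subst hw
      have h4 : (L.filter fun v => !(decide (v = w))).count w = 0 := by
        rw [List.count_eq_zero]
        intro h
        simp at h
      rw [h4]
      simp
    · have h4 : (L.filter fun v => !(decide (v = u))).count w = L.count w := by
        rw [List.count_filter]
        simp [hw]
      rw [h4]
      have h5 : ¬ (u = w) := fun h => hw h.symm
      simp [hw, h5]

end Pool.AUGS
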