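import Pool.Agent.Work.MP_2183d4_sm.Interface2

/-!
# Block RST: the start of the greedy algorithm
-/

set_option autoImplicit false

namespace Pool.AUGS.RST

open Pool.AUG Pool.AUG.Alg Pool.AUGS.Alg

theorem count_flat (n : ℕ) (f : ℕ → ℕ) (v : ℕ) (hv : v < n) :
    ((List.range n).flatMap fun w => List.replicate (f w) w).count v = f v := by
  induction n with
  | zero => omega
  | succ n ih =>
    rw [List.range_succ, List.flatMap_append, List.count_append]
    simp only [List.flatMap_cons, List.flatMap_nil, List.append_nil]
    by_cases h : v = n
    · subst h
      have h1 : ((List.range v).flatMap fun w => List.replicate (f w) w).count v = 0 := by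
        rw [List.count_eq_zero]
        intro h
        rw [List.mem_flatMap] at h
        obtain ⟨w, hw, hv⟩ := h
        rw [List.mem_replicate] at hv
        have := List.mem_range.1 hw
        omega
      rw [h1, List.count_replicate]
      simp
    · rw [ih (by omega), List.count_replicate]
      have h2 : ¬ (n = v) := fun h' => h h'.symm
      simp [h2]

theorem rq_le (M : List (List ℕ)) (x y : ℕ) : rq M x y ≤ bigN M := by
  unfold rq
  have key : ∀ row ∈ M, ∀ t ∈ row, t ≤ bigN M := by
    intro row hr t ht
    unfold bigN
    have h1 : (List.range t).Sublist (row.flatMap fun t => List.range t) := by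
      obtain ⟨a, b, rfl⟩ := List.append_of_mem ht
      rw [List.flatMap_append, List.flatMap_cons]
      exact (List.sublist_append_left _ _).trans (List.sublist_append_right _ _)
    have h2 : (row.flatMap fun t => List.range t).Sublist
        (M.flatMap fun row => row.flatMap fun t => List.range t) := by
      obtain ⟨a, b, rfl⟩ := List.append_of_mem hr
      rw [List.flatMap_append, List.flatMap_cons]
      exact (List.sublist_append_left _ _).trans (List.sublist_append_right _ _)
    have h3 := (h1.trans h2).length_le
    rwa [List.length_range] at h3
  by_cases hx : x < M.length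
  · rw [List.getD_eq_getElem _ _ hx]
    by_cases hy : y < (M[x]).length
    · rw [List.getD_eq_getElem _ _ hy]
      exact key _ (List.getElem_mem hx) _ (List.getElem_mem hy)
    · rw [List.getD_eq_default _ _ (by omega)]
      exact Nat.zero_le _
  · rw [List.getD_eq_default M _ (by omega)]
    simp

theorem rst_eq (n : ℕ) (es M : List (List ℕ)) (Z : List ℕ) :
    rst n es M Z = (List.range n).flatMap fun v =>
      List.replicate (bif Z.any (fun z => conS es z v) then 0 else bigN M) v := by
  unfold rst
  congr 1
  funext v
  cases Z.any (fun z => conS es z v)
  · simp only [cond_false]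
    rw [List.map_const', List.length_range]
  · simp

end Pool.AUGS.RST

namespace Pool.AUGS

open Pool.AUG Pool.AUG.Alg Pool.AUGS.Alg

theorem stmt_RST : Stmt_RST := by
  intro n es M Z
  rw [RST.rst_eq]
  constructor
  · intro v hv
    rw [List.mem_flatMap] at hv
    obtain ⟨w, hw, h⟩ := hv
    rw [List.mem_replicate] at h
    obtain ⟨h1, rfl⟩ := h
    refine ⟨List.mem_range.1 hw, fun hz => ?_⟩
    obtain ⟨z, hz, hz2⟩ := hz
    have h2 : Z.any (fun z => conS es z v) = true := List.any_eq_true.2 ⟨z, hz, hz2⟩
    rw [h2] at h1
    exact h1 rfl
  · intro v hv x y
    have h2 : Z.any (fun z => conS es z v.val) = false := by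
      rw [Bool.eq_false_iff]
      intro h
      rw [List.any_eq_true] at h
      exact hv h
    unfold ct
    rw [RST.count_flat n _ v.val v.2, h2]
    exact RST.rq_le M x y

end Pool.AUGS
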