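import Pool.Agent.Work.MP_2183d4_sm.Interface2
import Pool.Agent.Work.MP_2183d4_pt.B_SCF

/-! # Block SMF (helper54): small facts on `ddp`, `sml`, `cE` -/

set_option autoImplicit false

namespace Pool.AUGS

open Finset Pool.AUG Pool.AUG.Alg Pool.AUGS.Alg

namespace SMF

theorem memB_iff (x : ℕ) (S : List ℕ) : memB x S = true ↔ x ∈ S := by
  unfold memB
  rw [List.any_eq_true]
  constructor
  · rintro ⟨u, hu, h⟩
    have h' : u = x := by simpa using h
    exact h' ▸ hu
  · intro h
    exact ⟨x, h, by simp⟩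

theorem foldl_ddp (e : List ℕ) : ∀ S : List ℕ, S.Nodup →
    (e.foldl (fun S v => bif memB v S then S else S ++ [v]) S).Nodup ∧
    ∀ x, x ∈ e.foldl (fun S v => bif memB v S then S else S ++ [v]) S ↔ x ∈ S ∨ x ∈ e := by
  induction e with
  | nil => intro S hS; exact ⟨hS, fun x => by simp⟩
  | cons a e ih =>
    intro S hS
    rw [List.foldl_cons]
    by_cases h : a ∈ S
    · have h1 : memB a S = true := (memB_iff a S).2 h
      rw [h1, cond_true]
      refine ⟨(ih S hS).1, fun x => ?_⟩
      rw [(ih S hS).2 x, List.mem_cons]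
      constructor
      · rintro (h2 | h2)
        · exact Or.inl h2
        · exact Or.inr (Or.inr h2)
      · rintro (h2 | rfl | h2)
        · exact Or.inl h2
        · exact Or.inl h
        · exact Or.inr h2
    · have h1 : memB a S = false := by
        rw [Bool.eq_false_iff]
        exact fun h' => h ((memB_iff a S).1 h')
      rw [h1, cond_false]
      have hS' : (S ++ [a]).Nodup := by
        rw [List.nodup_append]
        refine ⟨hS, by simp, ?_⟩
        intro b hb c hc hbc
        rw [List.mem_singleton] at hc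
        exact h (hc ▸ hbc ▸ hb)
      refine ⟨(ih _ hS').1, fun x => ?_⟩
      rw [(ih _ hS').2 x, List.mem_append, List.mem_singleton, List.mem_cons, or_assoc]

theorem ddp_nodup (e : List ℕ) : (ddp e).Nodup := (foldl_ddp e [] List.nodup_nil).1

theorem mem_ddp (e : List ℕ) (x : ℕ) : x ∈ ddp e ↔ x ∈ e := by
  have h : x ∈ ddp e ↔ x ∈ ([] : List ℕ) ∨ x ∈ e := (foldl_ddp e [] List.nodup_nil).2 x
  rw [h]
  simp

theorem ddp_length (e : List ℕ) : (ddp e).length = e.toFinset.card := by
  rw [← List.toFinset_card_of_nodup (ddp_nodup e)]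
  congr 1
  ext x
  rw [List.mem_toFinset, List.mem_toFinset, mem_ddp]

theorem edg_small (F : List (ℕ × ℕ)) : ∀ e ∈ edg F, (ddp e).length ≤ 3 := by
  intro e he
  unfold edg at he
  rw [List.mem_map] at he
  obtain ⟨p, _, rfl⟩ := he
  rw [ddp_length]
  exact (List.toFinset_card_le _).trans (by simp)

theorem sml_append (es : List (List ℕ)) (F : List (ℕ × ℕ)) :
    sml (es ++ edg F) = sml es ++ edg F := by
  unfold sml
  rw [List.filter_append]
  congr 1
  rw [List.filter_eq_self]
  intro e he
  simpa using edg_small F e he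

theorem sml_vs (n : ℕ) (es : List (List ℕ)) (h : Vs n es) : Vs n (sml es) := by
  intro e he
  unfold sml at he
  exact h e (List.mem_filter.1 he).1

theorem cE_add (n : ℕ) (es : List (List ℕ)) (F : List (Fin n × Fin n)) (X : Finset (Fin n)) :
    cE n (es ++ edg (mapF F)) X = cE n es X + gl F X :=
  Pool.AUG.SCF.cF_add (n, es, []) F X

theorem vs_add (n : ℕ) (es : List (List ℕ)) (F : List (Fin n × Fin n)) (h : Vs n es) :
    Vs n (es ++ edg (mapF F)) := by
  intro e he v hv
  rw [List.mem_append] at he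
  rcases he with he | he
  · exact h e he v hv
  · unfold edg mapF at he
    rw [List.mem_map] at he
    obtain ⟨p, hp, rfl⟩ := he
    rw [List.mem_map] at hp
    obtain ⟨q, _, rfl⟩ := hp
    simp only [List.mem_cons, List.not_mem_nil, or_false] at hv
    rcases hv with rfl | rfl
    · exact q.1.2
    · exact q.2.2

theorem isCut (n : ℕ) (es : List (List ℕ)) (hI : Vs n es) : IsCut (cE n es) := by
  refine ⟨?_, ?_, ?_⟩
  · show cutB es (sF n ∅) = 0
    rw [← Pool.AUG.SCF.cutB_const es]
    exact Pool.AUG.SCF.cutB_congr fun e he v hv => by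
      rw [Pool.AUG.SCF.sF_lt _ (hI e he v hv)]
      simp
  · intro X
    show cutB es (sF n Xᶜ) = cutB es (sF n X)
    rw [← Pool.AUG.SCF.cutB_compl (sF n X)]
    exact Pool.AUG.SCF.cutB_congr fun e he v hv => by
      rw [Pool.AUG.SCF.sF_lt _ (hI e he v hv), Pool.AUG.SCF.sF_lt _ (hI e he v hv)]
      simp
  · intro C hC Y
    have h := Pool.AUG.SCF.cutB_split (sF n C) (sF n Y) es hC
    show cutB es (sF n Y) = cutB es (sF n (Y ∩ C)) + cutB es (sF n (Y \ C))
    rw [h]
    congr 1
    · exact Pool.AUG.SCF.cutB_congr fun e he v hv => by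
        rw [Pool.AUG.SCF.sF_lt _ (hI e he v hv), Pool.AUG.SCF.sF_lt _ (hI e he v hv),
          Pool.AUG.SCF.sF_lt _ (hI e he v hv)]
        simp
    · exact Pool.AUG.SCF.cutB_congr fun e he v hv => by
        rw [Pool.AUG.SCF.sF_lt _ (hI e he v hv), Pool.AUG.SCF.sF_lt _ (hI e he v hv),
          Pool.AUG.SCF.sF_lt _ (hI e he v hv)]
        simp

end SMF

theorem stmt_SMF : Stmt_SMF :=
  ⟨SMF.ddp_length, SMF.sml_append, SMF.sml_vs, SMF.cE_add,
    fun n es F h => SMF.vs_add n es F h, SMF.isCut⟩

end Pool.AUGS
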