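import Pool.Agent.Work.MP_2183d4_sm.Interface2
import Pool.Agent.Work.MP_2183d4_pt.B_SLI
import Pool.Agent.Work.MP_2183d4_pt.B_STR

set_option autoImplicit false

/-! # SOL: the algorithm is correct -/

namespace Pool.AUGS

open Finset Pool.AUG Pool.AUG.Alg Pool.AUGS.Alg

namespace SOL

theorem mem_cands (b : ℕ) (I : Ins) (F1 : List (Fin I.1 × Fin I.1)) (Z L0 : List ℕ)
    (h1 : F1.length ≤ b) (h2 : Z.length ≤ b) (h3 : L0.length ≤ b) (h4 : ∀ v ∈ Z, v < I.1)
    (h5 : ∀ v ∈ L0, v < I.1) : build I (mapF F1) Z L0 ∈ cands b I := by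
  unfold cands
  rw [List.mem_flatMap]
  refine ⟨mapF F1, (SLI_all b I.1 _).2 ⟨?_, ?_⟩, ?_⟩
  · unfold mapF
    rw [List.length_map]
    exact h1
  · intro e he
    unfold mapF at he
    rw [List.mem_map] at he
    obtain ⟨a, _, rfl⟩ := he
    exact ⟨a.1.2, a.2.2⟩
  · rw [List.mem_flatMap]
    refine ⟨Z.map fun v => (v, v), (SLI_all b I.1 _).2 ⟨?_, ?_⟩, ?_⟩
    · rw [List.length_map]
      exact h2
    · intro e he
      rw [List.mem_map] at he
      obtain ⟨v, hv, rfl⟩ := he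
      exact ⟨h4 v hv, h4 v hv⟩
    · rw [List.mem_map]
      refine ⟨L0.map fun v => (v, v), (SLI_all b I.1 _).2 ⟨?_, ?_⟩, ?_⟩
      · rw [List.length_map]
        exact h3
      · intro e he
        rw [List.mem_map] at he
        obtain ⟨v, hv, rfl⟩ := he
        exact ⟨h5 v hv, h5 v hv⟩
      · rw [List.map_map, List.map_map]
        have h6 : (Prod.fst ∘ fun v : ℕ => (v, v)) = id := rfl
        rw [h6, List.map_id, List.map_id]

theorem cands_noloop (b : ℕ) (I : Ins) (G : List (ℕ × ℕ)) (h : G ∈ cands b I) :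
    ∀ e ∈ G, e.1 ≠ e.2 := by
  unfold cands at h
  rw [List.mem_flatMap] at h
  obtain ⟨F1, _, h⟩ := h
  rw [List.mem_flatMap] at h
  obtain ⟨F2, _, h⟩ := h
  rw [List.mem_map] at h
  obtain ⟨F3, _, rfl⟩ := h
  intro e he
  unfold build at he
  rw [List.mem_filter] at he
  simpa using he.2

end SOL

theorem stmt_SOL (hCNT : Stmt_CNT) (hBLD : Stmt_BLD) (hGOD : Stmt_GOD) (hBST : Stmt_BST) :
    Stmt_SOL := by
  intro I c N hV hS hE hopt
  obtain ⟨F1, Z, L0, μ, h1, h2, h3, h4, h5, h6, h7, h8, h9, h10, h11⟩ := hCNT I c N hV hS hE hopt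
  obtain ⟨G, hG1, hG2, hG3, hG4⟩ := hBLD I F1 Z L0 μ hV hS h5 h7 h8 h9 h10 h11
  obtain ⟨god1, god2⟩ := hGOD I hV hS
  have hmem : mapF G ∈ (cands (10 * c) I).filter fun G => goodG I G := by
    rw [List.mem_filter]
    refine ⟨?_, (god1 G).2 hG3⟩
    rw [← hG1]
    exact SOL.mem_cands _ I F1 Z L0 h1 h2 h3 h4 h5
  obtain ⟨b1, b2⟩ := hBST ((cands (10 * c) I).filter fun G => goodG I G)
    (List.ne_nil_of_mem hmem)
  rw [List.mem_filter] at b1
  obtain ⟨G', hG'⟩ := god2 _ b1.2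
  have hok : Ok (cE I.1 I.2.1) (rE I.1 I.2.2) G' := by
    rw [← god1, ← hG']
    exact b1.2
  refine ⟨G', hG', ?_, hok, ?_⟩
  · intro e he hee
    have h12 := SOL.cands_noloop _ I _ b1.1 (e.1.val, e.2.val) (by
      rw [hG']
      unfold mapF
      rw [List.mem_map]
      exact ⟨e, he, rfl⟩)
    exact h12 (congrArg Fin.val hee)
  · have h13 := b2 _ hmem
    rw [hG'] at h13
    unfold mapF at h13
    rw [List.length_map, List.length_map] at h13
    have h14 := hopt.2 G' hok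
    omega

end Pool.AUGS
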