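import Pool.Agent.Work.MP_2183d4_sm.Interface2
import Pool.Agent.Work.MP_2183d4_pt.B_SLI

/-!
# Block SPL: the whole splitting
-/

set_option autoImplicit false

namespace Pool.AUGS

open Finset Pool.AUG Pool.AUG.Alg Pool.AUGS.Alg

namespace SPLaux

theorem memB_iff (x : ℕ) (S : List ℕ) : memB x S = true ↔ x ∈ S := by
  unfold memB
  rw [List.any_eq_true]
  simp

theorem edg_snoc (F : List (ℕ × ℕ)) (q : ℕ × ℕ) : edg (F ++ [q]) = edg F ++ [[q.1, q.2]] := by
  simp [edg]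

theorem mapF_snoc {n : ℕ} (G : List (Fin n × Fin n)) (e : Fin n × Fin n) :
    mapF (G ++ [e]) = mapF G ++ [(e.1.val, e.2.val)] := by
  simp [mapF]

/-- The invariant after `j` steps. -/
def Inv (n : ℕ) (es M : List (List ℕ)) (L : List ℕ) (j : ℕ) (s : List (ℕ × ℕ) × List ℕ) : Prop :=
  ∃ G : List (Fin n × Fin n), s.1 = mapF G ∧ (∀ v ∈ s.2, v < n) ∧
    FeasM (cE n (es ++ edg (mapF G))) (rE n M) (ct n s.2) ∧
    NoOne n (es ++ edg (mapF G)) (ct n s.2) ∧ Even s.2.length ∧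
    2 * G.length + s.2.length = L.length ∧ s.2.length ≤ L.length - 2 * j

theorem step (hSPN : Stmt_SPN) (hFEA : Stmt_FEA) (hONB : Stmt_ONB) (hRMC : Stmt_RMC)
    (hSMF : Stmt_SMF) {n : ℕ} {es M : List (List ℕ)} {L : List ℕ} (hV : Vs n es) (hS : Sy n M)
    {j : ℕ} {s : List (ℕ × ℕ) × List ℕ} (h : Inv n es M L j s) :
    Inv n es M L (j + 1) (sps n es M s) := by
  obtain ⟨G, h1, h2, h3, h4, h5, h6, h7⟩ := h
  obtain ⟨-, -, -, -, m5, -⟩ := hSMF
  unfold sps
  by_cases hne : s.2 = []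
  · have hc : cnd n es M s = [] := by
      unfold cnd
      rw [List.filter_eq_nil_iff]
      intro p _
      unfold okp
      rw [hne]
      simp [memB]
    rw [hc]
    simp only [List.isEmpty_nil, cond_true]
    refine ⟨G, h1, h2, h3, h4, h5, h6, ?_⟩
    rw [hne]
    simp
  · have hVG : Vs n (es ++ edg (mapF G)) := m5 n es G hV
    obtain ⟨p, hp, hpo⟩ := hSPN n (es ++ edg (mapF G)) M s.2 hVG hS h2 h3 h4 h5 hne
    have hpc : p ∈ cnd n es M s := by
      unfold cnd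
      rw [List.mem_filter, h1]
      exact ⟨hp, hpo⟩
    have hcne : cnd n es M s ≠ [] := List.ne_nil_of_mem hpc
    obtain ⟨q, C, hC⟩ := List.exists_cons_of_ne_nil hcne
    have hq : q ∈ cnd n es M s := by rw [hC]; simp
    rw [hC]
    simp only [List.isEmpty_cons, cond_false, List.headD_cons]
    unfold cnd at hq
    rw [List.mem_filter, SLI_prs, h1] at hq
    obtain ⟨⟨hq1, hq2⟩, hqo⟩ := hq
    unfold okp at hqo
    simp only [Bool.and_eq_true, memB_iff] at hqo
    obtain ⟨o1, o2, o3, o4⟩ := hqo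
    have r1 := hRMC q.1 s.2 o1
    have r2 := hRMC q.2 (rm q.1 s.2) o2
    have hlt : ∀ v ∈ rm q.2 (rm q.1 s.2), v < n := fun v hv => h2 v (r1.2.1 v (r2.2.1 v hv))
    have hE : es ++ edg (mapF (G ++ [((⟨q.1, hq1⟩ : Fin n), (⟨q.2, hq2⟩ : Fin n))])) =
        es ++ edg (mapF G) ++ [[q.1, q.2]] := by
      rw [mapF_snoc, edg_snoc, List.append_assoc]
    have hVG' := m5 n es (G ++ [((⟨q.1, hq1⟩ : Fin n), (⟨q.2, hq2⟩ : Fin n))]) hV
    rw [hE] at hVG'
    refine ⟨G ++ [((⟨q.1, hq1⟩ : Fin n), (⟨q.2, hq2⟩ : Fin n))], ?_, hlt, ?_, ?_, ?_, ?_, ?_⟩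
    · rw [mapF_snoc, h1]
    · rw [hE]
      exact (hFEA n _ M _ hVG' hS hlt).1 o3
    · rw [hE]
      exact (hONB n _ _ hVG' hlt).1 o4
    · show Even (rm q.2 (rm q.1 s.2)).length
      rw [Nat.even_iff] at h5 ⊢
      omega
    · show 2 * (G ++ [_]).length + (rm q.2 (rm q.1 s.2)).length = L.length
      rw [List.length_append, List.length_singleton]
      omega
    · show (rm q.2 (rm q.1 s.2)).length ≤ L.length - 2 * (j + 1)
      omega

theorem iter (hSPN : Stmt_SPN) (hFEA : Stmt_FEA) (hONB : Stmt_ONB) (hRMC : Stmt_RMC)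
    (hSMF : Stmt_SMF) {n : ℕ} {es M : List (List ℕ)} {L : List ℕ} (hV : Vs n es) (hS : Sy n M)
    {s : List (ℕ × ℕ) × List ℕ} (h : Inv n es M L 0 s) (j : ℕ) :
    Inv n es M L j ((List.range j).foldl (fun s _ => sps n es M s) s) := by
  induction j with
  | zero => exact h
  | succ j ih =>
    rw [List.range_succ, List.foldl_append]
    exact step hSPN hFEA hONB hRMC hSMF hV hS ih

end SPLaux

open SPLaux in
theorem stmt_SPL (hSPN : Stmt_SPN) (hFEA : Stmt_FEA) (hONB : Stmt_ONB) (hRMC : Stmt_RMC)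
    (hSMF : Stmt_SMF) : Stmt_SPL := by
  intro n es M L hV hS hL hF hN hE
  have h0 : Inv n es M L 0 ([], L) := by
    refine ⟨[], rfl, hL, ?_, ?_, hE, ?_, ?_⟩
    · have : es ++ edg (mapF ([] : List (Fin n × Fin n))) = es := by simp [edg, mapF]
      rw [this]
      exact hF
    · have : es ++ edg (mapF ([] : List (Fin n × Fin n))) = es := by simp [edg, mapF]
      rw [this]
      exact hN
    · simp
    · simp
  obtain ⟨G, g1, -, g3, -, -, g6, g7⟩ := iter hSPN hFEA hONB hRMC hSMF hV hS h0 L.length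
  refine ⟨G, g1, by omega, ?_⟩
  have hnil : ((List.range L.length).foldl (fun s _ => sps n es M s) (([] : List (ℕ × ℕ)), L)).2 =
      [] := by
    rw [← List.length_eq_zero_iff]
    omega
  intro X x y hx hy
  have := g3 X x y hx hy
  rw [hnil, hSMF.2.2.2.1 n es G X] at this
  simpa [ct] using this

end Pool.AUGS
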