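import Pool.Agent.Work.MP_2183d4_sm.Interface2
import Pool.Agent.Work.MP_2183d4_lc_66.REQ

/-! # Block SPN (helper38): a pair which can be split off -/

set_option autoImplicit false

namespace Pool.AUGS

open Finset Pool.AUG Pool.AUG.Alg Pool.AUGS.Alg
open Pool.Agent.Work.MP_2183d4_lc_66 (cut req)
open Pool.Agent.Work.MP_2183d4_add (F Rq)

namespace SPN

theorem memB_iff (x : ℕ) (S : List ℕ) : memB x S = true ↔ x ∈ S := by
  unfold memB
  rw [List.any_eq_true]
  constructor
  · rintro ⟨u, hu, h⟩
    rw [decide_eq_true_eq] at h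
    exact h ▸ hu
  · intro h
    exact ⟨x, h, by simp⟩

theorem sum_ct (n : ℕ) (L : List ℕ) (hL : ∀ v ∈ L, v < n) : ∑ v, ct n L v = L.length := by
  induction L with
  | nil => simp [ct]
  | cons a L ih =>
    have ha : a < n := hL a (by simp)
    have h1 : ∀ v : Fin n, ct n (a :: L) v = ct n L v + (if v = ⟨a, ha⟩ then 1 else 0) := by
      intro v
      unfold ct
      rw [List.count_cons]
      congr 1
      by_cases h : v = ⟨a, ha⟩
      · rw [if_pos h, h]; simp
      · rw [if_neg h, if_neg]
        intro h2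
        apply h
        rw [beq_iff_eq] at h2
        exact Fin.ext h2.symm
    simp only [h1]
    rw [Finset.sum_add_distrib, ih (fun v hv => hL v (List.mem_cons_of_mem _ hv))]
    simp

theorem mem_of_ct {n : ℕ} {L : List ℕ} {v : Fin n} (h : 0 < ct n L v) : v.val ∈ L :=
  List.count_pos_iff.1 h

theorem prs_mem {n : ℕ} (u v : Fin n) : (u.val, v.val) ∈ prs n := by
  unfold prs
  rw [List.mem_flatMap]
  refine ⟨u.val, List.mem_range.2 u.isLt, ?_⟩
  rw [List.mem_map]
  exact ⟨v.val, List.mem_range.2 v.isLt, rfl⟩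

end SPN

open SPN in
/-- SPN (helper38) -/
theorem stmt_SPN : Stmt_STP → Stmt_HFM → Stmt_FEA → Stmt_ONB → Stmt_RMC → Stmt_SMF →
    Stmt_SPN := by
  intro hSTP hHFM hFEA hONB hRMC hSMF n es M L hV hS hL hfeas hone heven hne
  classical
  obtain ⟨-, hsml, -, hcE, hVs, -⟩ := hSMF
  obtain ⟨H, hcut, hcl⟩ := hHFM n es hV
  have hRq : Rq (req (rE n M)) :=
    ⟨Pool.Agent.Work.MP_2183d4_lc_66.REQ.req_empty _,
      Pool.Agent.Work.MP_2183d4_lc_66.REQ.req_compl _ hS,
      Pool.Agent.Work.MP_2183d4_lc_66.REQ.req_union _⟩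
  have hF : ∀ X, F H (ct n L) X = cE n es X + ∑ v ∈ X, ct n L v := fun X => by
    unfold F; rw [hcut X]
  have hlen : 0 < L.length := List.length_pos_iff.2 hne
  obtain ⟨u, v, hu, hv, huv, hX1, hX2⟩ := hSTP (Fin n) (Fin es.length) H (ct n L) (req (rE n M))
    hRq (fun X => by
      apply Pool.Agent.Work.MP_2183d4_lc_66.REQ.req_le
      intro x hx y hy
      rw [hF X]
      exact hfeas X x y hx hy)
    (fun X hX => hone X ((hcl X).1 hX)) (by rwa [sum_ct n L hL]) (by rwa [sum_ct n L hL])
  -- the lists
  have huL : u.val ∈ L := mem_of_ct hu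
  obtain ⟨-, hm1, hc1⟩ := hRMC u.val L huL
  have hvL1 : v.val ∈ rm u.val L := by
    apply List.count_pos_iff.1
    rw [hc1]
    unfold ct at hv
    by_cases h : v = u
    · have h2 := huv h.symm
      unfold ct at h2
      rw [if_pos (by rw [h]), h]
      omega
    · rw [if_neg (fun h' => h (Fin.ext h'))]
      omega
  obtain ⟨-, hm2, hc2⟩ := hRMC v.val (rm u.val L) hvL1
  set L' := rm v.val (rm u.val L) with hL'
  have hL'n : ∀ w ∈ L', w < n := fun w hw => hL w (hm1 w (hm2 w hw))
  have hct : ∀ w, ct n L' w + (if w = u then 1 else 0) + (if w = v then 1 else 0) = ct n L w := by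
    intro w
    have e1 := hc1 w.val
    have e2 := hc2 w.val
    have hposu : w = u → 0 < List.count w.val L := fun h => by rw [h]; exact hu
    have hposv : w = v → 0 < List.count w.val (rm u.val L) := fun h => by
      rw [h]; exact List.count_pos_iff.2 hvL1
    have i1 : (if w.val = u.val then 1 else 0) = (if w = u then 1 else 0) := by
      by_cases h : w = u
      · rw [if_pos h, if_pos (by rw [h])]
      · rw [if_neg h, if_neg (fun h' => h (Fin.ext h'))]
    have i2 : (if w.val = v.val then 1 else 0) = (if w = v then 1 else 0) := by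
      by_cases h : w = v
      · rw [if_pos h, if_pos (by rw [h])]
      · rw [if_neg h, if_neg (fun h' => h (Fin.ext h'))]
    rw [i1] at e1
    rw [i2] at e2
    show List.count w.val L' + (if w = u then 1 else 0) + (if w = v then 1 else 0) =
      List.count w.val L
    by_cases h1 : w = u
    · by_cases h2 : w = v
      · have := hposu h1
        have := hposv h2
        rw [if_pos h1] at e1 ⊢
        rw [if_pos h2] at e2 ⊢
        omega
      · have := hposu h1
        rw [if_pos h1] at e1 ⊢
        rw [if_neg h2] at e2 ⊢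
        omega
    · by_cases h2 : w = v
      · have := hposv h2
        rw [if_neg h1] at e1 ⊢
        rw [if_pos h2] at e2 ⊢
        omega
      · rw [if_neg h1] at e1 ⊢
        rw [if_neg h2] at e2 ⊢
        omega
  have hsum : ∀ X : Finset (Fin n), ∑ w ∈ X, ct n L' w + (if u ∈ X then 1 else 0) +
      (if v ∈ X then 1 else 0) = ∑ w ∈ X, ct n L w := by
    intro X
    rw [← Finset.sum_congr rfl (fun w _ => hct w), Finset.sum_add_distrib,
      Finset.sum_add_distrib, Finset.sum_ite_eq' X u, Finset.sum_ite_eq' X v]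
  have hgl : ∀ X : Finset (Fin n), gl [(u, v)] X = cr (u, v) X := fun X => by
    rw [gl_cons, gl_nil, zero_add]
  have hes : es ++ [[u.val, v.val]] = es ++ edg (mapF [(u, v)]) := rfl
  refine ⟨(u.val, v.val), prs_mem u v, ?_⟩
  have hVs' : Vs n (es ++ [[u.val, v.val]]) := by
    rw [hes]; exact hVs n es [(u, v)] hV
  unfold okp
  rw [Bool.and_eq_true, Bool.and_eq_true, Bool.and_eq_true]
  refine ⟨(memB_iff _ _).2 huL, (memB_iff _ _).2 hvL1, ?_, ?_⟩
  · rw [hFEA n _ M L' hVs' hS hL'n]
    intro X x y hx hy
    rw [hes, hcE n es [(u, v)] X, hgl X]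
    have h0 := hfeas X x y hx hy
    have h1 := hsum X
    unfold cr
    by_cases hu' : u ∈ X
    · by_cases hv' : v ∈ X
      · rw [if_pos hu', if_pos hv'] at h1
        have h2 := hX1 X hu' hv'
        have h3 := Pool.Agent.Work.MP_2183d4_lc_66.REQ.le_req (rE n M) hx hy
        rw [hF X] at h2
        omega
      · rw [if_pos hu', if_neg hv'] at h1
        rw [if_neg (by simp [hu', hv'])]
        omega
    · by_cases hv' : v ∈ X
      · rw [if_neg hu', if_pos hv'] at h1
        rw [if_neg (by simp [hu', hv'])]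
        omega
      · rw [if_neg hu', if_neg hv'] at h1
        omega
  · rw [hONB n _ L' hVs' hL'n]
    intro X hX
    rw [hes, hsml, hcE n (sml es) [(u, v)] X, hgl X] at hX
    have h0 : cE n (sml es) X = 0 := by omega
    have h1 : cr (u, v) X = 0 := by omega
    have h2 := hsum X
    have h3 := hone X h0
    unfold cr at h1
    by_cases hu' : u ∈ X
    · by_cases hv' : v ∈ X
      · rw [if_pos hu', if_pos hv'] at h2
        have h4 := hX2 X ((hcl X).2 h0) hu' hv'
        omega
      · rw [if_neg (by simp [hu', hv'])] at h1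
        omega
    · by_cases hv' : v ∈ X
      · rw [if_neg (by simp [hu', hv'])] at h1
        omega
      · rw [if_neg hu', if_neg hv'] at h2
        omega

end Pool.AUGS
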