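import Pool.Agent.Work.MP_2183d4_sm.Interface3
import Pool.Agent.Work.MP_2183d4_pt.B_SPT
import Pool.Agent.Work.MP_2183d4_sm.AlgPoly

/-! # Block SPU (helper81): `solve` is a polynomial-time Turing machine -/

set_option autoImplicit false

namespace Pool.AUGS

open Pool.Agent.Work.TMLib Pool.AUG.Alg

namespace SPU

theorem of_solve (h : ∀ b : ℕ, PolyF (fun s : List (Fin 4) => Pool.AUGS.Alg.solve b (Pool.AUG.SPT.dec s))) :
    Stmt_SPU := by
  intro b
  refine PolyTime.of_PolyF (A := Fin 4) (B := Fin 4) (N := 4) (M := 4) (Equiv.refl _)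
    (Equiv.refl _)
    (g := fun s => Pool.AUG.St.encGraph (Pool.AUGS.Alg.solve b (Pool.AUG.SPT.dec s))) ?_ ?_
  · exact PolyF.comp (f := Pool.AUG.St.encGraph) Pool.AUG.SPT.polyF_graph (h b)
  · intro I
    have h1 : Pool.AUG.SPT.dec (St.Inst.enc I) = I := Pool.AUG.SPT.dec_enc I
    simp only [Equiv.coe_refl, List.map_id]
    show Pool.AUG.St.encGraph (Pool.AUGS.Alg.solve b (Pool.AUG.SPT.dec (St.Inst.enc I))) = _
    rw [h1]
    rfl

end SPU

theorem stmt_SPU : Stmt_SPU :=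
  SPU.of_solve fun _ => Pool.AUGS.Alg.PolyF.solve Pool.AUG.SPT.polyF_dec

end Pool.AUGS
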