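import Pool.Agent.Work.MP_2183d4_sm.Interface

set_option autoImplicit false

/-! # Block STK -/

namespace Pool.AUGS

open Finset Pool.Agent.Work.MP_2183d4_lc_66 Pool.Agent.Work.MP_2183d4_add

namespace STK

theorem main (hCTR : Stmt_CTR) (hCAS : Stmt_CAS) (n : ℕ) : ∀ (V E : Type) [Fintype V]
    [DecidableEq V] [Fintype E] (H : E → Finset V) (m : V → ℕ) (R : Finset V → ℕ)
    (T : Finset V → Prop), Fintype.card V = n → ¬ St3 H m R T := by
  classical
  induction n using Nat.strong_induction_on with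
  | _ n ih =>
    intro V E _ _ _ H m R T hn h
    by_cases hT : ∀ X : Finset V, X.Nonempty → F H m X ≤ R X → ∃ v, X = {v}
    · obtain ⟨D, hD1, hD2⟩ := hCAS V E H m R T h hT
      refine h.ones D ?_ hD1
      rintro e he ⟨v, hve, hvD⟩ w hwe
      by_contra hwD
      have := hD2 e ⟨v, hve, hvD⟩ ⟨w, hwe, hwD⟩
      omega
    · push Not at hT
      obtain ⟨A, hAn, hAt, hA1⟩ := hT
      have hcard : 2 ≤ A.card := by
        by_contra hcon
        have h1 := Finset.card_pos.2 hAn
        obtain ⟨v, hv⟩ := Finset.card_eq_one.1 (show A.card = 1 by omega)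
        exact hA1 v hv
      obtain ⟨T', hT'⟩ := hCTR V E H m R T h A hAt hAn
      exact ih _ (by rw [← hn]; exact card_ctr hcard) _ E _ _ _ _ rfl hT'

end STK

theorem stmt_STK (hCTR : Stmt_CTR) (hCAS : Stmt_CAS) : Stmt_STK := by
  intro V E _ _ _ H m R T
  exact STK.main hCTR hCAS _ V E H m R T rfl

end Pool.AUGS
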