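import Pool.Agent.Work.MP_2183d4_sm.Interface3
import Pool.Agent.Work.MP_2183d4_pt.B_STR
import Pool.Agent.Work.MP_2183d4_pt.B_EXO
import Pool.Agent.Work.MP_2183d4_pt.B_SHF

/-! # Block STO: optimality -/

set_option autoImplicit false

namespace Pool.AUGS

open Finset Pool.AUG Pool.AUG.Alg Pool.AUGS.Alg

namespace STO

theorem cut_hyp (n : ℕ) (es : List (List ℕ)) (hes : Vs n es) (X : Finset (Fin n)) :
    St.cut (St.hyp n es) X = cE n es X := by
  classical
  unfold St.cut cE cutB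
  rw [← SHF.card_eq]
  apply congrArg
  ext i
  simp only [mem_filter, mem_univ, true_and, Bool.and_eq_true, List.any_eq_true, St.hyp]
  constructor
  · rintro ⟨⟨v, hv, hvX⟩, ⟨w, hw, hwX⟩⟩
    refine ⟨⟨v.val, hv, ?_⟩, ⟨w.val, hw, ?_⟩⟩
    · simp [sF, hvX]
    · simp [sF, hwX]
  · rintro ⟨⟨v, hv, hvX⟩, ⟨w, hw, hwX⟩⟩
    have hvn := hes _ (List.get_mem _ _) v hv
    have hwn := hes _ (List.get_mem _ _) w hw
    refine ⟨⟨⟨v, hvn⟩, hv, ?_⟩, ⟨⟨w, hwn⟩, hw, ?_⟩⟩
    · simpa [sF, hvn] using hvX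
    · simpa [sF, hwn] using hwX

theorem gl_ofFn {V : Type} [Fintype V] [DecidableEq V] (X : Finset V) : ∀ {k : ℕ}
    (g : Fin k → V × V), gl (List.ofFn g) X = ∑ i, cr (g i) X := by
  intro k
  induction k with
  | zero =>
    intro g
    simp
  | succ k ih =>
    intro g
    rw [List.ofFn_succ, gl_cons, ih, Fin.sum_univ_succ]
    ring

theorem cut_addG {n k : ℕ} (es : List (List ℕ)) (hes : Vs n es) (g : Fin k → Fin n × Fin n)
    (X : Finset (Fin n)) :
    St.cut (St.addG (St.hyp n es) g) X = cE n es X + gl (List.ofFn g) X := by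
  classical
  rw [← cut_hyp n es hes, gl_ofFn]
  unfold St.cut
  rw [Finset.card_filter, Finset.card_filter, Fintype.sum_sum_type]
  congr 1
  refine Finset.sum_congr rfl fun i _ => ?_
  unfold cr St.addG
  simp only [Sum.elim_inr, Finset.mem_insert, Finset.mem_singleton]
  by_cases h1 : (g i).1 ∈ X <;> by_cases h2 : (g i).2 ∈ X
  · have : ¬ ((∃ v, (v = (g i).1 ∨ v = (g i).2) ∧ v ∈ X) ∧
      ∃ v, (v = (g i).1 ∨ v = (g i).2) ∧ v ∉ X) := by
      rintro ⟨-, v, rfl | rfl, hv⟩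
      · exact hv h1
      · exact hv h2
    rw [if_neg this]
    simp [h1, h2]
  · rw [if_pos ⟨⟨_, Or.inl rfl, h1⟩, ⟨_, Or.inr rfl, h2⟩⟩]
    simp [h1, h2]
  · rw [if_pos ⟨⟨_, Or.inr rfl, h2⟩, ⟨_, Or.inl rfl, h1⟩⟩]
    simp [h1, h2]
  · have : ¬ ((∃ v, (v = (g i).1 ∨ v = (g i).2) ∧ v ∈ X) ∧
      ∃ v, (v = (g i).1 ∨ v = (g i).2) ∧ v ∉ X) := by
      rintro ⟨⟨v, rfl | rfl, hv⟩, -⟩
      · exact h1 hv
      · exact h2 hv
    rw [if_neg this]
    simp [h1, h2]

theorem le_lam {V E : Type} [Fintype V] [DecidableEq V] [Fintype E] (H : E → Finset V) (t : ℕ)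
    (x y : V) (hxy : x ≠ y) :
    t ≤ St.lam H x y ↔ ∀ X : Finset V, x ∈ X → y ∉ X → t ≤ St.cut H X := by
  unfold St.lam
  constructor
  · intro h X hx hy
    exact h.trans (Nat.sInf_le ⟨X, hx, hy, rfl⟩)
  · intro h
    refine le_csInf ⟨St.cut H {x}, {x}, by simp, by simpa using hxy.symm, rfl⟩ ?_
    rintro d ⟨X, hx, hy, rfl⟩
    exact h X hx hy

end STO

open STO in
theorem stmt_STO (_hSMF : Stmt_SMF) : Stmt_STO := by
  intro I hV hS
  obtain ⟨N, hN⟩ := EXO (Fin I.1) (cE I.1 I.2.1) (rE I.1 I.2.2)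
  have key : ∀ {k : ℕ} (g : Fin k → Fin I.1 × Fin I.1),
      (∀ x y, x ≠ y → I.r x y ≤ St.lam (St.addG (St.hyp I.1 I.2.1) g) x y) ↔
        Ok (cE I.1 I.2.1) (rE I.1 I.2.2) (List.ofFn g) := by
    intro k g
    constructor
    · intro h X x y hx hy
      have hxy : x ≠ y := fun h' => hy (h' ▸ hx)
      have h1 := (le_lam _ _ x y hxy).1 (h x y hxy) X hx hy
      rw [cut_addG _ hV] at h1
      exact h1
    · intro h x y hxy
      rw [le_lam _ _ x y hxy]
      intro X hx hy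
      rw [cut_addG _ hV]
      exact h X x y hx hy
  refine ⟨N, hN, fun G hG hok hlen => ?_⟩
  have hl : (mapF G).length = G.length := by
    unfold mapF
    rw [List.length_map]
  let g : Fin (mapF G).length → Fin I.1 × Fin I.1 := fun i => G.get (Fin.cast hl i)
  have hg : List.ofFn g = G := by
    apply List.ext_getElem
    · rw [List.length_ofFn, hl]
    · intro i h1 h2
      rw [List.getElem_ofFn]
      rfl
  refine ⟨g, ?_, ?_, ?_, ?_⟩
  · intro i
    exact (List.getElem_map (fun e : Fin I.1 × Fin I.1 => (e.1.val, e.2.val)) (l := G)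
      (i := i.val) (h := i.2)).symm
  · intro i
    exact hG _ (List.get_mem _ _)
  · rw [key, hg]
    exact hok
  · rintro k ⟨g', -, h'⟩
    have h1 := hN.2 (List.ofFn g') ((key g').1 h')
    rw [List.length_ofFn] at h1
    rw [hl, hlen]
    exact h1

end Pool.AUGS
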