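import Pool.Agent.Work.MP_2183d4_sm.Interface

/-! # Block STP: the splitting lemma -/

set_option autoImplicit false

namespace Pool.AUGS

open Finset Pool.Agent.Work.MP_2183d4_lc_66 Pool.Agent.Work.MP_2183d4_add

namespace STPpf

section
variable {V E : Type} [Fintype V] [DecidableEq V] [Fintype E]

theorem cl_compl {H : E → Finset V} {X : Finset V} (h : Cl3 H X) : Cl3 H Xᶜ := by
  rintro e he ⟨v, hv, hvX⟩ w hw
  rw [mem_compl] at hvX ⊢
  intro hwX
  exact hvX (h e he ⟨w, hw, hwX⟩ v hv)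

theorem cl_inter {H : E → Finset V} {X Y : Finset V} (hX : Cl3 H X) (hY : Cl3 H Y) :
    Cl3 H (X ∩ Y) := by
  rintro e he ⟨v, hv, hvX⟩ w hw
  rw [mem_inter] at hvX ⊢
  exact ⟨hX e he ⟨v, hv, hvX.1⟩ w hw, hY e he ⟨v, hv, hvX.2⟩ w hw⟩

theorem cl_sdiff {H : E → Finset V} {X Y : Finset V} (hX : Cl3 H X) (hY : Cl3 H Y) :
    Cl3 H (X \ Y) := by
  rw [sdiff_eq_inter_compl]
  exact cl_inter hX (cl_compl hY)

theorem two_pair (m : V → ℕ) (h : ∑ v, m v = 2) :
    ∃ u v, 0 < m u ∧ 0 < m v ∧ (u = v → 2 ≤ m u) ∧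
      ∀ X : Finset V, u ∈ X → v ∈ X → 2 ≤ ∑ w ∈ X, m w := by
  obtain ⟨u, -, hu⟩ : ∃ u ∈ (univ : Finset V), m u ≠ 0 := by
    by_contra hcon
    push Not at hcon
    rw [Finset.sum_eq_zero hcon] at h
    omega
  by_cases h2 : 2 ≤ m u
  · refine ⟨u, u, by omega, by omega, fun _ => h2, fun X hX _ => ?_⟩
    exact h2.trans (Finset.single_le_sum (f := m) (fun i _ => Nat.zero_le _) hX)
  · have h1 : m u = 1 := by omega
    have h3 : ∑ v ∈ univ.erase u, m v = 1 := by
      have := Finset.add_sum_erase univ m (mem_univ u)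
      omega
    obtain ⟨v, hv, hmv⟩ : ∃ v ∈ univ.erase u, m v ≠ 0 := by
      by_contra hcon
      push Not at hcon
      rw [Finset.sum_eq_zero hcon] at h3
      omega
    have huv : v ≠ u := (Finset.mem_erase.1 hv).1
    refine ⟨u, v, by omega, by omega, fun h => absurd h.symm huv, fun X hX hX' => ?_⟩
    have h4 : ∑ w ∈ ({u, v} : Finset V), m w ≤ ∑ w ∈ X, m w := by
      apply Finset.sum_le_sum_of_subset
      intro w hw
      rw [mem_insert, mem_singleton] at hw
      rcases hw with rfl | rfl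
      · exact hX
      · exact hX'
    rw [Finset.sum_pair huv.symm] at h4
    omega

end

end STPpf

open STPpf in
theorem stmt_STP (hSTK : Stmt_STK) : Stmt_STP := by
  intro V E _ _ _ H m R hR hm hones heven hpos
  have hcompl : ∀ X : Finset V, ∑ v ∈ X, m v + ∑ v ∈ Xᶜ, m v = ∑ v, m v := fun X =>
    Finset.sum_add_sum_compl X m
  by_cases h2 : ∑ v, m v = 2
  · obtain ⟨u, v, hu, hv, huv, hX⟩ := two_pair m h2
    refine ⟨u, v, hu, hv, huv, fun X huX hvX => ?_, fun X _ huX hvX => ?_⟩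
    · have h3 := hX X huX hvX
      have h4 := hcompl X
      have h5 := hm Xᶜ
      rw [hR.compl] at h5
      unfold F at h5 ⊢
      rw [MULT.cut_compl] at h5
      omega
    · have h4 := hcompl X
      omega
  · by_contra hcon
    have hbig : 4 ≤ ∑ v, m v := by
      obtain ⟨t, ht⟩ := heven
      omega
    refine hSTK V E H m R (fun X => Cl3 H X ∧ ∑ v ∈ X, m v = 3) ⟨hR, hm, hones, hbig, ?_, ?_, ?_⟩
    · rintro X ⟨hX, hX3⟩
      refine ⟨hX3.le, ?_⟩
      have h3 := hones Xᶜ (cl_compl hX)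
      have h4 := hcompl X
      obtain ⟨t, ht⟩ := heven
      omega
    · rintro X Y ⟨hX, hX3⟩ ⟨hY, hY3⟩ ⟨v, hvX, hvY, hv⟩
      have h1 := mt_left m X Y
      have h2' := mt_right m X Y
      have h3 := hones (X ∩ Y) (cl_inter hX hY)
      have h4 := hones (X \ Y) (cl_sdiff hX hY)
      have h5 : 0 < ∑ v ∈ X ∩ Y, m v :=
        lt_of_lt_of_le hv (Finset.single_le_sum (f := m) (fun i _ => Nat.zero_le _)
          (mem_inter.2 ⟨hvX, hvY⟩))
      have h6 : ∑ v ∈ X \ Y, m v = 0 := by omega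
      have h7 : ∑ v ∈ Y \ X, m v = 0 := by omega
      rw [Finset.sum_eq_zero_iff] at h6 h7
      intro w hw
      constructor
      · intro hwX
        by_contra hwY
        have := h6 w (mem_sdiff.2 ⟨hwX, hwY⟩)
        omega
      · intro hwY
        by_contra hwX
        have := h7 w (mem_sdiff.2 ⟨hwY, hwX⟩)
        omega
    · intro u v hu hv huv
      by_contra hno
      rw [not_or] at hno
      obtain ⟨h3, h4⟩ := hno
      apply hcon
      refine ⟨u, v, hu, hv, huv, fun X huX hvX => ?_, fun X hX huX hvX h5 => ?_⟩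
      · by_contra h5
        exact h3 ⟨X, huX, hvX, by omega⟩
      · exact h4 ⟨X, ⟨hX, h5⟩, huX, hvX⟩

end Pool.AUGS
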