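import Pool.Agent.Work.MP_2183d4_sm.Interface3
import Pool.Agent.Work.MP_2183d4_pt.B_SHF

/-!
# Block STV (helper9)
-/

set_option autoImplicit false

namespace Pool.AUGS

open Finset Pool.AUG Pool.AUG.Alg Pool.AUGS.Alg

namespace X_STV

/-- The cut function of the hypergraph given by the list. -/
theorem cut_hyp (n : ℕ) (es : List (List ℕ)) (hV : Vs n es) (X : Finset (Fin n)) :
    St.cut (St.hyp n es) X = cE n es X := by
  classical
  unfold St.cut cE cutB
  rw [← SHF.card_eq]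
  apply congrArg
  ext i
  unfold St.hyp
  simp only [mem_filter, mem_univ, true_and, Bool.and_eq_true, List.any_eq_true]
  constructor
  · rintro ⟨⟨v, hv, hvX⟩, ⟨w, hw, hwX⟩⟩
    refine ⟨⟨v.val, hv, ?_⟩, ⟨w.val, hw, ?_⟩⟩
    · simp [sF, hvX]
    · simp [sF, hwX]
  · rintro ⟨⟨v, hv, hvX⟩, ⟨w, hw, hwX⟩⟩
    have hvn := hV _ (List.get_mem _ _) v hv
    have hwn := hV _ (List.get_mem _ _) w hw
    refine ⟨⟨⟨v, hvn⟩, hv, ?_⟩, ⟨⟨w, hwn⟩, hw, ?_⟩⟩
    · simpa [sF, hvn] using hvX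
    · simpa [sF, hwn] using hwX

/-- The number of vertices of a hyperedge. -/
theorem card_hyp (n : ℕ) (es : List (List ℕ)) (hV : Vs n es) (i : Fin es.length) :
    (St.hyp n es i).card = (es[i]).toFinset.card := by
  classical
  unfold St.hyp
  refine Finset.card_bij (fun v _ => v.val) ?_ ?_ ?_
  · intro v hv
    simpa using hv
  · intro v _ w _ h
    exact Fin.ext h
  · intro v hv
    have hv' : v ∈ es[i] := by simpa using hv
    exact ⟨⟨v, hV _ (List.getElem_mem _) v hv'⟩, by simpa using hv', rfl⟩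

/-- Closed sets for the small hyperedges. -/
theorem closed_iff (hS : Stmt_SMF) (n : ℕ) (es : List (List ℕ)) (hV : Vs n es)
    (X : Finset (Fin n)) :
    cE n (sml es) X = 0 ↔ ∀ i, (St.hyp n es i).card ≤ 3 → (∃ v ∈ St.hyp n es i, v ∈ X) →
      St.hyp n es i ⊆ X := by
  classical
  unfold cE cutB
  rw [List.countP_eq_zero]
  constructor
  · intro h i hi hv w hw
    obtain ⟨v, hv, hvX⟩ := hv
    by_contra hwX
    have h1 : es[i] ∈ sml es := by
      unfold sml
      rw [List.mem_filter]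
      refine ⟨List.getElem_mem _, ?_⟩
      rw [hS.1, ← card_hyp n es hV i]
      simpa using hi
    refine h _ h1 ?_
    rw [Bool.and_eq_true, List.any_eq_true, List.any_eq_true]
    unfold St.hyp at hv hw
    rw [mem_filter] at hv hw
    exact ⟨⟨v.val, hv.2, by simp [sF, hvX]⟩, ⟨w.val, hw.2, by simp [sF, hwX]⟩⟩
  · intro h e he
    unfold sml at he
    rw [List.mem_filter, hS.1] at he
    obtain ⟨he, hc⟩ := he
    obtain ⟨i, hi, rfl⟩ := List.getElem_of_mem he
    have h1 := h ⟨i, hi⟩ (by rw [card_hyp n es hV]; simpa using hc)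
    rw [Bool.and_eq_true, List.any_eq_true, List.any_eq_true]
    rintro ⟨⟨v, hv, hvX⟩, ⟨w, hw, hwX⟩⟩
    have hvn := hV _ (List.getElem_mem hi) v hv
    have hwn := hV _ (List.getElem_mem hi) w hw
    have h2 : (⟨v, hvn⟩ : Fin n) ∈ St.hyp n es ⟨i, hi⟩ := by
      unfold St.hyp
      rw [mem_filter]
      exact ⟨mem_univ _, hv⟩
    have h3 : (⟨w, hwn⟩ : Fin n) ∈ St.hyp n es ⟨i, hi⟩ := by
      unfold St.hyp
      rw [mem_filter]
      exact ⟨mem_univ _, hw⟩
    have h4 := h1 ⟨_, h2, by simpa [sF, hvn] using hvX⟩ h3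
    simp [sF, hwn, h4] at hwX

/-- Components of the small hyperedges. -/
theorem smallComp (hS : Stmt_SMF) (n : ℕ) (es : List (List ℕ)) (hV : Vs n es) (v : Fin n) :
    St.SmallComp (St.hyp n es) (comp (cE n (sml es)) v) := by
  have hc : IsCut (cE n (sml es)) := hS.2.2.2.2.2 n _ (hS.2.2.1 n es hV)
  refine ⟨⟨v, self_mem_comp v⟩, (closed_iff hS n es hV _).1 (hc.comp v), ?_⟩
  intro D hD hne
  by_contra hno
  have h0 : cE n (sml es) D = 0 := by
    rw [closed_iff hS n es hV]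
    intro i hi hv
    by_contra h'
    exact hno ⟨i, hi, hv, h'⟩
  obtain ⟨d, hd⟩ := hne
  have hvd : Same (cE n (sml es)) v d := mem_comp.1 (hD.1 hd)
  have hvD : v ∈ D := (hvd D h0).2 hd
  exact hD.2 fun w hw => ((mem_comp.1 hw) D h0).1 hvD

end X_STV

/-- Block STV. -/
theorem stmt_STV (hS : Stmt_SMF) : Stmt_STV := by
  classical
  intro c I hI
  obtain ⟨hV, hr, S, hSc, hdef⟩ := hI
  refine ⟨hV, hr, ?_⟩
  set c3 := cE I.1 (sml I.2.1) with hc3
  have hex : ∀ C : Finset (Fin I.1), ∃ v : Option (Fin I.1),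
      (∃ w, C = comp c3 w) → ∃ w, v = some w ∧ C = comp c3 w := by
    intro C
    by_cases h : ∃ w, C = comp c3 w
    · obtain ⟨w, hw⟩ := h
      exact ⟨some w, fun _ => ⟨w, rfl, hw⟩⟩
    · exact ⟨none, fun h' => absurd h' h⟩
  choose f hf using hex
  refine ⟨S.biUnion fun C => if ∃ w, C = comp c3 w then (f C).toFinset else ∅, ?_, ?_, ?_⟩
  · refine le_trans card_biUnion_le ?_
    refine le_trans (Finset.sum_le_card_nsmul S _ 1 ?_) (by simpa using hSc)
    intro C _
    split_ifs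
    · cases f C <;> simp
    · simp
  · intro p hp q hq hpq
    rw [mem_biUnion] at hp hq
    obtain ⟨C, -, hC⟩ := hp
    obtain ⟨D, -, hD⟩ := hq
    have key : ∀ (C : Finset (Fin I.1)) (p : Fin I.1),
        p ∈ (if ∃ w, C = comp c3 w then (f C).toFinset else ∅) →
        C = comp c3 p ∧ f C = some p := by
      intro C p hp
      split_ifs at hp with h
      · obtain ⟨w, h1, h2⟩ := hf C h
        rw [h1] at hp
        have : p = w := by simpa using hp
        subst this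
        exact ⟨h2, h1⟩
      · simp at hp
    obtain ⟨h1, h2⟩ := key C p hC
    obtain ⟨h3, h4⟩ := key D q hD
    have h5 : C = D := by rw [h1, h3]; exact comp_eq hpq
    rw [h5, h4] at h2
    exact (Option.some.inj h2).symm
  · intro v hv
    have hvS : comp c3 v ∉ S := by
      intro hvS
      obtain ⟨w, h1, h2⟩ := hf (comp c3 v) ⟨v, rfl⟩
      refine hv w ?_ (comp_eq_iff.1 h2)
      rw [mem_biUnion]
      refine ⟨comp c3 v, hvS, ?_⟩
      rw [if_pos ⟨v, rfl⟩, h1]
      simp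
    have h3 := hdef _ (X_STV.smallComp hS I.1 I.2.1 hV v) hvS
    unfold St.defic at h3
    obtain ⟨𝓕, h𝓕, hsup⟩ := Finset.exists_mem_eq_sup
      ((univ : Finset (Finset (Finset (Fin I.1)))).filter
        (fun F => (∀ A ∈ F, A ⊆ comp c3 v) ∧ ∀ A ∈ F, ∀ B ∈ F, A ≠ B → Disjoint A B))
      ⟨∅, by simp⟩ (fun F => ∑ X ∈ F, (St.req I.r X - St.cut (St.hyp I.1 I.2.1) X))
    rw [mem_filter] at h𝓕
    refine ⟨𝓕, h𝓕.2.1, h𝓕.2.2, ?_⟩
    have h4 : ∑ A ∈ 𝓕, (RE I.1 I.2.2 A - cE I.1 I.2.1 A) =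
        ∑ X ∈ 𝓕, (St.req I.r X - St.cut (St.hyp I.1 I.2.1) X) := by
      refine sum_congr rfl fun A _ => ?_
      rw [X_STV.cut_hyp I.1 I.2.1 hV]
      rfl
    rw [h4, ← hsup]
    exact h3

end Pool.AUGS
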