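import Pool.Agent.Work.MP_2183d4_sm.Interface

/-! # Block SUN: sunflowers with a given hyperedge -/

set_option autoImplicit false

namespace Pool.AUGS

open Finset Pool.Agent.Work.MP_2183d4_lc_66 Pool.Agent.Work.MP_2183d4_add

theorem stmt_SUN : Stmt_SUN := by
  intro V E _ _ _ H L T D hT hD hpm e hm ho
  classical
  obtain ⟨d, hde, hdD⟩ := hm
  obtain ⟨c, hce, hcD⟩ := ho
  have meets : ∀ x ∈ T, ∃ v ∈ H e, v ∈ L x \ D := by
    intro x hx
    by_contra hcon
    push Not at hcon
    obtain ⟨y, hy, z, hz, hyx, hzx, hyz⟩ := three hT x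
    have sub : ∀ y ∈ T, y ≠ x → ∀ v ∈ H e, v ∈ L y := by
      intro y hy hyx v hv
      have h1 : v ∈ L x ∪ L y := by
        by_contra hvn
        obtain ⟨⟨w, hw, hw2⟩, _⟩ := hpm x hx y hy (Ne.symm hyx) e
          ⟨d, hde, by rw [hD x hx y hy (Ne.symm hyx)]; exact hdD⟩ ⟨v, hv, hvn⟩
        apply hcon w hw
        rw [← hD x hx y hy (Ne.symm hyx), sdiff_inter_self_left]
        exact hw2
      rcases mem_union.1 h1 with h2 | h2
      · have h3 := hcon v hv
        rw [mem_sdiff, not_and, not_not] at h3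
        have h4 := h3 h2
        rw [← hD x hx y hy (Ne.symm hyx)] at h4
        exact (mem_inter.1 h4).2
      · exact h2
    apply hcD
    rw [← hD y hy z hz hyz]
    exact mem_inter.2 ⟨sub y hy hyx c hce, sub z hz hzx c hce⟩
  refine count T (H e) (fun x => if hx : x ∈ T then (meets x hx).choose else d) d hde
    ?_ ?_ ?_
  · intro x hx
    simp only [hx, dif_pos]
    exact (meets x hx).choose_spec.1
  · intro x hx
    simp only [hx, dif_pos]
    intro h
    have := (mem_sdiff.1 (meets x hx).choose_spec.2).2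
    rw [h] at this
    exact this hdD
  · intro x hx y hy hxy
    simp only [hx, hy, dif_pos] at hxy
    by_contra hne
    have h1 := mem_sdiff.1 (meets x hx).choose_spec.2
    have h2 := mem_sdiff.1 (meets y hy).choose_spec.2
    rw [← hxy] at h2
    apply h1.2
    have h3 := mem_inter.2 ⟨h1.1, h2.1⟩
    rwa [hD x hx y hy hne] at h3

end Pool.AUGS
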