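import Pool.Agent.Work.MP_2183d4_sm.Interface2

set_option autoImplicit false

/-! # Block WST: one step of the walk -/

namespace Pool.AUGS

open Finset Pool.AUG Pool.AUG.Alg Pool.AUGS.Alg

namespace WST

lemma mono (hLAY : Stmt_LAY) (A : List (ℕ × ℕ)) (y x j d : ℕ) (h : x ∈ lay A y j) :
    x ∈ lay A y (j + d) := by
  induction d with
  | zero => exact h
  | succ d ih => exact ((hLAY A y).2.1 x (j + d)).2 (Or.inl ih)

lemma range_map (A : List (ℕ × ℕ)) (i : ℕ) (hi : i ≤ A.length) :
    ((List.range i).map fun j => A.getD j (0, 0)) = A.take i := by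
  apply List.ext_getElem
  · simp [hi]
  · intro n h1 h2
    simp only [List.length_map, List.length_range] at h1
    simp only [List.getElem_map, List.getElem_range, List.getElem_take]
    rw [List.getD_eq_getElem _ _ (by omega)]

lemma split (A : List (ℕ × ℕ)) (i : ℕ) (hi : i < A.length) :
    A = A.take i ++ (A.getD i (0, 0) :: A.drop (i + 1)) := by
  rw [List.getD_eq_getElem _ _ hi]
  conv_lhs => rw [← List.take_append_drop i A]
  rw [List.drop_eq_getElem_cons hi]

end WST

open WST in
theorem stmt_WST (hLAY : Stmt_LAY) : Stmt_WST := by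
  intro y k s hs
  obtain ⟨u, A⟩ := s
  change u ∈ lay A y (k + 1) at hs
  by_cases hu : u ∈ lay A y k
  · have h1 : memB u (lay A y k) = true := ((hLAY A y).2.2.1 u k).2 hu
    have h2 : wstep y (u, A) k = (u, A) := by
      unfold wstep
      simp only [h1, Bool.true_or, cond_true]
    rw [h2]
    exact ⟨hu, rfl, fun t => rfl⟩
  · have h1 : memB u (lay A y k) = false := by
      rw [Bool.eq_false_iff]
      intro h
      exact hu (((hLAY A y).2.2.1 u k).1 h)
    have hex : ∃ w, (u, w) ∈ A ∧ w ∈ lay A y k := by
      rcases ((hLAY A y).2.1 u k).1 hs with h | h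
      · exact absurd h hu
      · exact h
    obtain ⟨w₀, hw₀, hw₀k⟩ := hex
    obtain ⟨i₀, hi₀, hi₀w⟩ := List.getElem_of_mem hw₀
    have hne : i₀ ∈ nxt A u y k := by
      unfold nxt
      rw [List.mem_filter]
      refine ⟨List.mem_range.2 hi₀, ?_⟩
      rw [List.getD_eq_getElem _ _ hi₀, hi₀w]
      simp only [decide_true, Bool.true_and]
      exact ((hLAY A y).2.2.1 w₀ k).2 hw₀k
    have hne' : nxt A u y k ≠ [] := List.ne_nil_of_mem hne
    obtain ⟨i, l, hil⟩ := List.exists_cons_of_ne_nil hne'
    have hi : i ∈ nxt A u y k := by rw [hil]; exact List.mem_cons_self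
    have hstep : wstep y (u, A) k = ((A.getD i (0, 0)).2, flipAt A i) := by
      unfold wstep
      simp only [h1, hil, Bool.false_or, List.isEmpty_cons, cond_false, List.headD_cons]
    unfold nxt at hi
    rw [List.mem_filter, List.mem_range, Bool.and_eq_true, decide_eq_true_eq] at hi
    obtain ⟨hilt, hi1, hi2⟩ := hi
    have hwk : (A.getD i (0, 0)).2 ∈ lay A y k := ((hLAY A y).2.2.1 _ k).1 hi2
    set w := (A.getD i (0, 0)).2 with hw
    have hgi : A.getD i (0, 0) = (u, w) := by
      rw [hw, ← hi1]
    have hA : A = A.take i ++ ((u, w) :: A.drop (i + 1)) := by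
      have h := split A i hilt
      rw [hgi] at h
      exact h
    have hfl : flipAt A i = A.take i ++ ((w, u) :: A.drop (i + 1)) := by
      unfold flipAt
      rw [range_map A i hilt.le, hgi]
    rw [hstep]
    refine ⟨?_, ?_, ?_⟩
    · have key : ∀ j, j ≤ k → ∀ x, x ∈ lay A y j → x ∈ lay (flipAt A i) y j := by
        intro j
        induction j with
        | zero =>
          intro _ x hx
          exact ((hLAY (flipAt A i) y).1 x).2 (((hLAY A y).1 x).1 hx)
        | succ j ih =>
          intro hj x hx
          have hxk : x ∈ lay A y k := by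
            have h := mono hLAY A y x (j + 1) (k - (j + 1)) hx
            rwa [show j + 1 + (k - (j + 1)) = k by omega] at h
          have hxu : x ≠ u := fun h => hu (h ▸ hxk)
          refine ((hLAY (flipAt A i) y).2.1 x j).2 ?_
          rcases ((hLAY A y).2.1 x j).1 hx with h | ⟨v, hv, hvj⟩
          · exact Or.inl (ih (by omega) x h)
          · refine Or.inr ⟨v, ?_, ih (by omega) v hvj⟩
            rw [hA, List.mem_append, List.mem_cons] at hv
            rw [hfl, List.mem_append, List.mem_cons]
            rcases hv with hv | hv | hv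
            · exact Or.inl hv
            · exact absurd (congrArg Prod.fst hv) hxu
            · exact Or.inr (Or.inr hv)
      exact key k le_rfl w hwk
    · show (flipAt A i).length = A.length
      rw [hfl]
      conv_rhs => rw [hA]
      simp only [List.length_append, List.length_cons]
    · intro t
      show dout (flipAt A i) t + (if t u then 1 else 0) = dout A t + (if t w then 1 else 0)
      have h2 : dout A t = dout (A.take i ++ ((u, w) :: A.drop (i + 1))) t := by rw [← hA]
      rw [h2, hfl]
      unfold dout
      rw [List.countP_append, List.countP_append, List.countP_cons, List.countP_cons]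
      cases t u <;> cases t w <;> simp <;> omega

end Pool.AUGS
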