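import Pool.Agent.Work.MP_2183d4_sm.B_ADT
import Pool.Agent.Work.MP_2183d4_sm.B_AUG
import Pool.Agent.Work.MP_2183d4_sm.B_BLD
import Pool.Agent.Work.MP_2183d4_sm.B_BST
import Pool.Agent.Work.MP_2183d4_sm.B_CAS
import Pool.Agent.Work.MP_2183d4_sm.B_CNS
import Pool.Agent.Work.MP_2183d4_sm.B_CNT
import Pool.Agent.Work.MP_2183d4_sm.B_CTR
import Pool.Agent.Work.MP_2183d4_sm.B_FEA
import Pool.Agent.Work.MP_2183d4_sm.B_FLO
import Pool.Agent.Work.MP_2183d4_sm.B_FNA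
import Pool.Agent.Work.MP_2183d4_sm.B_FXP
import Pool.Agent.Work.MP_2183d4_sm.B_GEB
import Pool.Agent.Work.MP_2183d4_sm.B_GOD
import Pool.Agent.Work.MP_2183d4_sm.B_GRD
import Pool.Agent.Work.MP_2183d4_sm.B_GRE
import Pool.Agent.Work.MP_2183d4_sm.B_HDS
import Pool.Agent.Work.MP_2183d4_sm.B_HFM
import Pool.Agent.Work.MP_2183d4_sm.B_KPT
import Pool.Agent.Work.MP_2183d4_sm.B_LAY
import Pool.Agent.Work.MP_2183d4_sm.B_MIN
import Pool.Agent.Work.MP_2183d4_sm.B_MIX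
import Pool.Agent.Work.MP_2183d4_sm.B_MUL
import Pool.Agent.Work.MP_2183d4_sm.B_NET
import Pool.Agent.Work.MP_2183d4_sm.B_ONB
import Pool.Agent.Work.MP_2183d4_sm.B_POT
import Pool.Agent.Work.MP_2183d4_sm.B_RMC
import Pool.Agent.Work.MP_2183d4_sm.B_RST
import Pool.Agent.Work.MP_2183d4_sm.B_SMF
import Pool.Agent.Work.MP_2183d4_sm.B_SOL
import Pool.Agent.Work.MP_2183d4_sm.B_SPL
import Pool.Agent.Work.MP_2183d4_sm.B_SPN
import Pool.Agent.Work.MP_2183d4_sm.B_SPU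
import Pool.Agent.Work.MP_2183d4_sm.B_STK
import Pool.Agent.Work.MP_2183d4_sm.B_STO
import Pool.Agent.Work.MP_2183d4_sm.B_STP
import Pool.Agent.Work.MP_2183d4_sm.B_STV
import Pool.Agent.Work.MP_2183d4_sm.B_SUN
import Pool.Agent.Work.MP_2183d4_sm.B_WST

/-!
# MP_2183d4_lc (hyperedges with at most three vertices): the final theorems
-/

set_option autoImplicit false

namespace Pool.AUGS

open Pool.Agent.Work.TMLib Finset

theorem hCAS : Stmt_CAS := stmt_CAS stmt_SUN stmt_MIX stmt_MUL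
theorem hSTK : Stmt_STK := stmt_STK stmt_CTR hCAS
theorem hSTP : Stmt_STP := stmt_STP hSTK
theorem hGRE : Stmt_GRE := stmt_GRE hSTP
theorem hWST : Stmt_WST := stmt_WST stmt_LAY
theorem hAUG : Stmt_AUG := stmt_AUG hWST
theorem hFLO : Stmt_FLO := stmt_FLO stmt_LAY hAUG
theorem hGEB : Stmt_GEB := stmt_GEB hFLO stmt_NET
theorem hFEA : Stmt_FEA := stmt_FEA hGEB
theorem hCNS : Stmt_CNS := stmt_CNS stmt_SMF
theorem hONB : Stmt_ONB := stmt_ONB hCNS stmt_SMF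
theorem hHFM : Stmt_HFM := stmt_HFM stmt_SMF
theorem hSPN : Stmt_SPN := stmt_SPN hSTP hHFM hFEA hONB stmt_RMC stmt_SMF
theorem hSPL : Stmt_SPL := stmt_SPL hSPN hFEA hONB stmt_RMC stmt_SMF
theorem hKPT : Stmt_KPT := stmt_KPT hFEA
theorem hGRD : Stmt_GRD := p_GRD stmt_RST hKPT blk_MIN hHFM
theorem hBLD : Stmt_BLD := stmt_BLD hGRD p_FXP hSPL stmt_SMF
theorem hGOD : Stmt_GOD := stmt_GOD hFEA stmt_SMF
theorem hCNT : Stmt_CNT := stmt_CNT stmt_POT stmt_HDS stmt_SMF hCNS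
theorem hSOL : Stmt_SOL := stmt_SOL hCNT hBLD hGOD stmt_BST
theorem hFNA : Stmt_FNA := p_FNA hGRE stmt_ADT
theorem hSTV : Stmt_STV := stmt_STV stmt_SMF
theorem hSTO : Stmt_STO := stmt_STO stmt_SMF

theorem final1 (V E : Type) [Fintype V] [DecidableEq V] [Fintype E] (H : E → Finset V)
    (r : V → V → ℕ) (hr : ∀ x y, r x y = r y x) :
    ∃ N, IsLeast (St.Sizes H r) N ∧ (St.defic H r univ + 1) / 2 ≤ N ∧
      (∀ m, St.Enough H r m → N ≤ (∑ v, m v + St.ones H m + 1) / 2) ∧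
      (∃ m, St.Enough H r m ∧ ∑ v, m v = St.defic H r univ) ∧
      ((∀ C, St.SmallComp H C → 2 ≤ St.defic H r C) → N = (St.defic H r univ + 1) / 2) :=
  hFNA V E H r hr

theorem final2 (c : ℕ) : ∃ f : St.Inst → List (ℕ × ℕ),
    PolyTime St.Inst.enc St.encGraph f ∧ ∀ I : St.Inst, St.Valid c I → St.Optimal I (f I) := by
  refine ⟨fun I => Alg.solve (10 * c) I, stmt_SPU (10 * c), fun I hI => ?_⟩
  obtain ⟨hV, hS, hE⟩ := hSTV c I hI
  obtain ⟨N, hN, hopt⟩ := hSTO I hV hS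
  obtain ⟨G, hG, hl, hok, hlen⟩ := hSOL I c N hV hS hE hN
  show St.Optimal I (Alg.solve (10 * c) I)
  rw [hG]
  exact hopt G hl hok hlen

end Pool.AUGS
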