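import Pool.Agent.Work.MP_2183d4_add.Reduce

/-!
# MP_2183d4_lc (hyperedges with at most three vertices): the splitting lemma

`H : E → Finset V` hypergraph, `m v` half-edges at `v`, `F H m X = d_H(X) + m(X)`, `R` requirement function
on sets (`Rq R`); `X` is dangerous if `F H m X ≤ R X + 1`, tight if `F H m X ≤ R X`. Every block is an
adaptation of a proof in Work/MP_2183d4_add (Mult, Min, Case, Contract, Reduce): read the file named in the
docstring first and change only what the docstring says.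
-/

set_option autoImplicit false

namespace Pool.AUGS

open Finset Pool.Agent.Work.MP_2183d4_lc_66 Pool.Agent.Work.MP_2183d4_add

section
variable {V E : Type} [Fintype V] [DecidableEq V] [Fintype E]

/-- `X` is closed: no hyperedge with at most three vertices meets both `X` and its complement. -/
def Cl3 (H : E → Finset V) (X : Finset V) : Prop :=
  ∀ e, (H e).card ≤ 3 → (∃ v ∈ H e, v ∈ X) → ∀ v ∈ H e, v ∈ X

/-- All pairs of half-edges are blocked by a dangerous set or lie in a common class; the classes (`T`)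
have at most three half-edges, and exist only if there are at least six half-edges. -/
structure St3 (H : E → Finset V) (m : V → ℕ) (R : Finset V → ℕ) (T : Finset V → Prop) : Prop where
  rq : Rq R
  feas : ∀ X, R X ≤ F H m X
  ones : ∀ X, Cl3 H X → ∑ v ∈ X, m v ≠ 1
  big : 4 ≤ ∑ v, m v
  t1 : ∀ X, T X → ∑ v ∈ X, m v ≤ 3 ∧ 6 ≤ ∑ v, m v
  t2 : ∀ X Y, T X → T Y → (∃ v ∈ X, v ∈ Y ∧ 0 < m v) → ∀ v, 0 < m v → (v ∈ X ↔ v ∈ Y)
  pair : ∀ u v, 0 < m u → 0 < m v → (u = v → 2 ≤ m u) →
    (∃ X : Finset V, u ∈ X ∧ v ∈ X ∧ F H m X ≤ R X + 1) ∨ ∃ X, T X ∧ u ∈ X ∧ v ∈ X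

open Classical in
/-- The number of components of the hyperedges with at most three vertices which have exactly one
half-edge. -/
noncomputable def ones3 (H : E → Finset V) (m : V → ℕ) : ℕ :=
  ((univ : Finset (Finset V)).filter fun C => C.Nonempty ∧ Cl3 H C ∧
    (∀ D : Finset V, D ⊂ C → D.Nonempty → ¬ Cl3 H D) ∧ ∑ v ∈ C, m v = 1).card

end

/-- SUN (from `sunflower` in Min.lean). The same proof for an arbitrary given hyperedge `e` crossing `D`. -/
def Stmt_SUN : Prop :=
  ∀ (V E : Type) [Fintype V] [DecidableEq V] [Fintype E] (H : E → Finset V) (L : V → Finset V)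
    (T D : Finset V), 3 ≤ T.card → (∀ x ∈ T, ∀ y ∈ T, x ≠ y → L x ∩ L y = D) →
    (∀ x ∈ T, ∀ y ∈ T, x ≠ y → PM H (L x) (L y)) →
    ∀ e, (∃ v ∈ H e, v ∈ D) → (∃ v ∈ H e, v ∉ D) → T.card + 1 ≤ (H e).card

/-- MIX (from `mixed` in Min.lean). The same proof for an arbitrary given hyperedge `e` with `j ∈ H e` and
another vertex. -/
def Stmt_MIX : Prop :=
  ∀ (V E : Type) [Fintype V] [DecidableEq V] [Fintype E] (H : E → Finset V) (L : V → Finset V)
    (T : Finset V) (j : V), j ∉ T → (∀ x ∈ T, j ∈ L x) → (∀ x ∈ T, x ∈ L x) →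
    (∀ x ∈ T, ∀ y ∈ T, x ≠ y → y ∉ L x) → (∀ x ∈ T, ∀ y ∈ T, x ≠ y → PM H (L x) (L y)) →
    (∀ x ∈ T, ∀ y ∈ T, x ≠ y → L x ∩ L y = {j} ∨ (L x \ L y = {x} ∧ L y \ L x = {y})) →
    (∀ x ∈ T, cut H (L x) ≤ cut H (L x \ {j})) →
    (∃ x ∈ T, ∃ y ∈ T, x ≠ y ∧ L x ∩ L y = {j}) → (∃ x ∈ T, ∃ y ∈ T, x ≠ y ∧ L x ∩ L y ≠ {j}) →
    ∀ e, j ∈ H e → (∃ c ∈ H e, c ≠ j) → T.card + 1 ≤ (H e).card

/-- MUL (from `mult` in Mult.lean; its lemmas `all`, `out`, `pairMD` are to be repeated for `St3`). Suppose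
`2 ≤ m v`. If some `T X` contains `v` let `W` be its vertices `≠ v` with half-edges (by `t2` the same for all
such `X`), otherwise `W = ∅`. Then `∑_{W} m ≤ 1` (as `m v ≥ 2`, `t1`), and `v, x` are blocked by a dangerous
set for all half-edge vertices `x ≠ v`, `x ∉ W`. `𝓛` as in `mult` but with `x ≠ v, x ∉ W`. A member exists: if
`{v, v}` is blocked take `x ∉ X ∋ v` (`out`); if such `x` is in `W` or if `{v, v}` is in a class: there are at
least 6 half-edges, at most 3 at `v` and `W`, so some `x ∉ W`, `x ≠ v` exists anyway. For a member `La` there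
is `y ∉ La`, `y ∉ W` with `0 < m y`: otherwise all half-edges outside of `La` are in `W`, so `m(Laᶜ) ≤ 1`,
`F La ≤ R La + 1 = R Laᶜ + 1 ≤ d(La) + 1 + 1` gives `m(La) ≤ 2`, but `m(La) ≥ m v + 1 ≥ 3`. The end: `L0 ∪ U'`
contains all half-edges except at most `μ ≤ 1` of them (those in `W`), so `R(L0 ∪ U') + |m| ≤ F(L0 ∪ U') + 2 μ`
(instead of `h4`), and `|m| ≥ m(L0 ∪ U') + μ`; the contradiction remains. -/
def Stmt_MUL : Prop :=
  ∀ (V E : Type) [Fintype V] [DecidableEq V] [Fintype E] (H : E → Finset V) (m : V → ℕ)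
    (R : Finset V → ℕ) (T : Finset V → Prop), St3 H m R T →
    (∀ X : Finset V, X.Nonempty → F H m X ≤ R X → ∃ v, X = {v}) → ∀ v, m v ≤ 1

/-- CAS (from `K1`, `K2`, `minimal_case` in Case.lean, with SUN, MIX, MUL). For a vertex `j` with `m j = 1`
let `W j` be the other half-edges of the class `T X ∋ j` (`∅` if there is none): `m({j} ∪ W j) ≤ 3`, and `j, x`
is blocked for all half-edges `x ≠ j`, `x ∉ W j`. K2: `m(S) ≤ m(Sᶜ)` since `S` minimizes `F` and
`d(S) = d(Sᶜ)`. There is a half-edge `x ∉ S`, `x ∉ W j`: otherwise `m(Sᶜ) ≤ 2`, so `|m| ≤ 4` although the class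
is not empty (`6 ≤ |m|`), or `W j = ∅` and `m(Sᶜ) = 0`, impossible. For a maximal dangerous `L` containing `j`
and `x` there is a half-edge `y ∉ L`, `y ∉ W j`: `m(L) ≤ m(Lᶜ) + 1` (`F L ≤ R L + 1 = R Lᶜ + 1 ≤ F Lᶜ + 1`), and
if all half-edges of `Lᶜ` are in `W j` then `m(Lᶜ) ≤ 2`, `|m| ≤ 5`. The rest of K2 as before. In
`minimal_case` replace `T` by the set `T'` of the half-edges `x ≠ j` with `x ∉ W j`: `T'.card ≥ 3`
(`|m| ≥ 6` and at most 3 in the class, or `W j = ∅` and `T'.card = |m| - 1 ≥ 3`). In `K4` use the `y`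
above. At the end SUN for `D = {j}` or `D = L x0 \ {x0}`, or MIX for `D = {j}`, give that every hyperedge
crossing `D` has at least `T'.card + 1 ≥ 4` vertices, and `m(D) = 1`. -/
def Stmt_CAS : Prop :=
  ∀ (V E : Type) [Fintype V] [DecidableEq V] [Fintype E] (H : E → Finset V) (m : V → ℕ)
    (R : Finset V → ℕ) (T : Finset V → Prop), St3 H m R T →
    (∀ X : Finset V, X.Nonempty → F H m X ≤ R X → ∃ v, X = {v}) →
    ∃ D : Finset V, ∑ v ∈ D, m v = 1 ∧
      ∀ e, (∃ v ∈ H e, v ∈ D) → (∃ v ∈ H e, v ∉ D) → 4 ≤ (H e).card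

/-- CTR (from `Stuck.contract` in Contract.lean). Contract the tight set `A` by `ctr A`. Classes of the
contraction: `T' X' := ∃ X, T X ∧ ∀ v, 0 < m v → ctr A v ∈ X' → v ∈ X`. `ones`: if `X'` is closed for the image
so is `pre X'` (images have at most as many vertices). `t1`: the half-edges of `pre X'` are in `X`. `t2`: let `X, Y`
belong to `X', Y'`, and `v'` in both with a half-edge, then `X, Y` have the same half-edges; but `X'` and
`Y'` may differ, so take `T' X' := (∃ X, T X ∧ ∀ v, 0 < m v → (ctr A v ∈ X' ↔ (∀ w, 0 < m w → ctr A w = ctr A v →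
w ∈ X)))` instead: the half-edges in `pre X'` are exactly those `v` all of whose partners in the fibre are in
`X`, which depends only on the half-edges of `X`. `pair` for `u', v'`: if half-edges `u, v` in the fibres are
blocked by a dangerous set use `saturate`. If `u' = v' = none` and there are two half-edges in the fibre,
`A` itself is dangerous. Otherwise for all half-edges `u` over `u'`, `v` over `v'` (different, or equal with
`2 ≤ m u`) there is a class containing both; fix one pair: all classes arising have the same half-edges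
(`t2`), so a class `X` contains all half-edges over `u'` and `v'`; take
`X' = {w' | all half-edges over w' are in X}`. -/
def Stmt_CTR : Prop :=
  ∀ (V E : Type) [Fintype V] [DecidableEq V] [Fintype E] (H : E → Finset V) (m : V → ℕ)
    (R : Finset V → ℕ) (T : Finset V → Prop), St3 H m R T →
    ∀ A : Finset V, F H m A ≤ R A → A.Nonempty →
    ∃ T' : Finset (Option {v : V // v ∉ A}) → Prop,
      St3 (fun e => (H e).image (ctr A))
        (fun w => ∑ v ∈ univ.filter (fun v => ctr A v = w), m v) (fun X => R (pre (ctr A) X)) T'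

/-- STK (from `stuck_bound`). Induction on the number of vertices: contract a tight set with at least two
vertices (CTR); if there is none CAS gives `D`, which is closed with `m(D) = 1`, contradicting `ones`. -/
def Stmt_STK : Prop :=
  ∀ (V E : Type) [Fintype V] [DecidableEq V] [Fintype E] (H : E → Finset V) (m : V → ℕ)
    (R : Finset V → ℕ) (T : Finset V → Prop), ¬ St3 H m R T

/-- STP, the splitting lemma. If `∑ m = 2` take the two half-edges `u, v` (`m(X) = 2` for `X ∋ u, v`,
`R X = R Xᶜ ≤ F H m Xᶜ = d(X)`; `m(X) ≠ 3`). Otherwise `4 ≤ ∑ m`, and if the conclusion fails we get `St3` with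
`T X := Cl3 H X ∧ ∑ v ∈ X, m v = 3`: closed sets are closed under intersection, difference and complement; `t1`:
`m(Xᶜ) = |m| - 3 ≠ 1` and `|m|` is even, so `6 ≤ |m|`; `t2`: `m(X ∩ Y) ≥ 1`, `≠ 1`, and
`m(X \ Y) = 3 - m(X ∩ Y) ≠ 1`, so `m(X ∩ Y) = 3`. STK. -/
def Stmt_STP : Prop :=
  ∀ (V E : Type) [Fintype V] [DecidableEq V] [Fintype E] (H : E → Finset V) (m : V → ℕ)
    (R : Finset V → ℕ), Rq R → (∀ X, R X ≤ F H m X) → (∀ X, Cl3 H X → ∑ v ∈ X, m v ≠ 1) →
    Even (∑ v, m v) → 0 < ∑ v, m v →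
    ∃ u v, 0 < m u ∧ 0 < m v ∧ (u = v → 2 ≤ m u) ∧
      (∀ X : Finset V, u ∈ X → v ∈ X → R X + 2 ≤ F H m X) ∧
      ∀ X : Finset V, Cl3 H X → u ∈ X → v ∈ X → ∑ w ∈ X, m w ≠ 3

/-- GRE (from `reduce` in Reduce.lean, `split` is used as it is). Induction on `∑ m`: STP, `split`; the new
hypergraph `addG H (fun _ => (u, v))` has the additional hyperedge `{u, v}` (at most 2 vertices), so closed
sets contain both or none of `u, v`. -/
def Stmt_GRE : Prop :=
  ∀ (V E : Type) [Fintype V] [DecidableEq V] [Fintype E] (H : E → Finset V) (m : V → ℕ)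
    (R : Finset V → ℕ), Rq R → (∀ X, R X ≤ F H m X) → (∀ X, Cl3 H X → ∑ v ∈ X, m v ≠ 1) →
    Even (∑ v, m v) →
    ∃ (n : ℕ) (g : Fin n → V × V), 2 * n ≤ ∑ v, m v ∧ ∀ X : Finset V, R X ≤ cut H X + gcut g X

/-- ADT. Add a half-edge in every component with exactly one half-edge (at the same vertex); if the
number is odd then (it is positive) add one more at a vertex with a half-edge: its component has at least
two then. A closed set with one half-edge contains the component of this half-edge, which would have one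
half-edge. (Component of `v`: the intersection of all closed sets containing `v`; it is closed and minimal.) -/
def Stmt_ADT : Prop :=
  ∀ (V E : Type) [Fintype V] [DecidableEq V] [Fintype E] (H : E → Finset V) (m : V → ℕ),
    ∃ m' : V → ℕ, (∀ v, m v ≤ m' v) ∧ Even (∑ v, m' v) ∧ (∀ X, Cl3 H X → ∑ v ∈ X, m' v ≠ 1) ∧
      ∑ v, m' v ≤ ∑ v, m v + ones3 H m + 1

/-- MIN. Half-edges `l + k` are enough (`R ≤ F`), every vertex with `0 < k v` is in a tight set, `μ` is enough
too and `l ≤ μ`: then `∑ (l + k) ≤ ∑ μ`. Let `m = l + k`. There is a family of pairwise disjoint tight sets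
covering all `v` with `0 < k v` (and `0 < m v`): take a family of tight sets covering them with the least number
of members and then with the least sum of cardinalities; two members `X, Y` which meet: if
`R X + R Y ≤ R (X ∩ Y) + R (X ∪ Y)` then `X ∪ Y` is tight (`F_sub`), replace both by it; otherwise
`X \ Y`, `Y \ X` are tight and `m(X ∩ Y) = 0` (`F_posi`), replace `X, Y` by them. (A similar argument is in
MP_2183d4_lc_66/DEG.lean.) Then `m(X_i) = R X_i - d(X_i) ≤ μ(X_i)`, and outside of the sets `m = l ≤ μ`. -/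
def Stmt_MIN : Prop :=
  ∀ (V E : Type) [Fintype V] [DecidableEq V] [Fintype E] (H : E → Finset V) (R : Finset V → ℕ)
    (l k μ : V → ℕ), Rq R → (∀ X, R X ≤ F H (fun v => l v + k v) X) →
    (∀ v, 0 < k v → ∃ X : Finset V, v ∈ X ∧ F H (fun v => l v + k v) X ≤ R X) →
    (∀ X, R X ≤ F H μ X) → (∀ v, l v ≤ μ v) → ∑ v, (l v + k v) ≤ ∑ v, μ v

end Pool.AUGS
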