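import Pool.Agent.Work.MP_2183d4_sm.Interface
import Pool.Agent.Work.MP_2183d4_sm.Alg
import Pool.Agent.Work.MP_2183d4_pt.Interface3
import Pool.Agent.Work.MP_2183d4_pt.Basic

/-!
# MP_2183d4_lc (hyperedges with at most three vertices): the algorithm, correctness of its parts

`Pool.AUG` (Work/MP_2183d4_pt) has `cutB`, `sF`, `gl`, `hd`, `Ok`, `IsOpt`, `FeasM`, `IsCut`, `Same`, `comp`, `mapF`,
and proofs about them (`Basic.lean`, `B_SCO`, `B_SCF`, `B_SHF`, `B_SFM`, `B_SGR`, `B_SLI`, `B_STR`): import and reuse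
them. An instance is `I = (n, es, M)`; `cE n es = cF (n, es, M)` and `rE n M = rF (n, es, M)` by `rfl`.
-/

set_option autoImplicit false

namespace Pool.AUGS

open Finset Pool.AUG Pool.AUG.Alg Pool.AUGS.Alg

/-- The cut function of the hyperedges `es` on `Fin n`. -/
def cE (n : ℕ) (es : List (List ℕ)) (X : Finset (Fin n)) : ℕ := cutB es (sF n X)

/-- The requirements. -/
def rE (n : ℕ) (M : List (List ℕ)) (x y : Fin n) : ℕ := rq M x y

/-- Hyperedges consist of vertices. -/
def Vs (n : ℕ) (es : List (List ℕ)) : Prop := ∀ e ∈ es, ∀ v ∈ e, v < n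

/-- Symmetric requirements. -/
def Sy (n : ℕ) (M : List (List ℕ)) : Prop := ∀ x y : Fin n, rE n M x y = rE n M y x

/-- No component of the hyperedges with at most three vertices has exactly one half-edge. -/
def NoOne (n : ℕ) (es : List (List ℕ)) (m : Fin n → ℕ) : Prop :=
  ∀ X : Finset (Fin n), cE n (sml es) X = 0 → ∑ v ∈ X, m v ≠ 1

/-- The number of half-edges of the list `L` at a vertex. -/
def ct (n : ℕ) (L : List ℕ) (v : Fin n) : ℕ := L.count v.val

/-- The number of arcs leaving `s`. -/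
def dout (A : List (ℕ × ℕ)) (s : ℕ → Bool) : ℕ := A.countP fun a => s a.1 && !(s a.2)

/-! ### Flows -/

/-- LAY. Layers. `lay A y (k + 1) = layS A (lay A y k)` (`List.range_succ`, `foldl_append`). Last part: if no arc
leads from outside into `lay k` then all later layers have the same elements; each of the steps
`0, ..., |A|` which adds an element adds the tail of an arc, so at most `|A|` steps do (count the arcs with
tail in the layer, or the distinct tails); hence some `k ≤ |A|` is closed and so are the later ones. -/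
def Stmt_LAY : Prop :=
  ∀ (A : List (ℕ × ℕ)) (y : ℕ),
    (∀ x, x ∈ lay A y 0 ↔ x = y) ∧
    (∀ x k, x ∈ lay A y (k + 1) ↔ x ∈ lay A y k ∨ ∃ w, (x, w) ∈ A ∧ w ∈ lay A y k) ∧
    (∀ x k, memB x (lay A y k) = true ↔ x ∈ lay A y k) ∧
    (∀ a b, (a, b) ∈ A → b ∈ lay A y A.length → a ∈ lay A y A.length)

/-- WST. One step of the walk. If `s.1` is in layer `k` nothing happens. Otherwise `s.1` is in layer `k + 1`, so
`nxt` is not empty (LAY), its first element `i` is an index with `A[i] = (u, w)`, `u = s.1`, `w` in layer `k`;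
`flipAt` replaces it by `(w, u)` (same length; `A = take i A ++ (u, w) :: drop (i + 1) A`). For `j ≤ k` the layer
`j` of the old arcs is contained in that of the new arcs (induction: `u` is not in layer `k`, so the arc
`(u, w)` is not used), so `w` is in layer `k` of the new arcs. `dout` changes by `[t w] - [t u]`. -/
def Stmt_WST : Prop :=
  ∀ (y k : ℕ) (s : ℕ × List (ℕ × ℕ)), s.1 ∈ lay s.2 y (k + 1) →
    (wstep y s k).1 ∈ lay (wstep y s k).2 y k ∧ (wstep y s k).2.length = s.2.length ∧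
    ∀ t : ℕ → Bool, dout (wstep y s k).2 t + (if t s.1 then 1 else 0) =
      dout s.2 t + (if t (wstep y s k).1 then 1 else 0)

/-- AUG. The whole walk: WST for `k = |A| - 1, ..., 0` (`(List.range (k + 1)).reverse = k :: (List.range k).reverse`);
at the end the node is in layer `0`, i.e. `y`. -/
def Stmt_AUG : Prop :=
  ∀ (A : List (ℕ × ℕ)) (x y : ℕ), x ∈ lay A y A.length → (aug A x y).2.length = A.length ∧
    ∀ t : ℕ → Bool, t x = true → t y = false → dout (aug A x y).2 t + 1 = dout A t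

/-- FLO. The rounds. After `j` successful rounds the arcs `A_j` satisfy `dout A_j t + j = dout A t` for all `t`
with `t x`, `¬ t y` (AUG). If all `T` rounds are successful, `T ≤ dout A t`. If round `j + 1 ≤ T` fails, let `t` be
the complement of `lay A_j y |A_j|`: no arc of `A_j` leaves it (LAY), so `dout A t = j < T`. (If `x = y` all
rounds are successful: `x` is always in the layer.) -/
def Stmt_FLO : Prop :=
  ∀ (A : List (ℕ × ℕ)) (T x y : ℕ),
    ((List.range T).foldl (fun s _ => rnd x y s) (true, A)).1 = true ↔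
      ∀ t : ℕ → Bool, t x = true → t y = false → T ≤ dout A t

/-- NET. The network. `dout (arcs B es) s ≥ cutB es s`: a hyperedge crossing `s` gives at least one arc leaving
`s` (`v` in `s`, `w` not in `s`: the path `v → in → out → w`), and the arcs of different hyperedges are
different positions of the list (`countP` of `flatMap` is a sum). For the second part let `t` agree with `s` on
the vertices, in `∈ t` iff the hyperedge meets `s`, out `∈ t` iff it is contained in `s` and not empty: only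
the arc (in, out) of a crossing hyperedge leaves `t`. -/
def Stmt_NET : Prop :=
  ∀ (B : ℕ) (es : List (List ℕ)), (∀ e ∈ es, ∀ v ∈ e, v < B) →
    (∀ s : ℕ → Bool, cutB es s ≤ dout (arcs B es) s) ∧
    ∀ s : ℕ → Bool, ∃ t : ℕ → Bool, (∀ v, v < B → t v = s v) ∧ dout (arcs B es) t ≤ cutB es s

/-- GEB. Local edge-connectivity: FLO and NET. -/
def Stmt_GEB : Prop :=
  ∀ (B : ℕ) (es : List (List ℕ)) (T x y : ℕ), (∀ e ∈ es, ∀ v ∈ e, v < B) → x < B → y < B →
    (geB B es T x y = true ↔ ∀ s : ℕ → Bool, s x = true → s y = false → T ≤ cutB es s)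

/-! ### Checks -/

/-- SMF. Small facts. `ddp e` has the elements of `e` and no duplicates, so its length is
`e.toFinset.card`. `sml (es ++ [[u, v]]) = sml es ++ [[u, v]]`, `sml (es ++ edg F) = sml es ++ edg F`. -/
def Stmt_SMF : Prop :=
  (∀ e : List ℕ, (ddp e).length = e.toFinset.card) ∧
  (∀ (es : List (List ℕ)) (F : List (ℕ × ℕ)), sml (es ++ edg F) = sml es ++ edg F) ∧
  (∀ (n : ℕ) (es : List (List ℕ)), Vs n es → Vs n (sml es)) ∧
  (∀ (n : ℕ) (es : List (List ℕ)) (F : List (Fin n × Fin n)) (X : Finset (Fin n)),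
    cE n (es ++ edg (mapF F)) X = cE n es X + gl F X) ∧
  (∀ (n : ℕ) (es : List (List ℕ)) (F : List (Fin n × Fin n)), Vs n es → Vs n (es ++ edg (mapF F))) ∧
  (∀ (n : ℕ) (es : List (List ℕ)), Vs n es → IsCut (cE n es))

/-- HFM. The family of hyperedges: `H i = univ.filter fun v => v.val ∈ es[i]` (as in B_SHF.lean); `(H i).card` is
the number of distinct entries (SMF); `Cl3 H X` says that no small hyperedge crosses `X` (a hyperedge crosses
`X` iff it crosses the complement). -/
def Stmt_HFM : Prop :=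
  ∀ (n : ℕ) (es : List (List ℕ)), Vs n es → ∃ H : Fin es.length → Finset (Fin n),
    (∀ X, Pool.Agent.Work.MP_2183d4_lc_66.cut H X = cE n es X) ∧
    ∀ X, Cl3 H X ↔ cE n (sml es) X = 0

/-- FEA. As B_SFM.lean with GEB instead of SRE (`B = n + 1`): the new vertex `n`, symmetric requirements. -/
def Stmt_FEA : Prop :=
  ∀ (n : ℕ) (es M : List (List ℕ)) (L : List ℕ), Vs n es → Sy n M → (∀ v ∈ L, v < n) →
    (feaB n es M L = true ↔ FeasM (cE n es) (rE n M) (ct n L))

/-- CNS. `conS` is the relation `Same` of the small hyperedges (`stmt_SCO` in B_SCO.lean, or `stmt_SPQ`; the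
complement for symmetry). -/
def Stmt_CNS : Prop :=
  ∀ (n : ℕ) (es : List (List ℕ)) (x y : Fin n), Vs n es →
    (conS es x y = true ↔ Same (cE n (sml es)) x y)

/-- ONB. `onesB`: for `v ∈ L` the number of half-edges in the component of `v` is not `1` (CNS; `countP` of `L` is
a sum of `ct`, as in B_SFM.lean `countP_sum`). A closed set with exactly one half-edge contains the component
of this half-edge. -/
def Stmt_ONB : Prop :=
  ∀ (n : ℕ) (es : List (List ℕ)) (L : List ℕ), Vs n es → (∀ v ∈ L, v < n) →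
    (onesB es L = true ↔ NoOne n es (ct n L))

/-! ### Splitting -/

/-- RMC. `rm`. -/
def Stmt_RMC : Prop :=
  ∀ (u : ℕ) (L : List ℕ), u ∈ L → (rm u L).length + 1 = L.length ∧ (∀ v ∈ rm u L, v ∈ L) ∧
    ∀ w, (rm u L).count w = L.count w - (if w = u then 1 else 0)

/-- SPN. If `L` is enough, has no components with exactly one half-edge, and its length is even and positive
then some pair can be split off. STP for the family of HFM, `m = ct n L`,
`R X = (X ×ˢ Xᶜ).sup fun z => rE n M z.1 z.2` (this is `Rq`: `REQ` in MP_2183d4_lc_66/REQ.lean;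
`FeasM` is `R ≤ F`). For the pair `u, v` of STP all parts of `okp` hold: RMC, FEA for `es ++ [[u, v]]` (the cut
function is `cE + cr (u, v)`, SMF), ONB: closed sets for `es ++ [[u, v]]` are closed and contain both or none of
`u, v`, and lose `2` or `0` half-edges. -/
def Stmt_SPN : Prop :=
  ∀ (n : ℕ) (es M : List (List ℕ)) (L : List ℕ), Vs n es → Sy n M → (∀ v ∈ L, v < n) →
    FeasM (cE n es) (rE n M) (ct n L) → NoOne n es (ct n L) → Even L.length → L ≠ [] →
    ∃ p ∈ prs n, okp n es M L p = true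

/-- SPL. The whole splitting. Invariant for the state `(mapF G, L')` after `j` steps: `L'` has entries `< n`, is
enough for `es ++ edg (mapF G)`, no component (of these) with exactly one half-edge, even length,
`2 * G.length + L'.length = L.length`, and `L'.length ≤ L.length - 2 j` (or `L' = []`). SPN gives that `cnd` is
not empty if `L' ≠ []`; its first element satisfies `okp` (FEA, ONB, RMC, SLI for `prs`); if `L' = []` then `cnd`
is empty (`memB`). At the end `L' = []`, so `FeasM` is `Ok`. -/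
def Stmt_SPL : Prop :=
  ∀ (n : ℕ) (es M : List (List ℕ)) (L : List ℕ), Vs n es → Sy n M → (∀ v ∈ L, v < n) →
    FeasM (cE n es) (rE n M) (ct n L) → NoOne n es (ct n L) → Even L.length →
    ∃ G : List (Fin n × Fin n), spl n es M L = mapF G ∧ 2 * G.length ≤ L.length ∧
      Ok (cE n es) (rE n M) G

/-! ### Greedy half-edges -/

/-- RST. The list `rst`: entries `< n`, outside of the components of `Z`, and every other vertex has at least as
many half-edges as any requirement. (`rq M x y` is `0` or an entry of a row of `M`; then `bigN M` is at least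
the length of `List.range (rq M x y)`.) -/
def Stmt_RST : Prop :=
  ∀ (n : ℕ) (es M : List (List ℕ)) (Z : List ℕ),
    (∀ v ∈ rst n es M Z, v < n ∧ ¬ ∃ z ∈ Z, conS es z v = true) ∧
    ∀ v : Fin n, (¬ ∃ z ∈ Z, conS es z v = true) → ∀ x y : ℕ, rq M x y ≤ ct n (rst n es M Z) v

/-- KPT. The greedy algorithm (as `inv` in B_SGR.lean): if `L0 ++ R` is enough then so is `L0 ++ kpt`, the
elements of `kpt` are elements of `R`, and for every vertex `v` of `kpt` the list `L0 ++ kpt` without one copy of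
`v` is not enough. Invariant after `j` steps: `L0 ++ kept ++ R.drop j` is enough, and for every vertex `v` of
`kept` the list `L0 ++ kept ++ R.drop j` without one copy of `v` is not enough (it stays not enough when
half-edges are removed). -/
def Stmt_KPT : Prop :=
  ∀ (n : ℕ) (es M : List (List ℕ)) (L0 R : List ℕ), Vs n es → Sy n M → (∀ v ∈ L0, v < n) →
    (∀ v ∈ R, v < n) → FeasM (cE n es) (rE n M) (ct n (L0 ++ R)) →
    (∀ v ∈ kpt n es M L0 R, v ∈ R) ∧
    FeasM (cE n es) (rE n M) (ct n (L0 ++ kpt n es M L0 R)) ∧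
    ∀ v : Fin n, v.val ∈ kpt n es M L0 R →
      ¬ FeasM (cE n es) (rE n M) fun w => ct n (L0 ++ kpt n es M L0 R) w - (if w = v then 1 else 0)

/-- GRD. `grd`. The start is enough: let `x ∈ X`, `y ∉ X`; if `X` contains a vertex outside of the components of
`Z` use RST; otherwise `μ` is `0` on `X`, so `r x y ≤ c X`. KPT. The length: `length = ∑ ct` (entries `< n`), MIN for
the family of HFM, `l = ct L0`, `k = ct kpt` (a vertex `v` with `0 < k v`: without it not enough, so some `X ∋ v`
has `F X ≤ R X`; `R` as in SPN). -/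
def Stmt_GRD : Prop :=
  ∀ (n : ℕ) (es M : List (List ℕ)) (Z L0 : List ℕ) (μ : Fin n → ℕ), Vs n es → Sy n M →
    (∀ v ∈ L0, v < n) → FeasM (cE n es) (rE n M) μ → (∀ v, ct n L0 v ≤ μ v) →
    (∀ v : Fin n, (∃ z ∈ Z, conS es z v = true) → μ v = 0) →
    (∀ v ∈ grd n es M Z L0, v < n) ∧
    FeasM (cE n es) (rE n M) (ct n (grd n es M Z L0)) ∧
    (∀ v, ct n L0 v ≤ ct n (grd n es M Z L0) v) ∧
    (∀ v : Fin n, (∃ z ∈ Z, conS es z v = true) → ct n (grd n es M Z L0) v = 0) ∧
    (grd n es M Z L0).length ≤ ∑ v, μ v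

/-- FXP. `fixp` makes the length even by adding one half-edge at a vertex which has one already. If
`NoOne` holds before it holds afterwards: a closed set containing this vertex had at least two
half-edges. -/
def Stmt_FXP : Prop :=
  ∀ (n : ℕ) (es : List (List ℕ)) (L : List ℕ), (∀ v ∈ L, v < n) → NoOne n es (ct n L) →
    Even (fixp L).length ∧ (∀ v ∈ fixp L, v < n) ∧ (∀ v, ct n L v ≤ ct n (fixp L) v) ∧
    NoOne n es (ct n (fixp L)) ∧ (∀ t, L.length ≤ t → Even t → (fixp L).length ≤ t)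

/-- BLD. `build` for a good guess: GRD for `es := I.2.1 ++ edg (mapF F1)`, FXP, SPL; `FeasM` is monotone in
`m`. The graph is `F1 ++ G` without its loops (`gl` does not change). -/
def Stmt_BLD : Prop :=
  ∀ (I : Ins) (F1 : List (Fin I.1 × Fin I.1)) (Z L0 : List ℕ) (μ : Fin I.1 → ℕ),
    Vs I.1 I.2.1 → Sy I.1 I.2.2 → (∀ v ∈ L0, v < I.1) →
    FeasM (cE I.1 (I.2.1 ++ edg (mapF F1))) (rE I.1 I.2.2) μ → Even (∑ v, μ v) →
    (∀ v, ct I.1 L0 v ≤ μ v) →
    (∀ v : Fin I.1, (∃ z ∈ Z, conS (I.2.1 ++ edg (mapF F1)) z v = true) → μ v = 0) →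
    (∀ m : Fin I.1 → ℕ, FeasM (cE I.1 (I.2.1 ++ edg (mapF F1))) (rE I.1 I.2.2) m →
      (∀ v, ct I.1 L0 v ≤ m v) →
      (∀ v : Fin I.1, (∃ z ∈ Z, conS (I.2.1 ++ edg (mapF F1)) z v = true) → m v = 0) →
      NoOne I.1 (I.2.1 ++ edg (mapF F1)) m) →
    ∃ G : List (Fin I.1 × Fin I.1), build I (mapF F1) Z L0 = mapF G ∧ (∀ e ∈ G, e.1 ≠ e.2) ∧
      Ok (cE I.1 I.2.1) (rE I.1 I.2.2) G ∧ 2 * G.length ≤ 2 * F1.length + ∑ v, μ v

/-- GOD. `goodG`: FEA for the empty list of half-edges; a list of pairs of numbers `< n` is some `mapF G`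
(`exists_mapF` in B_STR.lean). -/
def Stmt_GOD : Prop :=
  ∀ I : Ins, Vs I.1 I.2.1 → Sy I.1 I.2.2 →
    (∀ G : List (Fin I.1 × Fin I.1), goodG I (mapF G) = true ↔ Ok (cE I.1 I.2.1) (rE I.1 I.2.2) G) ∧
    ∀ G : List (ℕ × ℕ), goodG I G = true → ∃ G' : List (Fin I.1 × Fin I.1), G = mapF G'

/-- BST. `best`. -/
def Stmt_BST : Prop :=
  ∀ l : List (List (ℕ × ℕ)), l ≠ [] → best l ∈ l ∧ ∀ G ∈ l, (best l).length ≤ G.length

/-! ### The structure of an optimal graph -/

/-- POT. Induction on `P.card + (number of p ∈ P with hd G (comp c p) = 1)`. If no `p ∈ P` has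
`hd G (comp c p) = 1` take `G0 = []`: a closed `X` with `hd G X = 1` contains an end `v`, `comp c v ⊆ X` has
`hd = 1`, so it is the component of some `p ∈ P`. Otherwise exactly one edge `e` of `G` has an end in
`K = comp c p`, the other end is in another component `K'`. Let `G'` be `G` without `e`, `c' X = c X + gl [e] X`
(`IsCut`: see Basic.lean / B_SCF.lean). The components of `c'` are those of `c` except that `K, K'` are united, and
`hd G' (K ∪ K') = hd G K' - 1`. If `K'` contains some `q ∈ P` take `P' = P.erase p` (the number of ones does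
not increase: `q` may become a one, `p` was one), otherwise `P' = P` (`hd G K' ≥ 3`, `p` is no one any more).
Then `G0 = e :: G0'`. The number of steps is at most `P.card + P.card`. -/
def Stmt_POT : Prop :=
  ∀ (V : Type) [Fintype V] [DecidableEq V] (c : Finset V → ℕ), IsCut c →
    ∀ (G : List (V × V)) (P : Finset V), (∀ p ∈ P, ∀ q ∈ P, Same c p q → p = q) →
    (∀ v, hd G (comp c v) ≤ 2 → ∃ p ∈ P, Same c v p) →
    ∃ G0 G1 : List (V × V), G.Perm (G0 ++ G1) ∧ G0.length ≤ 2 * P.card ∧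
      ∀ X, c X + gl G0 X = 0 → hd G1 X ≠ 1

/-- The requirement function on sets. -/
def RE (n : ℕ) (M : List (List ℕ)) (X : Finset (Fin n)) : ℕ :=
  (X ×ˢ Xᶜ).sup fun z => rE n M z.1 z.2

/-- All components of the small hyperedges except for at most `c` of them contain disjoint sets with
total deficiency at least `3`. -/
def Exc (c n : ℕ) (es M : List (List ℕ)) : Prop :=
  ∃ P : Finset (Fin n), P.card ≤ c ∧ (∀ p ∈ P, ∀ q ∈ P, Same (cE n (sml es)) p q → p = q) ∧
    ∀ v, (∀ p ∈ P, ¬ Same (cE n (sml es)) v p) →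
      ∃ 𝓕 : Finset (Finset (Fin n)), (∀ A ∈ 𝓕, A ⊆ comp (cE n (sml es)) v) ∧
        (∀ A ∈ 𝓕, ∀ B ∈ 𝓕, A ≠ B → Disjoint A B) ∧ 3 ≤ ∑ A ∈ 𝓕, (RE n M A - cE n es A)

/-- HDS. Degrees: for a graph `G` which is `Ok`, the half-edges `hd`: `hd G C = ∑ v ∈ C, hd G {v}`,
`gl G X ≤ hd G X`, `∑ v, hd G {v} = 2 * G.length`, and `hd G C ≥ ∑ A ∈ 𝓕, (RE A - cE A)` for disjoint subsets `A`
of `C`. -/
def Stmt_HDS : Prop :=
  ∀ (n : ℕ) (es M : List (List ℕ)) (G : List (Fin n × Fin n)),
    (∀ C : Finset (Fin n), hd G C = ∑ v ∈ C, hd G {v}) ∧ (∀ X, gl G X ≤ hd G X) ∧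
    ∑ v, hd G {v} = 2 * G.length ∧
    (∀ (C : Finset (Fin n)) (𝓕 : Finset (Finset (Fin n))) (m : Fin n → ℕ),
      FeasM (cE n es) (rE n M) m → (∀ A ∈ 𝓕, A ⊆ C) →
      (∀ A ∈ 𝓕, ∀ B ∈ 𝓕, A ≠ B → Disjoint A B) →
      ∑ A ∈ 𝓕, (RE n M A - cE n es A) ≤ ∑ v ∈ C, m v)

/-- CNT. From an optimal graph `G` (`Ok`, length `N`) and `Exc c`: POT for `c3 = cE n (sml es)` and `P`
(`hd G (comp v) ≥ 3` for the other components by HDS with `m = hd G {·}`, which is `FeasM` since `G` is `Ok` and
`gl ≤ hd`). `F1 := G0`, `μ v := hd G1 {v}` (`FeasM` for `es ++ edg (mapF F1)`, SMF; even sum `2 |G1|`). Let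
`c3' = cE n (sml (es ++ edg (mapF F1))) = c3 + gl F1` and `Q` the set of the members of `P` and the ends of `F1`:
`Q.card ≤ 5 c`. For the components `K` (for `c3'`) of the members of `Q`: if `μ(K) = 0` put the member into `Z`;
otherwise `μ(K) ≥ 2` (POT), choose `l ≤ μ` on `K` with `l(K) = 2`; `L0` is a list with counts `l` (`0` outside of
these components; different components are disjoint), of length at most `10 c`. The last condition:
let `m` be as in BLD and `X` closed with `m(X) = 1`, `v ∈ X` its half-edge, `K` the `c3'`-component of `v`, so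
`m(K) = 1`. If `K` meets `Q`: `m(K) = 0` or `m(K) ≥ l(K) = 2`. If not, `K` is the `c3`-component of `v` (no edge
of `F1` has an end in it), not represented in `P`, and `m(K) ≥ 3` by HDS (`cE (es ++ F1) A = cE es A` for
`A ⊆ K`). -/
def Stmt_CNT : Prop :=
  ∀ (I : Ins) (c N : ℕ), Vs I.1 I.2.1 → Sy I.1 I.2.2 → Exc c I.1 I.2.1 I.2.2 →
    IsOpt (cE I.1 I.2.1) (rE I.1 I.2.2) N →
    ∃ (F1 : List (Fin I.1 × Fin I.1)) (Z L0 : List ℕ) (μ : Fin I.1 → ℕ),
      F1.length ≤ 10 * c ∧ Z.length ≤ 10 * c ∧ L0.length ≤ 10 * c ∧ (∀ v ∈ Z, v < I.1) ∧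
      (∀ v ∈ L0, v < I.1) ∧ 2 * F1.length + ∑ v, μ v ≤ 2 * N ∧
      FeasM (cE I.1 (I.2.1 ++ edg (mapF F1))) (rE I.1 I.2.2) μ ∧ Even (∑ v, μ v) ∧
      (∀ v, ct I.1 L0 v ≤ μ v) ∧
      (∀ v : Fin I.1, (∃ z ∈ Z, conS (I.2.1 ++ edg (mapF F1)) z v = true) → μ v = 0) ∧
      ∀ m : Fin I.1 → ℕ, FeasM (cE I.1 (I.2.1 ++ edg (mapF F1))) (rE I.1 I.2.2) m →
        (∀ v, ct I.1 L0 v ≤ m v) →
        (∀ v : Fin I.1, (∃ z ∈ Z, conS (I.2.1 ++ edg (mapF F1)) z v = true) → m v = 0) →
        NoOne I.1 (I.2.1 ++ edg (mapF F1)) m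

/-- SOL. The algorithm is correct. CNT and BLD give a candidate (`allF (10 c) n` contains `mapF F1`,
`Z.map fun v => (v, v)`, `L0.map fun v => (v, v)`: SLI) which is `mapF G` with `G` `Ok` and `G.length ≤ N`; it
passes `goodG` (GOD). `best` of the filtered list (BST) is `mapF G'` with `G'` `Ok` (GOD), `G'.length ≤ G.length ≤ N`,
so `G'.length = N`. It has no loops: it is some `build ...`, a filtered list. -/
def Stmt_SOL : Prop :=
  ∀ (I : Ins) (c N : ℕ), Vs I.1 I.2.1 → Sy I.1 I.2.2 → Exc c I.1 I.2.1 I.2.2 →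
    IsOpt (cE I.1 I.2.1) (rE I.1 I.2.2) N →
    ∃ G : List (Fin I.1 × Fin I.1), Pool.AUGS.Alg.solve (10 * c) I = mapF G ∧ (∀ e ∈ G, e.1 ≠ e.2) ∧
      Ok (cE I.1 I.2.1) (rE I.1 I.2.2) G ∧ G.length = N

end Pool.AUGS
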