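import Mathlib
import Pool.Agent.Work.TMLib.Classes

/-!
# MP_2183d4_lc (hyperedges with at most three vertices): the definitions of the final statement

(They are repeated, with the same bodies, in the Results file.)
-/

set_option autoImplicit false

namespace Pool.AUGS.St

open Pool.Agent.Work.TMLib Finset

section
variable {V E : Type} [Fintype V] [DecidableEq V] [Fintype E]

open Classical in
/-- `d_H(X)`: the number of hyperedges meeting both `X` and its complement. -/
noncomputable def cut (H : E → Finset V) (X : Finset V) : ℕ :=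
  (univ.filter fun e => (∃ v ∈ H e, v ∈ X) ∧ ∃ v ∈ H e, v ∉ X).card

/-- The local edge-connectivity `λ_H(x,y)`: the least `d_H(X)` over the sets `X` containing `x` but
not `y`. -/
noncomputable def lam (H : E → Finset V) (x y : V) : ℕ :=
  sInf {d | ∃ X : Finset V, x ∈ X ∧ y ∉ X ∧ d = cut H X}

/-- The hypergraph `H + G`, where `G` is the graph with edge family `g`. -/
def addG (H : E → Finset V) {n : ℕ} (g : Fin n → V × V) : E ⊕ Fin n → Finset V :=
  Sum.elim H fun i => {(g i).1, (g i).2}

/-- The numbers of edges of the graphs `G` with `λ_{H+G}(x,y) ≥ r(x,y)` for all `x ≠ y`. -/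
def Sizes (H : E → Finset V) (r : V → V → ℕ) : Set ℕ :=
  {n | ∃ g : Fin n → V × V, (∀ i, (g i).1 ≠ (g i).2) ∧
    ∀ x y, x ≠ y → r x y ≤ lam (addG H g) x y}

/-- `R(X)`: the largest requirement `r(x,y)` with `x` in `X` and `y` not in `X` (`0` if there is no
such pair). -/
def req (r : V → V → ℕ) (X : Finset V) : ℕ := (X ×ˢ Xᶜ).sup fun z => r z.1 z.2

open Classical in
/-- The deficiency of `C`: the largest value of `∑ max(0, R(X) - d_H(X))` over families of pairwise
disjoint subsets of `C`. -/
noncomputable def defic (H : E → Finset V) (r : V → V → ℕ) (C : Finset V) : ℕ :=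
  ((univ : Finset (Finset (Finset V))).filter
    (fun F => (∀ A ∈ F, A ⊆ C) ∧ ∀ A ∈ F, ∀ B ∈ F, A ≠ B → Disjoint A B)).sup
      fun F => ∑ X ∈ F, (req r X - cut H X)

/-- `C` is a component of `H3`, the hypergraph formed by the hyperedges of `H` with at most three
vertices: a minimal nonempty set which no hyperedge with at most three vertices leaves. -/
def SmallComp (H : E → Finset V) (C : Finset V) : Prop :=
  C.Nonempty ∧ (∀ e, (H e).card ≤ 3 → (∃ v ∈ H e, v ∈ C) → H e ⊆ C) ∧
    ∀ D : Finset V, D ⊂ C → D.Nonempty → ∃ e, (H e).card ≤ 3 ∧ (∃ v ∈ H e, v ∈ D) ∧ ¬ H e ⊆ D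

/-- `m v` half-edges at every vertex `v` are enough for every cut: `m(X) ≥ R(X) - d_H(X)`. -/
def Enough (H : E → Finset V) (r : V → V → ℕ) (m : V → ℕ) : Prop :=
  ∀ X : Finset V, req r X ≤ cut H X + ∑ v ∈ X, m v

open Classical in
/-- The number of components of `H3` with exactly one half-edge. -/
noncomputable def ones (H : E → Finset V) (m : V → ℕ) : ℕ :=
  ((univ : Finset (Finset V)).filter fun C => SmallComp H C ∧ ∑ v ∈ C, m v = 1).card

end

/-- An instance: the number `n` of vertices `0, ..., n - 1`, the hyperedges (lists of vertices) and the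
requirements (`r(x,y)` is entry `y` of row `x`, missing entries are `0`). -/
abbrev Inst := ℕ × List (List ℕ) × List (List ℕ)

/-- The requirement `r(x,y)`. -/
def Inst.r (I : Inst) (x y : Fin I.1) : ℕ := (I.2.2.getD x []).getD y 0

/-- The hypergraph with vertex set `Fin n` given by a list of hyperedges. -/
def hyp (n : ℕ) (es : List (List ℕ)) (i : Fin es.length) : Finset (Fin n) :=
  univ.filter fun v => v.val ∈ es[i]

/-- Hyperedges consist of vertices, symmetric requirements, and all components of `H3` except for at
most `c` of them have deficiency at least `3`. -/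
def Valid (c : ℕ) (I : Inst) : Prop :=
  (∀ e ∈ I.2.1, ∀ v ∈ e, v < I.1) ∧ (∀ x y, I.r x y = I.r y x) ∧
    ∃ S : Finset (Finset (Fin I.1)), S.card ≤ c ∧
      ∀ C, SmallComp (hyp I.1 I.2.1) C → C ∉ S → 3 ≤ defic (hyp I.1 I.2.1) I.r C

/-- `G` is an optimal graph (no loops, parallel edges allowed): its ends are vertices, `H + G`
satisfies all requirements, and no graph with fewer edges does. -/
def Optimal (I : Inst) (G : List (ℕ × ℕ)) : Prop :=
  ∃ g : Fin G.length → Fin I.1 × Fin I.1,
    (∀ i, ((g i).1.val, (g i).2.val) = G[i]) ∧ (∀ i, (g i).1 ≠ (g i).2) ∧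
      (∀ x y, x ≠ y → I.r x y ≤ lam (addG (hyp I.1 I.2.1) g) x y) ∧
      ∀ n ∈ Sizes (hyp I.1 I.2.1) I.r, G.length ≤ n

/-- A natural number in unary: `x` symbols `0` followed by the symbol `1`. -/
def encNum (x : ℕ) : List (Fin 4) := List.replicate x 0 ++ [1]

/-- A list of lists of numbers: each list is closed by the symbol `2`. -/
def encLists (l : List (List ℕ)) : List (Fin 4) := l.flatMap fun e => e.flatMap encNum ++ [2]

/-- Instances as strings over four symbols: the number of vertices, the hyperedges, the symbol `3`, the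
rows of the requirement matrix. -/
def Inst.enc (I : Inst) : List (Fin 4) := encNum I.1 ++ encLists I.2.1 ++ [3] ++ encLists I.2.2

/-- Graphs as strings: the ends of the edges one after the other. -/
def encGraph (G : List (ℕ × ℕ)) : List (Fin 4) := G.flatMap fun e => encNum e.1 ++ encNum e.2

end Pool.AUGS.St
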