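import Pool.Agent.Work.MP_2183d4_sm.Interface2
import Pool.Agent.Work.MP_2183d4_sm.Stmt

/-!
# MP_2183d4_lc (hyperedges with at most three vertices): the last blocks
-/

set_option autoImplicit false

namespace Pool.AUGS

open Finset Pool.AUG Pool.AUG.Alg Pool.AUGS.Alg

/-- FNA, the structural theorem. `St.cut`, `St.req` are `MP_2183d4_lc_66.cut`, `MP_2183d4_add.req` (or the like) by
`rfl` (see how `final` in Work/MP_2183d4_add/Reduce.lean is used in Results/MP_2183d4_lc/AdditiveBound.lean:
`stmt_DEG`, `lb`, `mem_sizes_of`); `St.defic H r univ` is `alpha` there (`A ⊆ univ` always). The least element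
exists since some graph satisfies all requirements (GRE for a `m` with enough half-edges, ADT). (1) the lower
bound `lb`. (2) `m` enough: ADT gives `m'` (enough, even, no component with exactly one half-edge, `ones3 = ones`:
`Cl3` as in `SmallComp`), GRE gives `n` edges with `2 n ≤ ∑ m + ones + 1`, `mem_sizes_of` removes loops. (3) `stmt_DEG`.
(4) if all components have deficiency `≥ 2` then `ones m = 0` for the `m` of (3): `∑ v ∈ C, m v ≥ defic C`
(`∑ (R X - d X) ≤ ∑ m(X) ≤ m(C)` for disjoint `X ⊆ C`). -/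
def Stmt_FNA : Prop :=
  ∀ (V E : Type) [Fintype V] [DecidableEq V] [Fintype E] (H : E → Finset V) (r : V → V → ℕ),
    (∀ x y, r x y = r y x) →
    ∃ N, IsLeast (St.Sizes H r) N ∧ (St.defic H r univ + 1) / 2 ≤ N ∧
      (∀ m, St.Enough H r m → N ≤ (∑ v, m v + St.ones H m + 1) / 2) ∧
      (∃ m, St.Enough H r m ∧ ∑ v, m v = St.defic H r univ) ∧
      ((∀ C, St.SmallComp H C → 2 ≤ St.defic H r C) → N = (St.defic H r univ + 1) / 2)

/-- STV. Validity: from `St.Valid c I` to `Vs`, `Sy`, `Exc c`. `cE n es = St.cut (hyp n es)` (as in B_SHF.lean).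
`comp (cE n (sml es)) v` is a `SmallComp` (closed, minimal: SMF, `IsCut`); choose for every such component in `S` one
vertex: `P`. `RE n M = St.req I.r`; `3 ≤ defic C` gives a family (`sup` over a finset: `Finset.exists_mem_eq_sup`
or `Finset.le_sup`...). -/
def Stmt_STV : Prop :=
  ∀ (c : ℕ) (I : St.Inst), St.Valid c I → Vs I.1 I.2.1 ∧ Sy I.1 I.2.2 ∧ Exc c I.1 I.2.1 I.2.2

/-- STO. Optimality: `N` with `IsOpt` exists (as `EXO` in B_EXO.lean), and a loopless `G` which is `Ok` with
`G.length = N` gives `St.Optimal I (mapF G)`: `λ` as an infimum of cuts (B_STR.lean `le_lam`), the cuts of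
`addG (hyp n es) g` are `cE n es + gl G`; a graph of `Sizes` with `n` edges gives a list of length `n` which is
`Ok`. -/
def Stmt_STO : Prop :=
  ∀ I : St.Inst, Vs I.1 I.2.1 → Sy I.1 I.2.2 →
    ∃ N, IsOpt (cE I.1 I.2.1) (rE I.1 I.2.2) N ∧
      ∀ G : List (Fin I.1 × Fin I.1), (∀ e ∈ G, e.1 ≠ e.2) → Ok (cE I.1 I.2.1) (rE I.1 I.2.2) G →
        G.length = N → St.Optimal I (mapF G)

/-- SPU. `solve` is polynomial with respect to the encodings: as B_SPT.lean of Work/MP_2183d4_pt (the encodings are
the same functions, so its parser can be imported), with `PolyF.solve` from AlgPoly.lean. -/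
def Stmt_SPU : Prop :=
  ∀ b : ℕ, Pool.Agent.Work.TMLib.PolyTime St.Inst.enc St.encGraph
    fun I => Pool.AUGS.Alg.solve b I

end Pool.AUGS
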